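import Pool.Agent.LGO.E3.AuxP
import Pool.Agent.LGO.A.BsG
import Pool.Agent.LGO.A.BsW
import Pool.Agent.LGO.A.BsSi
import Pool.Agent.LGO.A.BsAn
import Pool.Agent.LGO.Mul.Main

/-!
# LGO, engine 3, module Base: the facts taken from the common base (`LGO/A/Bs*.lean`, helper67)

`base`: local and arithmetic data of a curve (BsG, BsU, BsW).  `siegel`: uniform Siegel lemma (BsSi).
-/

namespace Pool.Agent.LGO.E3

open Pool.Agent.EllSch Pool.Agent.LGO.Bs Filter Topology NumberField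
open Pool.Agent.Schn (tay tay_congr tay_mul HurInt)

/-- a reduced basis of the lattice -/
theorem Base_red {w τ : ℂ} (hw : w ≠ 0) (hτ : 0 < τ.im) : ∃ w' τ' : ℂ, w' ≠ 0 ∧ Red τ' ∧
    w' ∈ Lt w τ ∧ G2 w' (w' * τ') = G2 w (w * τ) ∧ G3 w' (w' * τ') = G3 w (w * τ) := by
  set z : UpperHalfPlane := ⟨τ, hτ⟩ with hz
  have hzc : (z : ℂ) = τ := rfl
  obtain ⟨g, hg⟩ := ModularGroup.exists_smul_mem_fd z
  have hdet : g 0 0 * g 1 1 - g 0 1 * g 1 0 = 1 := by
    have := g.det_coe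
    rwa [Matrix.det_fin_two] at this
  set c : ℂ := (g 1 0 : ℂ) * τ + (g 1 1 : ℂ) with hc
  have hc0 : c ≠ 0 := by
    intro h0
    have h1 : (g 1 0 : ℝ) * τ.im = 0 := by
      have := congrArg Complex.im h0
      simpa [hc] using this
    have h2 : (g 1 0 : ℝ) = 0 := (mul_eq_zero.1 h1).resolve_right hτ.ne'
    have h3 : g 1 0 = 0 := by exact_mod_cast h2
    rw [hc, h3] at h0
    have h4 : g 1 1 = 0 := by
      have : ((g 1 1 : ℤ) : ℂ) = 0 := by simpa using h0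
      exact_mod_cast this
    rw [h3, h4] at hdet
    simp at hdet
  have happ : ((g • z : UpperHalfPlane) : ℂ) = ((g 0 0 : ℂ) * τ + (g 0 1 : ℂ)) / c := by
    rw [UpperHalfPlane.coe_specialLinearGroup_apply, hzc]
    simp [hc]
  have e1 : w * c = (g 1 1 : ℂ) * w + (g 1 0 : ℂ) * (w * τ) := by rw [hc]; ring
  have e2 : w * c * ((g • z : UpperHalfPlane) : ℂ) =
      (g 0 1 : ℂ) * w + (g 0 0 : ℂ) * (w * τ) := by
    rw [happ]; field_simp; ring
  have hd : g 1 1 * g 0 0 - g 1 0 * g 0 1 = 1 := by linarith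
  refine ⟨w * c, ((g • z : UpperHalfPlane) : ℂ), mul_ne_zero hw hc0,
    ⟨(g • z).im_pos, hg.2, ?_⟩, ⟨g 1 1, g 1 0, e1⟩, ?_, ?_⟩
  · have h1 := hg.1
    rw [Complex.normSq_eq_norm_sq] at h1
    have h2 := norm_nonneg ((g • z : UpperHalfPlane) : ℂ)
    nlinarith
  · rw [e2, e1]; exact G2_change hd
  · rw [e2, e1]; exact G3_change hd

/-- scaling of the series -/
theorem Base_scale {F : Type*} [Field F] [CharZero F] (A B : F) {ν : F} (hν : ν ≠ 0) :
    us (ν ^ 4 * A) (ν ^ 6 * B) =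
      PowerSeries.C (ν⁻¹ ^ 2) * PowerSeries.rescale ν (us A B) := by
  symm
  refine us_unique ?_ ?_ fun m => ?_
  · rw [PowerSeries.coeff_C_mul, PowerSeries.coeff_rescale, us_zero, mul_zero, mul_zero]
  · rw [PowerSeries.coeff_C_mul, PowerSeries.coeff_rescale, us_one, mul_zero, mul_zero]
  · rw [mul_pow, mul_pow, ← map_pow, ← map_pow, ← map_pow, ← map_pow, PowerSeries.coeff_C_mul,
      PowerSeries.coeff_C_mul, PowerSeries.coeff_C_mul, PowerSeries.coeff_rescale,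
      PowerSeries.coeff_rescale, PowerSeries.coeff_rescale]
    have h := us_rec A B m
    have h1 : ((m : F) + 1) * (m + 2) * (ν⁻¹ ^ 2 * (ν ^ (m + 2) * PowerSeries.coeff (m + 2)
        (us A B))) = ν ^ m * (((m : F) + 1) * (m + 2) * PowerSeries.coeff (m + 2) (us A B)) := by
      rw [pow_add]; field_simp
    rw [h1, h]
    by_cases hm : m = 0
    · subst hm
      simp only [if_true, pow_zero, one_mul]
      field_simp
    · simp only [if_neg hm]
      field_simp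
      ring

theorem Base_series {K : IntermediateField ℚ ℂ} [FiniteDimensional ℚ K] {h : ℝ} (hh : 1 ≤ h)
    {w τ : ℂ} (hI : Ind w (w * τ)) (h2 : Bd K h (G2 w (w * τ))) (h3 : Bd K h (G3 w (w * τ))) :
    ∃ (U : PowerSeries K) (ν : ℕ), 1 ≤ ν ∧ (ν : ℝ) ≤ Real.exp (3 * h) ∧ Ar ν (Real.exp h) U ∧
      PowerSeries.map (algebraMap K ℂ) U = us (3 / 2 * G2 w (w * τ)) (2 * G3 w (w * τ)) := by
  have : NumberField K := { }
  obtain ⟨n2, p2, q2, i2⟩ := h2.den
  obtain ⟨n3, p3, q3, i3⟩ := h3.den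
  set a : K := ⟨_, h2.mem⟩ with ha
  set b : K := ⟨_, h3.mem⟩ with hb
  have hinj : Function.Injective (algebraMap K ℂ) := (algebraMap K ℂ).injective
  have ia : IsIntegral ℤ ((n2 : K) * a) := by
    refine (isIntegral_algebraMap_iff (A := K) (B := ℂ) hinj).1 ?_
    rw [map_mul, map_natCast]; exact i2
  have ib : IsIntegral ℤ ((n3 : K) * b) := by
    refine (isIntegral_algebraMap_iff (A := K) (B := ℂ) hinj).1 ?_
    rw [map_mul, map_natCast]; exact i3
  have nat_int : ∀ n : ℕ, IsIntegral ℤ (n : K) := fun n => by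
    have := isIntegral_algebraMap (R := ℤ) (A := K) (x := (n : ℤ))
    simpa using this
  set ν : ℕ := 2 * n2 * n3 with hν
  have hν0 : 0 < ν := by positivity
  have hνK : (ν : K) ≠ 0 := by exact_mod_cast hν0.ne'
  have eν : (ν : K) = 2 * n2 * n3 := by rw [hν]; push_cast; ring
  have iA : IsIntegral ℤ ((ν : K) ^ 4 * (3 / 2 * a)) := by
    have e : (ν : K) ^ 4 * (3 / 2 * a) = ((3 * ν ^ 3 * n3 : ℕ) : K) * ((n2 : K) * a) := by
      have : (ν : K) ^ 4 = (ν : K) ^ 3 * (2 * n2 * n3) := by rw [← eν]; ring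
      rw [this]; push_cast; ring
    rw [e]; exact (nat_int _).mul ia
  have iB : IsIntegral ℤ ((ν : K) ^ 6 * (2 * b)) := by
    have e : (ν : K) ^ 6 * (2 * b) = ((4 * ν ^ 5 * n2 : ℕ) : K) * ((n3 : K) * b) := by
      have : (ν : K) ^ 6 = (ν : K) ^ 5 * (2 * n2 * n3) := by rw [← eν]; ring
      rw [this]; push_cast; ring
    rw [e]; exact (nat_int _).mul ib
  refine ⟨us (3 / 2 * a) (2 * b), ν, hν0, ?_, ⟨us_zero _ _, fun n => ?_, fun σ n => ?_⟩, ?_⟩
  · rw [hν]; push_cast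
    have h2e : (2 : ℝ) ≤ Real.exp h := by
      have h5 : (2 : ℝ) ≤ Real.exp 1 := by have := Real.exp_one_gt_d9; linarith
      exact h5.trans (Real.exp_le_exp.2 hh)
    calc (2 : ℝ) * n2 * n3 ≤ Real.exp h * Real.exp h * Real.exp h := by gcongr
      _ = Real.exp (3 * h) := by rw [← Real.exp_add, ← Real.exp_add]; ring_nf
  · obtain ⟨y, hy⟩ := us_int (K := K) ⟨_, iA⟩ ⟨_, iB⟩ 1 n
    have e3 : ((1 : 𝓞 K) : K) = 1 := by
      rw [RingOfIntegers.coe_eq_algebraMap, map_one]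
    rw [e3, PowerSeries.coeff_rescale, one_pow, one_mul] at hy
    change (y : K) = (n.factorial : K) * PowerSeries.coeff n
      (us ((ν : K) ^ 4 * (3 / 2 * a)) ((ν : K) ^ 6 * (2 * b))) at hy
    rw [Base_scale _ _ hνK, PowerSeries.coeff_C_mul, PowerSeries.coeff_rescale] at hy
    have e4 : (n.factorial : K) * (ν : K) ^ n * PowerSeries.coeff n (us (3 / 2 * a) (2 * b)) =
        ((ν ^ 2 : ℕ) : K) * (y : K) := by
      rw [hy]; push_cast; field_simp
    rw [e4]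
    exact (nat_int _).mul (RingOfIntegers.isIntegral_coe y)
  · have e : σ (PowerSeries.coeff n (us (3 / 2 * a) (2 * b))) =
        PowerSeries.coeff n (us (3 / 2 * σ a) (2 * σ b)) := by
      rw [← PowerSeries.coeff_map, us_map, map_mul, map_mul, map_ofNat, map_div₀, map_ofNat,
        map_ofNat]
    rw [e]
    have hX : 1 ≤ Real.exp h := Real.one_le_exp (by linarith)
    have hX4 : 2 * Real.exp h ≤ Real.exp h ^ 4 := by
      have h5 : (2 : ℝ) ≤ Real.exp h ^ 3 := by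
        have h6 : (2 : ℝ) ≤ Real.exp 1 := by have := Real.exp_one_gt_d9; linarith
        have h7 : (2 : ℝ) ≤ Real.exp h := h6.trans (Real.exp_le_exp.2 hh)
        calc (2 : ℝ) ≤ Real.exp h := h7
          _ = Real.exp h ^ 1 := (pow_one _).symm
          _ ≤ Real.exp h ^ 3 := pow_le_pow_right₀ hX (by norm_num)
      calc 2 * Real.exp h ≤ Real.exp h ^ 3 * Real.exp h := by gcongr
        _ = _ := by ring
    have hA : ‖3 / 2 * σ a‖ ≤ Real.exp h ^ 4 := by
      rw [norm_mul]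
      have h6 : ‖(3 / 2 : ℂ)‖ = 3 / 2 := by norm_num
      rw [h6]
      have := h2.house σ
      nlinarith [Real.exp_pos h]
    have hB : ‖2 * σ b‖ ≤ Real.exp h ^ 4 := by
      rw [norm_mul, Complex.norm_ofNat]
      have := h3.house σ
      linarith
    match n with
    | 0 => rw [us_zero, norm_zero]; positivity
    | 1 => rw [us_one, norm_zero]; positivity
    | m + 2 => exact (us_bd hX hA hB m).trans (pow_le_pow_right₀ hX (by omega))
  · rw [us_map, map_mul, map_mul, map_ofNat, map_div₀, map_ofNat, map_ofNat]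
    rfl

/-- size of the period -/
theorem Base_size : ∃ C : ℝ, 1 ≤ C ∧ ∀ (K : IntermediateField ℚ ℂ) [FiniteDimensional ℚ K]
    (M T t : ℝ) (w τ : ℂ), 2 ≤ M → (Module.finrank ℚ K : ℝ) ≤ M → 0 < T → 1 ≤ M * T →
    Cur K M (M * T) t w τ →
      Real.exp (-(C * (M ^ 2 * T))) ≤ ‖w‖ ∧ ‖w‖ ≤ Real.exp (C * (M ^ 2 * T)) := by
  obtain ⟨C, hC, hvol⟩ := covol_bd
  refine ⟨11 * C + 4, by linarith, ?_⟩
  intro K _ M T t w τ hM hfin hT hMT h
  have hM2T : 2 * (M * T) ≤ M ^ 2 * T := by nlinarith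
  have hMM : M ≤ M ^ 2 * T := by nlinarith
  have hI : Ind w (w * τ) := by
    have := ind_smul (ind_one h.im_pos) h.w0
    rwa [mul_one] at this
  constructor
  · have hX : 1 ≤ Real.exp (M * T) := Real.one_le_exp (by linarith)
    have hX4 : 2 * Real.exp (M * T) ≤ Real.exp (M * T) ^ 4 := by
      have h5 : (2 : ℝ) ≤ Real.exp (M * T) ^ 3 := by
        have h6 : (2 : ℝ) ≤ Real.exp 1 := by have := Real.exp_one_gt_d9; linarith
        have h7 : (2 : ℝ) ≤ Real.exp (M * T) := h6.trans (Real.exp_le_exp.2 hMT)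
        calc (2 : ℝ) ≤ Real.exp (M * T) := h7
          _ = Real.exp (M * T) ^ 1 := (pow_one _).symm
          _ ≤ Real.exp (M * T) ^ 3 := pow_le_pow_right₀ hX (by norm_num)
      calc 2 * Real.exp (M * T) ≤ Real.exp (M * T) ^ 3 * Real.exp (M * T) := by gcongr
        _ = _ := by ring
    have hA : ‖3 / 2 * G2 w (w * τ)‖ ≤ Real.exp (M * T) ^ 4 := by
      rw [norm_mul]
      have h6 : ‖(3 / 2 : ℂ)‖ = 3 / 2 := by norm_num
      rw [h6]
      have h7 : ‖G2 w (w * τ)‖ ≤ Real.exp (M * T) := h.g2.house (algebraMap K ℂ)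
      nlinarith [Real.exp_pos (M * T)]
    have hB : ‖2 * G3 w (w * τ)‖ ≤ Real.exp (M * T) ^ 4 := by
      rw [norm_mul, Complex.norm_ofNat]
      have h7 : ‖G3 w (w * τ)‖ ≤ Real.exp (M * T) := h.g3.house (algebraMap K ℂ)
      linarith
    have h1 := lat_lower hI hX hA hB (x := (1, 0)) (by simp)
    have h2 : lat w (w * τ) (1, 0) = w := by simp [lat]
    rw [h2] at h1
    refine le_trans ?_ h1.le
    rw [le_div_iff₀ (by positivity)]
    have h4 : (4 : ℝ) ≤ Real.exp 2 := by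
      have h5 : (2.7 : ℝ) ≤ Real.exp 1 := by have := Real.exp_one_gt_d9; linarith
      have h6 : Real.exp 2 = Real.exp 1 * Real.exp 1 := by rw [← Real.exp_add]; norm_num
      rw [h6]; nlinarith
    calc Real.exp (-((11 * C + 4) * (M ^ 2 * T))) * (4 * Real.exp (M * T))
        ≤ Real.exp (-((11 * C + 4) * (M ^ 2 * T))) * (Real.exp 2 * Real.exp (M * T)) := by gcongr
      _ = Real.exp (-((11 * C + 4) * (M ^ 2 * T)) + (2 + M * T)) := by
        rw [← Real.exp_add, ← Real.exp_add]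
      _ ≤ 1 := by
        rw [Real.exp_le_one_iff]
        have : 0 ≤ 11 * C * (M ^ 2 * T) := by positivity
        nlinarith
  · obtain ⟨w', τ', hw', hred, hmem, e2, e3⟩ := Base_red h.w0 h.im_pos
    have b2 := h.g2
    have b3 := h.g3
    rw [← e2] at b2
    rw [← e3] at b3
    have bd := MulMain.bd_disc hMT b2 b3
    have hne := disc_ne_zero (MulMain.ind_w hw' hred)
    have l1 : Real.exp (-(2 * M * (10 * (M * T)))) ≤
        ‖G2 w' (w' * τ') ^ 3 - 27 * G3 w' (w' * τ') ^ 2‖ :=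
      bd.lower hfin (by positivity) hne (algebraMap K ℂ)
    obtain ⟨-, -, hup⟩ := hvol w' τ' (M * T) (2 * M * (10 * (M * T))) hw' hred (by positivity)
      (by positivity) (b2.house (algebraMap K ℂ)) (b3.house (algebraMap K ℂ)) l1
    have him : 1 / 2 ≤ τ'.im := by
      have h1 : 1 ≤ τ'.re ^ 2 + τ'.im ^ 2 := by
        have h2 : 1 ≤ ‖τ'‖ ^ 2 := by nlinarith [hred.one_le]
        rw [Complex.sq_norm, Complex.normSq_apply] at h2
        nlinarith
      have h3 : τ'.re ^ 2 ≤ 1 / 4 := by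
        have := hred.re_le
        nlinarith [abs_nonneg τ'.re, sq_abs τ'.re]
      nlinarith [hred.im_pos]
    have hw2 : ‖w'‖ ^ 2 ≤ 2 * Real.exp (C * (1 + M * T + 2 * M * (10 * (M * T)))) := by
      have : ‖w'‖ ^ 2 * (1 / 2) ≤ ‖w'‖ ^ 2 * τ'.im := by gcongr
      linarith
    have hle : C * (1 + M * T + 2 * M * (10 * (M * T))) ≤ 22 * C * (M ^ 2 * T) := by
      have : 1 + M * T + 2 * M * (10 * (M * T)) ≤ 22 * (M ^ 2 * T) := by nlinarith
      calc C * (1 + M * T + 2 * M * (10 * (M * T))) ≤ C * (22 * (M ^ 2 * T)) := by gcongr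
        _ = _ := by ring
    have h2e : (2 : ℝ) ≤ Real.exp (2 * (M ^ 2 * T)) := by
      have h6 : (2 : ℝ) ≤ Real.exp 1 := by have := Real.exp_one_gt_d9; linarith
      exact h6.trans (Real.exp_le_exp.2 (by nlinarith))
    have hw3 : ‖w'‖ ^ 2 ≤ Real.exp ((11 * C + 1) * (M ^ 2 * T)) ^ 2 := by
      calc ‖w'‖ ^ 2 ≤ 2 * Real.exp (C * (1 + M * T + 2 * M * (10 * (M * T)))) := hw2
        _ ≤ Real.exp (2 * (M ^ 2 * T)) * Real.exp (22 * C * (M ^ 2 * T)) := by gcongr
        _ = _ := by rw [← Real.exp_add, ← Real.exp_nat_mul]; congr 1; push_cast; ring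
    have hw4 : ‖w'‖ ≤ Real.exp ((11 * C + 1) * (M ^ 2 * T)) :=
      le_of_sq_le_sq hw3 (Real.exp_pos _).le
    have hMe : M ≤ Real.exp (M ^ 2 * T) := by
      have := Real.add_one_le_exp (M ^ 2 * T)
      linarith
    calc ‖w‖ ≤ M * ‖w'‖ := h.sh w' hmem hw'
      _ ≤ Real.exp (M ^ 2 * T) * Real.exp ((11 * C + 1) * (M ^ 2 * T)) := by gcongr
      _ = Real.exp ((11 * C + 2) * (M ^ 2 * T)) := by rw [← Real.exp_add]; ring_nf
      _ ≤ _ := Real.exp_le_exp.2 (by nlinarith)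

theorem base : ∃ C : ℕ, 1 ≤ C ∧ ∀ (K : IntermediateField ℚ ℂ) [FiniteDimensional ℚ K] (M T t : ℝ)
    (w τ : ℂ), 2 ≤ M → (Module.finrank ℚ K : ℝ) ≤ M → 0 < T → 1 ≤ M * T → 0 < t → 1 ≤ M * t →
    Cur K M (M * T) t w τ →
    ∃ (s e : ℂ → ℂ) (U : PowerSeries K) (ν : ℕ), 1 ≤ ν ∧ (ν : ℝ) ≤ Real.exp (C * (M * T)) ∧
      Ar ν (Real.exp (C * (M * T))) U ∧ Loc w (PowerSeries.map (algebraMap K ℂ) U) s e ∧
      Gro C (C * (M ^ 2 * T)) t s e ∧ Wei w τ s e ∧
      Real.exp (-(C * (M ^ 2 * T))) ≤ ‖w‖ ∧ ‖w‖ ≤ Real.exp (C * (M ^ 2 * T)) := by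
  obtain ⟨C₁, hC₁, hgro⟩ := growth
  obtain ⟨C₂, hC₂, hsize⟩ := Base_size
  obtain ⟨C, hC⟩ := exists_nat_ge (max (C₁ + 3) (2 * C₂))
  have hC1 : C₁ + 3 ≤ C := (le_max_left _ _).trans hC
  have hC2 : 2 * C₂ ≤ C := (le_max_right _ _).trans hC
  refine ⟨C, by exact_mod_cast (by linarith : (1 : ℝ) ≤ C), ?_⟩
  intro K _ M T t w τ hM hfin hT hMT ht hMt h
  have hI : Ind w (w * τ) := by
    have := ind_smul (ind_one h.im_pos) h.w0
    rwa [mul_one] at this
  obtain ⟨U, ν, hν, hνle, hAr, hmap⟩ := Base_series hMT hI h.g2 h.g3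
  obtain ⟨s, e, hE⟩ := hgro w τ t h.w0 ht h.im
  obtain ⟨hlow, hup⟩ := hsize K M T t w τ hM hfin hT hMT h
  have hMT0 : 0 < M * T := by linarith
  have hM2T0 : 0 < M ^ 2 * T := by positivity
  refine ⟨s, e, U, ν, hν, hνle.trans (Real.exp_le_exp.2 (by nlinarith)),
    ⟨hAr.z0, hAr.int, fun σ n => (hAr.bd σ n).trans ?_⟩,
    ⟨hE.ds, hE.de, hE.ps, hE.pe, hE.e0, ?_⟩, ?_, hE.off, ?_, ?_⟩
  · refine pow_le_pow_left₀ (Real.exp_pos _).le (Real.exp_le_exp.2 ?_) n
    nlinarith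
  · rw [hmap, ← iu_tay_comp hI w, ← tay_mul (hE.de.analyticAt 0) (iu_comp_an hI w)]
    refine tay_congr ?_
    have hT : Tendsto (fun z : ℂ => w * z) (𝓝[≠] 0) (𝓝[≠] 0) := by
      rw [tendsto_nhdsWithin_iff]
      constructor
      · have : Tendsto (fun z : ℂ => w * z) (𝓝 0) (𝓝 (w * 0)) :=
          (continuous_const.mul continuous_id).tendsto 0
        rw [mul_zero] at this
        exact this.mono_left nhdsWithin_le_nhds
      · filter_upwards [self_mem_nhdsWithin] with z hz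
        exact mul_ne_zero h.w0 hz
    have h1 : ∀ᶠ z in 𝓝[≠] (0 : ℂ), s z = e z * Mul.iu w (w * τ) (w * z) := by
      filter_upwards [hT.eventually (Basic.eventually_off hI 0),
        hT.eventually (Mul.MulIu_eventually_ne hI)] with z hz1 hz2
      rw [hE.off z hz1, Mul.iu]
      field_simp
    have h2 : s 0 = e 0 * Mul.iu w (w * τ) (w * 0) := by
      rw [mul_zero, Mul.iu_zero, mul_zero]
      refine hE.on 0 ?_
      rw [Basic.not_off_iff]
      exact ⟨0, by simp [lat]⟩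
    rw [eventually_nhdsWithin_iff] at h1
    filter_upwards [h1] with z hz
    by_cases h0 : z = 0
    · rw [h0]; exact h2
    · exact hz h0
  · intro R z hR hz
    have hpos : 0 ≤ R ^ 2 / t + R := by positivity
    have hle1 : C₁ * (R ^ 2 / t + R) ≤ C * (R ^ 2 / t + R) := by gcongr; linarith
    constructor
    · refine (hE.bs R hR z hz).trans ?_
      have hw2 : ‖w‖ ^ 2 ≤ Real.exp (2 * C₂ * (M ^ 2 * T)) := by
        calc ‖w‖ ^ 2 ≤ Real.exp (C₂ * (M ^ 2 * T)) ^ 2 := by gcongr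
          _ = _ := by rw [← Real.exp_nat_mul]; congr 1; push_cast; ring
      calc ‖w‖ ^ 2 * Real.exp (C₁ * (R ^ 2 / t + R))
          ≤ Real.exp (2 * C₂ * (M ^ 2 * T)) * Real.exp (C * (R ^ 2 / t + R)) := by gcongr
        _ = Real.exp (C * (R ^ 2 / t + R) + 2 * C₂ * (M ^ 2 * T)) := by
          rw [← Real.exp_add, add_comm]
        _ ≤ _ := Real.exp_le_exp.2 (by gcongr)
    · refine (hE.be R hR z hz).trans (Real.exp_le_exp.2 ?_)
      have : 0 ≤ (C : ℝ) * (M ^ 2 * T) := by positivity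
      linarith
  · refine le_trans (Real.exp_le_exp.2 ?_) hlow
    nlinarith
  · refine hup.trans (Real.exp_le_exp.2 ?_)
    nlinarith

theorem siegel (K : IntermediateField ℚ ℂ) [FiniteDimensional ℚ K] : SiegelSt K := by
  have : NumberField K := { }
  intro m n hn hmn B hB A hi hb
  obtain ⟨y, hy, hy0, hyb⟩ := Bs.siegel (K := K) hn hmn (fun i j => ⟨A i j, hi i j⟩) hB
    (fun i j σ => hb i j σ)
  refine ⟨y, hy, fun i => ?_, hyb⟩
  have h := congrArg (fun z : 𝓞 K => (z : K)) (hy0 i)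
  simpa using h

end Pool.Agent.LGO.E3
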