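import Pool.Agent.LGO.E3.Defs
import Pool.Agent.LGO.B.Index

/-!
# LGO, engine 3, module Idx: `Fn = 0` implies that the index is less than `L'`

Proof.  `B.index3` (file `LGO/B/Index.lean`, proved) with `L₁ = L₂ = L`, `L₃ = L'`,
`c i j k = p i j k`, `hl` because `w₃ ≠ 0`.  Its hypothesis `hvan`: let `z₁, z₂, ζ = l₁ z₁ + l₂ z₂` be off
the lattices with `℘_i ≠ 0` there (`℘_i = wp w_i (w_i τ_i)`).  Choose `α ∈ {1, 2}` with
`l₁ + α l₂ ≠ 0`, and for `ε : ℂ` put `z₁' = z₁ + ε`, `z₂' = z₂ + α ε`, `ζ' = ζ + (l₁ + α l₂) ε`.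
`s_i` is not identically `0` (otherwise `e_i = 0` off the lattice by `Wei`, but `e_i 0 = 1` and `e_i` is
continuous, and the points off the lattice are dense: e.g. `t ↦ e_i(t)` at small `t ≠ 0`), so its zeros
are isolated: for all small `ε ≠ 0`: `s₁(z₁'/w₁) ≠ 0`, `s₂(z₂'/w₂) ≠ 0`, `s₃(ζ'/w₃) ≠ 0`, the three
points are off the lattices (`isOpen` of `{Off}`, see `EllSch`) and `℘_i ≠ 0` (continuity).  Apply
`h0` at `(z, v) = (z₁'/w₁, z₂'/w₂ - z₁'/w₁)`: `z + v = z₂'/w₂` and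
`w₃ (z + κ v) = w₃ z + l₂ w₂ v = l₁ w₁ z + l₂ w₂ (z + v) = ζ'` (`κ = l₂ w₂ / w₃`).  With
`e_i = s_i ℘_i ≠ 0` at these points divide by `e₁^(L-1) e₂^(L-1) e₃^(L'-1)`, `s_i / e_i = 1 / ℘_i`:
the sum in `hvan` vanishes at `z₁', z₂'`.  It is a continuous function of `ε` at `0` (the `℘_i` are
continuous off the lattice and `≠ 0`), so it vanishes at `ε = 0`.
(Replace `∑ a ∈ range L` by `∑ i : Fin L`: `Finset.sum_range`.)
-/

namespace Pool.Agent.LGO.E3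

open Pool.Agent.EllSch

open Filter Topology

theorem Idx_alg {s q : ℂ} (hq : q ≠ 0) {L a : ℕ} (ha : a < L) :
    s ^ a * (s * q) ^ (L - 1 - a) = (s * q) ^ (L - 1) * (1 / q) ^ a := by
  obtain ⟨d, hd⟩ : ∃ d, L - 1 = a + d := ⟨L - 1 - a, by omega⟩
  have hqa : q ^ a ≠ 0 := pow_ne_zero _ hq
  rw [hd, Nat.add_sub_cancel_left, pow_add, mul_pow s q a, one_div, inv_pow]
  field_simp

theorem Idx_nz {w τ : ℂ} (hw : w ≠ 0) (hτ : 0 < τ.im) {s e : ℂ → ℂ} (ds : Differentiable ℂ s)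
    (de : Differentiable ℂ e) (e0 : e 0 = 1) (W : Wei w τ s e) (x : ℂ) :
    ∀ᶠ u in 𝓝[≠] x, s u ≠ 0 := by
  have an : AnalyticOnNhd ℂ s Set.univ := fun y _ => ds.analyticAt y
  rcases (an x (Set.mem_univ x)).eventually_eq_zero_or_eventually_ne_zero with h | h
  · exfalso
    have hs : ∀ y, s y = 0 := by
      have := an.eqOn_zero_of_preconnected_of_eventuallyEq_zero isPreconnected_univ
        (Set.mem_univ x) h
      exact fun y => this (Set.mem_univ y)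
    have i1 := B.ind_of hw hτ
    have h1 : ∀ᶠ u in 𝓝[≠] (0 : ℂ), Off w (w * τ) (w * u) := by
      have h2 := Basic.eventually_off i1 0
      have h3 : Tendsto (fun u : ℂ => w * u) (𝓝[≠] 0) (𝓝[≠] 0) := by
        refine tendsto_nhdsWithin_iff.2 ⟨?_, ?_⟩
        · have : Tendsto (fun u : ℂ => w * u) (𝓝 0) (𝓝 (w * 0)) :=
            (continuous_const.mul continuous_id).tendsto 0
          rw [mul_zero] at this
          exact this.mono_left nhdsWithin_le_nhds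
        · filter_upwards [self_mem_nhdsWithin] with u hu
          exact mul_ne_zero hw hu
      exact h3.eventually h2
    have h2 : ∀ᶠ u in 𝓝[≠] (0 : ℂ), e u = 0 := by
      filter_upwards [h1] with u hu
      rw [W u hu, hs u, zero_mul]
    have h3 : Tendsto e (𝓝[≠] 0) (𝓝 (e 0)) :=
      (de.continuous.tendsto 0).mono_left nhdsWithin_le_nhds
    have h4 : Tendsto e (𝓝[≠] 0) (𝓝 0) := tendsto_const_nhds.congr' (by
      filter_upwards [h2] with u hu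
      exact hu.symm)
    have h5 := tendsto_nhds_unique h3 h4
    rw [e0] at h5
    exact one_ne_zero h5
  · exact h

theorem Idx_ev {w τ : ℂ} (hw : w ≠ 0) (hτ : 0 < τ.im) {s e : ℂ → ℂ} (ds : Differentiable ℂ s)
    (de : Differentiable ℂ e) (e0 : e 0 = 1) (W : Wei w τ s e) {z m : ℂ} (hm : m ≠ 0)
    (hz : Off w (w * τ) z) (hp : wp w (w * τ) z ≠ 0) :
    ∀ᶠ ε in 𝓝[≠] (0 : ℂ), Off w (w * τ) (z + m * ε) ∧ wp w (w * τ) (z + m * ε) ≠ 0 ∧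
      s ((z + m * ε) / w) ≠ 0 := by
  have i1 := B.ind_of hw hτ
  have t0 : Tendsto (fun ε : ℂ => z + m * ε) (𝓝[≠] 0) (𝓝[≠] z) := by
    refine tendsto_nhdsWithin_iff.2 ⟨?_, ?_⟩
    · have : Tendsto (fun ε : ℂ => z + m * ε) (𝓝 0) (𝓝 (z + m * 0)) :=
        (continuous_const.add (continuous_const.mul continuous_id)).tendsto 0
      rw [mul_zero, add_zero] at this
      exact this.mono_left nhdsWithin_le_nhds
    · filter_upwards [self_mem_nhdsWithin] with u hu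
      intro h
      have : m * u = 0 := by
        have h' : z + m * u = z := h
        linear_combination h'
      exact mul_ne_zero hm hu this
  have t1 : Tendsto (fun ε : ℂ => (z + m * ε) / w) (𝓝[≠] 0) (𝓝[≠] (z / w)) := by
    refine tendsto_nhdsWithin_iff.2 ⟨?_, ?_⟩
    · exact ((t0.mono_right nhdsWithin_le_nhds).div_const w)
    · filter_upwards [self_mem_nhdsWithin] with u hu
      intro h
      have h' : (z + m * u) / w = z / w := h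
      rw [div_left_inj' hw] at h'
      have : m * u = 0 := by linear_combination h'
      exact mul_ne_zero hm hu this
  have c1 : ContinuousAt (wp w (w * τ)) z := (Basic.differentiableAt_wp i1 hz).continuousAt
  have a1 := t0.eventually (Basic.eventually_off i1 z)
  have a2 : ∀ᶠ ε in 𝓝[≠] (0 : ℂ), wp w (w * τ) (z + m * ε) ≠ 0 :=
    (t0.mono_right nhdsWithin_le_nhds).eventually (c1.eventually_ne hp)
  have a3 := t1.eventually (Idx_nz hw hτ ds de e0 W (z / w))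
  filter_upwards [a1, a2, a3] with ε h1 h2 h3
  exact ⟨h1, h2, h3⟩

theorem Idx_cont {w τ : ℂ} (hw : w ≠ 0) (hτ : 0 < τ.im) {z m : ℂ}
    (hz : Off w (w * τ) z) (hp : wp w (w * τ) z ≠ 0) :
    ContinuousAt (fun ε : ℂ => 1 / wp w (w * τ) (z + m * ε)) 0 := by
  have i1 := B.ind_of hw hτ
  have e0 : z + m * 0 = z := by rw [mul_zero, add_zero]
  have c1 : ContinuousAt (wp w (w * τ)) (z + m * 0) := by
    rw [e0]
    exact (Basic.differentiableAt_wp i1 hz).continuousAt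
  have c2 : ContinuousAt (fun ε : ℂ => wp w (w * τ) (z + m * ε)) 0 :=
    ContinuousAt.comp (f := fun ε : ℂ => z + m * ε) c1
      (continuous_const.add (continuous_const.mul continuous_id)).continuousAt
  refine continuousAt_const.div c2 ?_
  rw [e0]
  exact hp

theorem Idx_eq {s₁ s₂ s₃ q₁ q₂ q₃ : ℂ} (h₁ : q₁ ≠ 0) (h₂ : q₂ ≠ 0) (h₃ : q₃ ≠ 0)
    (L L' : ℕ) (p : ℕ → ℕ → ℕ → ℤ) :
    ∑ a ∈ Finset.range L, ∑ b ∈ Finset.range L, ∑ c ∈ Finset.range L',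
      (p a b c : ℂ) * (s₁ ^ a * (s₁ * q₁) ^ (L - 1 - a)) * (s₂ ^ b * (s₂ * q₂) ^ (L - 1 - b)) *
        (s₃ ^ c * (s₃ * q₃) ^ (L' - 1 - c)) =
      ((s₁ * q₁) ^ (L - 1) * (s₂ * q₂) ^ (L - 1) * (s₃ * q₃) ^ (L' - 1)) *
        ∑ i : Fin L, ∑ j : Fin L, ∑ k : Fin L', (p i j k : ℂ) * (1 / q₁) ^ (i : ℕ) *
          (1 / q₂) ^ (j : ℕ) * (1 / q₃) ^ (k : ℕ) := by
  have e1 : ∑ i : Fin L, ∑ j : Fin L, ∑ k : Fin L', (p i j k : ℂ) * (1 / q₁) ^ (i : ℕ) *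
          (1 / q₂) ^ (j : ℕ) * (1 / q₃) ^ (k : ℕ) =
      ∑ a ∈ Finset.range L, ∑ b ∈ Finset.range L, ∑ c ∈ Finset.range L',
        (p a b c : ℂ) * (1 / q₁) ^ a * (1 / q₂) ^ b * (1 / q₃) ^ c := by
    rw [Finset.sum_range]
    refine Finset.sum_congr rfl fun i _ => ?_
    rw [Finset.sum_range]
    refine Finset.sum_congr rfl fun j _ => ?_
    rw [Finset.sum_range]
  rw [e1, Finset.mul_sum]
  refine Finset.sum_congr rfl fun a ha => ?_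
  rw [Finset.mul_sum]
  refine Finset.sum_congr rfl fun b hb => ?_
  rw [Finset.mul_sum]
  refine Finset.sum_congr rfl fun c hc => ?_
  rw [Idx_alg h₁ (Finset.mem_range.1 ha), Idx_alg h₂ (Finset.mem_range.1 hb),
    Idx_alg h₃ (Finset.mem_range.1 hc)]
  ring

theorem idx {w₁ τ₁ w₂ τ₂ w₃ τ₃ l₁ l₂ : ℂ} (hw₁ : w₁ ≠ 0) (hw₂ : w₂ ≠ 0) (hw₃ : w₃ ≠ 0)
    (hτ₁ : 0 < τ₁.im) (hτ₂ : 0 < τ₂.im) (hτ₃ : 0 < τ₃.im) {s₁ e₁ s₂ e₂ s₃ e₃ : ℂ → ℂ}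
    (ds₁ : Differentiable ℂ s₁) (de₁ : Differentiable ℂ e₁) (e₁0 : e₁ 0 = 1)
    (ds₂ : Differentiable ℂ s₂) (de₂ : Differentiable ℂ e₂) (e₂0 : e₂ 0 = 1)
    (ds₃ : Differentiable ℂ s₃) (de₃ : Differentiable ℂ e₃) (e₃0 : e₃ 0 = 1)
    (W₁ : Wei w₁ τ₁ s₁ e₁) (W₂ : Wei w₂ τ₂ s₂ e₂) (W₃ : Wei w₃ τ₃ s₃ e₃)
    (hl : l₁ * w₁ + l₂ * w₂ = w₃) (L L' : ℕ) (p : ℕ → ℕ → ℕ → ℤ)
    (hp : ∃ a < L, ∃ b < L, ∃ c < L', p a b c ≠ 0)
    (h0 : ∀ x, Fn s₁ e₁ s₂ e₂ s₃ e₃ (l₂ * w₂ / w₃) L L' p x = 0) :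
    ∃ n : ℕ, 0 < n ∧ n < L' ∧ Mp (n * l₁) (Lt w₁ τ₁) (Lt w₃ τ₃) ∧
      Mp (n * l₂) (Lt w₂ τ₂) (Lt w₃ τ₃) := by
  have hl' : l₁ ≠ 0 ∨ l₂ ≠ 0 := by
    by_contra h
    push Not at h
    rw [h.1, h.2, zero_mul, zero_mul, add_zero] at hl
    exact hw₃ hl.symm
  obtain ⟨α, hα, hα'⟩ : ∃ α : ℂ, α ≠ 0 ∧ l₁ + l₂ * α ≠ 0 := by
    by_cases h : l₁ + l₂ * 1 = 0
    · refine ⟨2, two_ne_zero, ?_⟩
      intro h2
      have e2 : l₂ = 0 := by linear_combination h2 - h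
      have e1 : l₁ = 0 := by linear_combination 2 * h - h2
      rcases hl' with h3 | h3
      · exact h3 e1
      · exact h3 e2
    · exact ⟨1, one_ne_zero, h⟩
  obtain ⟨a0, ha0, b0, hb0, c0, hc0, hp0⟩ := hp
  refine B.index3 hw₁ hτ₁ hw₂ hτ₂ hw₃ hτ₃ hl' (L₁ := L) (L₂ := L) (L₃ := L')
    (fun i j k => (p i j k : ℂ)) ⟨⟨a0, ha0⟩, ⟨b0, hb0⟩, ⟨c0, hc0⟩, by
      simpa using hp0⟩ ?_
  intro z₁ z₂ o1 o2 o3 n1 n2 n3
  have v1 := Idx_ev hw₁ hτ₁ ds₁ de₁ e₁0 W₁ (one_ne_zero (α := ℂ)) o1 n1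
  have v2 := Idx_ev hw₂ hτ₂ ds₂ de₂ e₂0 W₂ hα o2 n2
  have v3 := Idx_ev hw₃ hτ₃ ds₃ de₃ e₃0 W₃ hα' o3 n3
  set S : ℂ → ℂ := fun ε => ∑ i : Fin L, ∑ j : Fin L, ∑ k : Fin L', (p i j k : ℂ) *
    (1 / wp w₁ (w₁ * τ₁) (z₁ + 1 * ε)) ^ (i : ℕ) *
    (1 / wp w₂ (w₂ * τ₂) (z₂ + α * ε)) ^ (j : ℕ) *
    (1 / wp w₃ (w₃ * τ₃) (l₁ * z₁ + l₂ * z₂ + (l₁ + l₂ * α) * ε)) ^ (k : ℕ) with hS
  have hc : ContinuousAt S 0 := by
    have c1 := Idx_cont (m := 1) hw₁ hτ₁ o1 n1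
    have c2 := Idx_cont (m := α) hw₂ hτ₂ o2 n2
    have c3 := Idx_cont (m := l₁ + l₂ * α) hw₃ hτ₃ o3 n3
    refine tendsto_finsetSum _ fun i _ => tendsto_finsetSum _ fun j _ =>
      tendsto_finsetSum _ fun k _ => ?_
    exact ((tendsto_const_nhds.mul (c1.pow _)).mul (c2.pow _)).mul (c3.pow _)
  have hz : ∀ᶠ ε in 𝓝[≠] (0 : ℂ), S ε = 0 := by
    filter_upwards [v1, v2, v3] with ε g1 g2 g3
    have f1 : w₁ * ((z₁ + 1 * ε) / w₁) = z₁ + 1 * ε := mul_div_cancel₀ _ hw₁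
    have f2 : w₂ * ((z₂ + α * ε) / w₂) = z₂ + α * ε := mul_div_cancel₀ _ hw₂
    have f3 : w₃ * ((l₁ * z₁ + l₂ * z₂ + (l₁ + l₂ * α) * ε) / w₃) =
      l₁ * z₁ + l₂ * z₂ + (l₁ + l₂ * α) * ε := mul_div_cancel₀ _ hw₃
    have k1 := W₁ ((z₁ + 1 * ε) / w₁) (by rw [f1]; exact g1.1)
    have k2 := W₂ ((z₂ + α * ε) / w₂) (by rw [f2]; exact g2.1)
    have k3 := W₃ ((l₁ * z₁ + l₂ * z₂ + (l₁ + l₂ * α) * ε) / w₃) (by rw [f3]; exact g3.1)
    rw [f1] at k1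
    rw [f2] at k2
    rw [f3] at k3
    have h1 := h0 ((z₁ + 1 * ε) / w₁, (z₂ + α * ε) / w₂ - (z₁ + 1 * ε) / w₁)
    unfold Fn at h1
    have q2 : (z₁ + 1 * ε) / w₁ + ((z₂ + α * ε) / w₂ - (z₁ + 1 * ε) / w₁) =
      (z₂ + α * ε) / w₂ := by ring
    have q3 : (z₁ + 1 * ε) / w₁ + l₂ * w₂ / w₃ * ((z₂ + α * ε) / w₂ - (z₁ + 1 * ε) / w₁) =
        (l₁ * z₁ + l₂ * z₂ + (l₁ + l₂ * α) * ε) / w₃ := by
      field_simp
      rw [← hl]
      ring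
    simp only [] at h1
    rw [q2, q3, k1, k2, k3, Idx_eq g1.2.1 g2.2.1 g3.2.1] at h1
    rcases mul_eq_zero.1 h1 with h2 | h2
    · exfalso
      rcases mul_eq_zero.1 h2 with h3 | h3
      · rcases mul_eq_zero.1 h3 with h4 | h4
        · exact pow_ne_zero _ (mul_ne_zero g1.2.2 g1.2.1) h4
        · exact pow_ne_zero _ (mul_ne_zero g2.2.2 g2.2.1) h4
      · exact pow_ne_zero _ (mul_ne_zero g3.2.2 g3.2.1) h3
    · exact h2
  have hS0 : S 0 = 0 := by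
    have h3 : Tendsto S (𝓝[≠] 0) (𝓝 (S 0)) := hc.tendsto.mono_left nhdsWithin_le_nhds
    have h4 : Tendsto S (𝓝[≠] 0) (𝓝 0) := tendsto_const_nhds.congr' (by
      filter_upwards [hz] with u hu
      exact hu.symm)
    exact tendsto_nhds_unique h3 h4
  rw [hS] at hS0
  simp only [mul_zero, add_zero] at hS0
  exact hS0

end Pool.Agent.LGO.E3
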