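import Mathlib

/-!
# LGO, engine 3, module Num: the final inequality

Proof.  Put `y = O / t` (real), `n = C₂ + 1`.  `y ≥ 4 m a³ ≥ a³ ≥ 1`.  `log O = log y + log t
≤ log y + log (T + 1) ≤ log y + T`, so, with `1 / T ≤ M`, `M ≥ 2`:
`log O + M² T ≤ T (M log y + 1 + M²) ≤ T M² (log y + 2)`.  Hence (as `κ M² (log y + 2) ≥ 1`)
the left side is `≤ κ T (M² (log y + 2) + (κ M² (log y + 2))^C₂) ≤ 2 κ T (κ M² (log y + 2))^n`.
The right side is `y t / (4 κ M m a²) ≥ T y / (8 κ M² a²) ≥ T y^(1/3) / (8 κ M²)`, because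
`a² ≤ y^(2/3)`.  So it is enough that `16 κ² M² (κ M² (log y + 2))^n < y^(1/3)`.  From
`1 + u ≤ exp u` with `u = log y / (6 n)`: `log y + 2 ≤ 6 n y^(1/(6n)) + 2 ≤ 8 n y^(1/(6n))`, so the
left side of the last inequality is `≤ 16 κ² M² (8 n κ M²)^n y^(1/6)`, and
`16 κ² M² (8 n κ M²)^n < a^(1/2) ≤ y^(1/6)` as soon as `a > (16 κ² (8 n κ)^n)² M^(4 + 4 n)`: with
`a = m^k ≥ M^k`, `M ≥ 2`, this holds for `k = k₀ + 4 + 4 n`, `2^k₀ > κ + (16 κ² (8 n κ)^n)²`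
(this also gives `κ ≤ a`).
-/

namespace Pool.Agent.LGO.E3

/-- the core inequality: `16 κ² M² (κ M² (L + 2))^n a² < exp L` -/
theorem Num_core (n : ℕ) (hn : 1 ≤ n) {κ M L a : ℝ} (hκ : 1 ≤ κ) (hM : 2 ≤ M) (hL : 0 ≤ L)
    (ha : 1 ≤ a) (haL : a ^ 3 ≤ Real.exp L)
    (hB : (16 * κ ^ 2 * M ^ 2 * (8 * n * κ * M ^ 2) ^ n) ^ 2 < a) :
    16 * κ ^ 2 * M ^ 2 * (κ * (M ^ 2 * (L + 2))) ^ n * a ^ 2 < Real.exp L := by
  have hn0 : (0 : ℝ) < n := by exact_mod_cast hn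
  have hn1 : (1 : ℝ) ≤ n := by exact_mod_cast hn
  set z : ℝ := Real.exp (L / (6 * n)) with hz
  have hz1 : 1 ≤ z := Real.one_le_exp (by positivity)
  have hz0 : 0 < z := by linarith
  have hw6 : (z ^ n) ^ 6 = Real.exp L := by
    rw [← pow_mul, hz, ← Real.exp_nat_mul]
    congr 1
    push_cast
    field_simp
  have hw1 : 1 ≤ z ^ n := one_le_pow₀ hz1
  have hL2 : L + 2 ≤ 8 * n * z := by
    have h1 := Real.add_one_le_exp (L / (6 * n))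
    have h2 : L = 6 * n * (L / (6 * n)) := by field_simp
    have h3 : 6 * (n : ℝ) * (L / (6 * n)) ≤ 6 * n * (z - 1) := by
      refine mul_le_mul_of_nonneg_left ?_ (by positivity)
      linarith
    nlinarith
  set B : ℝ := 16 * κ ^ 2 * M ^ 2 * (8 * n * κ * M ^ 2) ^ n with hBdef
  have hB0 : 0 < B := by positivity
  have h4 : 16 * κ ^ 2 * M ^ 2 * (κ * (M ^ 2 * (L + 2))) ^ n * a ^ 2 ≤ B * z ^ n * a ^ 2 := by
    have h5 : (κ * (M ^ 2 * (L + 2))) ^ n ≤ (8 * n * κ * M ^ 2) ^ n * z ^ n := by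
      rw [← mul_pow]
      refine pow_le_pow_left₀ (by positivity) ?_ n
      calc κ * (M ^ 2 * (L + 2)) ≤ κ * (M ^ 2 * (8 * n * z)) := by gcongr
        _ = 8 * n * κ * M ^ 2 * z := by ring
    calc 16 * κ ^ 2 * M ^ 2 * (κ * (M ^ 2 * (L + 2))) ^ n * a ^ 2
        ≤ 16 * κ ^ 2 * M ^ 2 * ((8 * n * κ * M ^ 2) ^ n * z ^ n) * a ^ 2 := by gcongr
      _ = B * z ^ n * a ^ 2 := by rw [hBdef]; ring
  have h6 : a ≤ (z ^ n) ^ 2 := by
    have h7 : a ^ 3 ≤ ((z ^ n) ^ 2) ^ 3 := by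
      rw [← pow_mul]
      exact haL.trans_eq hw6.symm
    exact le_of_pow_le_pow_left₀ (by norm_num) (by positivity) h7
  have h8 : B < z ^ n := by
    have h9 : B ^ 2 < (z ^ n) ^ 2 := hB.trans_le h6
    exact lt_of_pow_lt_pow_left₀ 2 (by positivity) h9
  calc 16 * κ ^ 2 * M ^ 2 * (κ * (M ^ 2 * (L + 2))) ^ n * a ^ 2 ≤ B * z ^ n * a ^ 2 := h4
    _ < z ^ n * z ^ n * a ^ 2 := by
        have : 0 < z ^ n * a ^ 2 := by positivity
        nlinarith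
    _ ≤ z ^ n * z ^ n * ((z ^ n) ^ 2) ^ 2 := by gcongr
    _ = (z ^ n) ^ 6 := by ring
    _ = Real.exp L := hw6

theorem num (C₂ : ℕ) (κ : ℝ) (hκ : 1 ≤ κ) : ∃ k : ℕ, 1 ≤ k ∧ ∀ (M T : ℝ) (m a t O : ℕ), 2 ≤ M →
    0 < T → 1 ≤ M * T → M ≤ m → (m : ℝ) ≤ 2 * M → a = m ^ k → 1 ≤ t → T ≤ t → (t : ℝ) ≤ T + 1 →
    4 * m * a ^ 3 * t ≤ O →
    κ ≤ a ∧ κ * (Real.log O + M ^ 2 * T +
      T * (κ * ((Real.log O + M ^ 2 * T) / T)) ^ C₂) < O / (κ * M * (4 * m * a ^ 2)) := by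
  set n : ℕ := C₂ + 1 with hn
  obtain ⟨k₀, hk₀⟩ := pow_unbounded_of_one_lt (κ + (16 * κ ^ 2 * (8 * n * κ) ^ n) ^ 2)
    (by norm_num : (1 : ℝ) < 2)
  refine ⟨k₀ + (4 + 4 * n), by omega, ?_⟩
  intro M T m a t O hM hT hMT hMm hm2 ha ht hTt htT hO
  have hM0 : 0 < M := by linarith
  have hm0 : (0 : ℝ) < m := by linarith
  have ht0 : (0 : ℝ) < t := by linarith
  have hcast : (a : ℝ) = (m : ℝ) ^ (k₀ + (4 + 4 * n)) := by rw [ha]; push_cast; ring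
  have haM : M ^ (k₀ + (4 + 4 * n)) ≤ (a : ℝ) := by
    rw [hcast]
    exact pow_le_pow_left₀ hM0.le hMm _
  have h2k : (2 : ℝ) ^ k₀ * M ^ (4 + 4 * n) ≤ (a : ℝ) := by
    refine le_trans ?_ haM
    rw [pow_add M k₀ (4 + 4 * n)]
    exact mul_le_mul_of_nonneg_right (pow_le_pow_left₀ (by norm_num) hM _) (by positivity)
  have hM4 : (1 : ℝ) ≤ M ^ (4 + 4 * n) := one_le_pow₀ (by linarith)
  have h2k0 : (0 : ℝ) < 2 ^ k₀ := by positivity
  have hκa : κ ≤ a := by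
    have h1 : (0 : ℝ) ≤ (16 * κ ^ 2 * (8 * n * κ) ^ n) ^ 2 := by positivity
    nlinarith
  have ha1 : (1 : ℝ) ≤ a := hκ.trans hκa
  have hB : (16 * κ ^ 2 * M ^ 2 * (8 * n * κ * M ^ 2) ^ n) ^ 2 < (a : ℝ) := by
    have e1 : (16 * κ ^ 2 * M ^ 2 * (8 * n * κ * M ^ 2) ^ n) ^ 2 =
        (16 * κ ^ 2 * (8 * n * κ) ^ n) ^ 2 * M ^ (4 + 4 * n) := by
      rw [mul_pow (8 * n * κ) (M ^ 2) n, ← pow_mul M 2 n, pow_add M 4 (4 * n)]
      have : M ^ (4 * n) = (M ^ (2 * n)) ^ 2 := by rw [← pow_mul]; congr 1; ring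
      rw [this]
      ring
    rw [e1]
    refine lt_of_lt_of_le ?_ h2k
    refine mul_lt_mul_of_pos_right ?_ (by positivity)
    linarith
  refine ⟨hκa, ?_⟩
  have hOr : 4 * (m : ℝ) * (a : ℝ) ^ 3 * t ≤ O := by exact_mod_cast hO
  set y : ℝ := (O : ℝ) / t with hy
  have hyt : (O : ℝ) = y * t := by rw [hy]; field_simp
  have hm1 : (1 : ℝ) ≤ m := by linarith
  have ha3 : (1 : ℝ) ≤ (a : ℝ) ^ 3 := one_le_pow₀ ha1
  have hya : (a : ℝ) ^ 3 ≤ y := by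
    rw [hy, le_div_iff₀ ht0]
    refine le_trans ?_ hOr
    refine mul_le_mul_of_nonneg_right ?_ ht0.le
    nlinarith
  have hy1 : 1 ≤ y := ha3.trans hya
  have hy0 : 0 < y := by linarith
  set L : ℝ := Real.log y with hL
  have hL0 : 0 ≤ L := Real.log_nonneg hy1
  have hexp : Real.exp L = y := Real.exp_log hy0
  have hlogO : Real.log O ≤ L + T := by
    rw [hyt, Real.log_mul hy0.ne' ht0.ne']
    have h1 : Real.log t ≤ t - 1 := Real.log_le_sub_one_of_pos ht0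
    linarith
  have hlogO0 : 0 ≤ Real.log O := by
    apply Real.log_nonneg
    rw [hyt]
    have : (1 : ℝ) ≤ t := by exact_mod_cast ht
    nlinarith
  set W : ℝ := Real.log O + M ^ 2 * T with hW
  have hW0 : 0 ≤ W := by positivity
  set V : ℝ := M ^ 2 * (L + 2) with hV
  have hWV : W ≤ T * V := by
    have h1 : L ≤ M * T * L := by nlinarith
    have h2 : M * T * L ≤ M ^ 2 * T * L := by
      have : 0 ≤ T * L := by positivity
      nlinarith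
    have h3 : T ≤ M ^ 2 * T := by nlinarith
    rw [hW, hV]
    nlinarith
  have hWT : W / T ≤ V := by
    rw [div_le_iff₀ hT]
    linarith
  have hV1 : 1 ≤ κ * V := by
    have : (8 : ℝ) ≤ V := by rw [hV]; nlinarith
    nlinarith
  have hV0 : 0 ≤ V := by positivity
  have hcore := Num_core n (by omega) hκ hM hL0 ha1 (by rw [hexp]; exact hya) hB
  rw [hexp] at hcore
  have hleft : κ * (W + T * (κ * (W / T)) ^ C₂) ≤ 2 * κ * T * (κ * V) ^ n := by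
    have h1 : W ≤ T * (κ * V) ^ n := by
      refine hWV.trans (mul_le_mul_of_nonneg_left ?_ hT.le)
      have h2 : κ * V ≤ (κ * V) ^ n := le_self_pow₀ hV1 (by omega)
      nlinarith
    have h3 : (κ * (W / T)) ^ C₂ ≤ (κ * V) ^ n := by
      have h4 : (κ * (W / T)) ^ C₂ ≤ (κ * V) ^ C₂ := by
        refine pow_le_pow_left₀ (by positivity) ?_ _
        exact mul_le_mul_of_nonneg_left hWT (by linarith)
      exact h4.trans (pow_le_pow_right₀ hV1 (by omega))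
    have h5 : T * (κ * (W / T)) ^ C₂ ≤ T * (κ * V) ^ n := mul_le_mul_of_nonneg_left h3 hT.le
    calc κ * (W + T * (κ * (W / T)) ^ C₂) ≤ κ * (T * (κ * V) ^ n + T * (κ * V) ^ n) :=
          mul_le_mul_of_nonneg_left (add_le_add h1 h5) (by linarith)
      _ = 2 * κ * T * (κ * V) ^ n := by ring
  refine hleft.trans_lt ?_
  have hden : 0 < κ * M * (4 * m * (a : ℝ) ^ 2) := by positivity
  rw [lt_div_iff₀ hden]
  calc 2 * κ * T * (κ * V) ^ n * (κ * M * (4 * m * (a : ℝ) ^ 2))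
      ≤ 2 * κ * T * (κ * V) ^ n * (κ * M * (4 * (2 * M) * (a : ℝ) ^ 2)) := by gcongr
    _ = T * (16 * κ ^ 2 * M ^ 2 * (κ * V) ^ n * (a : ℝ) ^ 2) := by ring
    _ < T * y := mul_lt_mul_of_pos_left hcore hT
    _ ≤ t * y := mul_le_mul_of_nonneg_right hTt hy0.le
    _ = O := by rw [hyt]; ring

end Pool.Agent.LGO.E3
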