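import Mathlib

/-!
# LGO, engine 3, module NumB: three estimates

Notation: `L = 4 m a² t`, `L' = 4 m a²`, `N = 4 m a³ t = a L`, so `L² L' = 64 m³ a⁶ t² = 4 m N²`,
`P = 5 L² L' (N! ν^(2N) (4 A²)^N)`; `m, a ≥ 2`, so `N ≥ 64`, `4 m ≤ N`; `1 ≤ ν ≤ exp V`,
`1 ≤ A ≤ exp V`, `N ≤ O`.

`num_P`: `L² L' ≤ N³`, so `L² L' P ≤ 5 N⁶ N^N exp(V)^(2N) (4 exp(2V))^N`, and `5 N⁶ ≤ N^N` (`N ≥ 64`;
e.g. `5 N⁶ ≤ N⁷ ≤ N^N`), so `L² L' P ≤ N^(2N) exp((4 V + log 4) N) ≤ exp(O (2 log O + 4 V + 2))`.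

`num_house`: multiply by `O! ν^(2O) (4 A²)^O ≤ exp(O (log O + 2 V + log 4 + 2 V))`.

`num_small`: let `S ≤ O / (4050 c M L')`, `270 c ≤ a`, `1 ≤ c`.  The exponent divided by `O`:
* `2 L G + L' G ≤ 3 L G ≤ 3 G O` (`L' ≤ L ≤ N ≤ O`);
* `(2 L + L') 9 c S ≤ 27 c S L ≤ 27 c S O / a ≤ S O / 10` (`a L = N ≤ O`);
* `2 L c 81 S²/T = 162 c L' (t/T) S² ≤ 324 c M L' S²` (`t ≤ T + 1 ≤ T + M T ≤ 2 M T`),
  `L' c 81 S² M = 81 c M L' S²`; the sum is `≤ 405 c M L' S² ≤ S O / 10`.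
So the product is at most
`exp(O (log O + 2 V + (2 log O + 4 V + 2) + 3 G + S/5 + 4 G + 1 - S log 2))` and
`log 2 ≥ 1/5 + 1/4` (`Real.log_two_gt_d9`).
-/

namespace Pool.Agent.LGO.E3

open Real

theorem NumB_fact {n : ℕ} (hn : 1 ≤ n) : (n.factorial : ℝ) ≤ exp (n * log n) := by
  have h1 : (n.factorial : ℝ) ≤ (n : ℝ) ^ n := by exact_mod_cast Nat.factorial_le_pow n
  have h2 : (0 : ℝ) < n := by exact_mod_cast hn
  refine h1.trans (le_of_eq ?_)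
  rw [mul_comm, exp_mul, exp_log h2, rpow_natCast]

theorem NumB_nu {ν N : ℕ} {V : ℝ} (hνV : (ν : ℝ) ≤ exp V) :
    (ν : ℝ) ^ (2 * N) ≤ exp (N * (2 * V)) := by
  refine (pow_le_pow_left₀ (Nat.cast_nonneg _) hνV _).trans (le_of_eq ?_)
  rw [← exp_nat_mul]
  congr 1
  push_cast
  ring

theorem NumB_log4 : log 4 ≤ 2 := by
  have h : (4 : ℝ) = 2 ^ 2 := by norm_num
  rw [h, log_pow]
  have := log_two_lt_d9
  push_cast
  linarith

theorem NumB_A {N : ℕ} {A V : ℝ} (hA : 1 ≤ A) (hAV : A ≤ exp V) :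
    (4 * A ^ 2) ^ N ≤ exp (N * (2 + 2 * V)) := by
  have h1 : 4 * A ^ 2 ≤ exp (2 + 2 * V) := by
    have h2 : A ^ 2 ≤ exp (2 * V) := by
      refine (pow_le_pow_left₀ (by linarith) hAV 2).trans (le_of_eq ?_)
      rw [← exp_nat_mul]
      norm_num
    have h3 : (4 : ℝ) ≤ exp 2 := by
      rw [← exp_log (by norm_num : (0 : ℝ) < 4)]
      exact exp_le_exp.2 NumB_log4
    rw [exp_add]
    exact mul_le_mul h3 h2 (by positivity) (exp_pos _).le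
  refine (pow_le_pow_left₀ (by positivity) h1 N).trans (le_of_eq ?_)
  rw [← exp_nat_mul]

theorem num_P {m a t O ν : ℕ} {A V : ℝ} (hm : 2 ≤ m) (ha : 2 ≤ a) (ht : 1 ≤ t)
    (hO : 4 * m * a ^ 3 * t ≤ O) (hν : 1 ≤ ν) (hV : 0 ≤ V) (hνV : (ν : ℝ) ≤ exp V) (hA : 1 ≤ A)
    (hAV : A ≤ exp V) :
    (4 * m * a ^ 2 * t : ℝ) ^ 2 * (4 * m * a ^ 2) * (5 * (4 * m * a ^ 2 * t) ^ 2 *
      (4 * m * a ^ 2) * ((4 * m * a ^ 3 * t).factorial * (ν : ℝ) ^ (2 * (4 * m * a ^ 3 * t)) *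
        (4 * A ^ 2) ^ (4 * m * a ^ 3 * t))) ≤ exp (O * (2 * log O + 4 * V + 2)) := by
  have hmr : (2 : ℝ) ≤ m := by exact_mod_cast hm
  have har : (2 : ℝ) ≤ a := by exact_mod_cast ha
  have htr : (1 : ℝ) ≤ t := by exact_mod_cast ht
  have hNr : ((4 * m * a ^ 3 * t : ℕ) : ℝ) = 4 * m * a ^ 3 * t := by push_cast; ring
  have hN64 : 64 ≤ 4 * m * a ^ 3 * t := by
    have h1 : 2 ^ 3 ≤ a ^ 3 := Nat.pow_le_pow_left ha 3
    calc 64 = 4 * 2 * 2 ^ 3 * 1 := by norm_num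
      _ ≤ 4 * m * a ^ 3 * t := by gcongr
  generalize hN : 4 * m * a ^ 3 * t = N at *
  have hN1 : 1 ≤ N := by omega
  have hNpos : (64 : ℝ) ≤ N := by exact_mod_cast hN64
  have hL' : (4 * m * a ^ 2 : ℝ) ≤ N := by
    rw [hNr]
    have h1 : (1 : ℝ) ≤ a * t := by nlinarith
    have h2 : (0 : ℝ) ≤ 4 * m * a ^ 2 := by positivity
    nlinarith
  have hL : (4 * m * a ^ 2 * t : ℝ) ≤ N := by
    rw [hNr]
    have h2 : (0 : ℝ) ≤ 4 * m * a ^ 2 * t := by positivity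
    nlinarith
  have h3 : (4 * m * a ^ 2 * t : ℝ) ^ 2 * (4 * m * a ^ 2) ≤ (N : ℝ) ^ 3 := by
    calc (4 * m * a ^ 2 * t : ℝ) ^ 2 * (4 * m * a ^ 2) ≤ (N : ℝ) ^ 2 * N := by gcongr
      _ = (N : ℝ) ^ 3 := by ring
  have h4 : 5 * ((4 * m * a ^ 2 * t : ℝ) ^ 2 * (4 * m * a ^ 2)) ^ 2 ≤ exp (N * log N) := by
    have e1 : exp (N * log N) = (N : ℝ) ^ N := by
      rw [mul_comm, exp_mul, exp_log (by linarith), rpow_natCast]
    rw [e1]
    calc 5 * ((4 * m * a ^ 2 * t : ℝ) ^ 2 * (4 * m * a ^ 2)) ^ 2 ≤ 5 * ((N : ℝ) ^ 3) ^ 2 := by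
          gcongr
      _ ≤ N * ((N : ℝ) ^ 3) ^ 2 := by gcongr; linarith
      _ = (N : ℝ) ^ 7 := by ring
      _ ≤ (N : ℝ) ^ N := pow_le_pow_right₀ (by linarith) (by omega)
  have h5 := NumB_fact hN1
  have h6 := NumB_nu (N := N) hνV
  have h7 := NumB_A (N := N) hA hAV
  have hlog : log N ≤ log O := log_le_log (by linarith) (by exact_mod_cast hO)
  have hlog0 : 0 ≤ log (N : ℝ) := log_nonneg (by linarith)
  have hNO : (N : ℝ) ≤ O := by exact_mod_cast hO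
  calc (4 * m * a ^ 2 * t : ℝ) ^ 2 * (4 * m * a ^ 2) * (5 * (4 * m * a ^ 2 * t) ^ 2 *
        (4 * m * a ^ 2) * (N.factorial * (ν : ℝ) ^ (2 * N) * (4 * A ^ 2) ^ N))
      = 5 * ((4 * m * a ^ 2 * t : ℝ) ^ 2 * (4 * m * a ^ 2)) ^ 2 *
        (N.factorial * (ν : ℝ) ^ (2 * N) * (4 * A ^ 2) ^ N) := by ring
    _ ≤ exp (N * log N) * (exp (N * log N) * exp (N * (2 * V)) * exp (N * (2 + 2 * V))) := by
        gcongr
    _ = exp (N * (2 * log N + 4 * V + 2)) := by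
        rw [← exp_add, ← exp_add, ← exp_add]
        congr 1
        ring
    _ ≤ exp (O * (2 * log O + 4 * V + 2)) := by
        apply exp_le_exp.2
        gcongr

theorem num_house {O ν : ℕ} {A V Q : ℝ} (hO : 1 ≤ O) (hν : 1 ≤ ν) (hV : 0 ≤ V)
    (hνV : (ν : ℝ) ≤ exp V) (hA : 1 ≤ A) (hAV : A ≤ exp V)
    (hQ : Q ≤ exp (O * (2 * log O + 4 * V + 2))) :
    O.factorial * (ν : ℝ) ^ (2 * O) * (Q * (4 * A ^ 2) ^ O) ≤
      exp (O * (3 * log O + 8 * V + 4)) := by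
  have h5 := NumB_fact hO
  have h6 := NumB_nu (N := O) hνV
  have h7 := NumB_A (N := O) hA hAV
  calc O.factorial * (ν : ℝ) ^ (2 * O) * (Q * (4 * A ^ 2) ^ O)
      ≤ O.factorial * (ν : ℝ) ^ (2 * O) *
        (exp (O * (2 * log O + 4 * V + 2)) * (4 * A ^ 2) ^ O) := by gcongr
    _ ≤ exp (O * log O) * exp (O * (2 * V)) * (exp (O * (2 * log O + 4 * V + 2)) *
        exp (O * (2 + 2 * V))) := by gcongr
    _ = exp (O * (3 * log O + 8 * V + 4)) := by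
        rw [← exp_add, ← exp_add, ← exp_add]
        congr 1
        ring

theorem num_small {m a t O ν S : ℕ} {M T c G V Q : ℝ} (hM : 2 ≤ M) (hT : 0 < T) (hMT : 1 ≤ M * T)
    (hm : 2 ≤ m) (ha : 2 ≤ a) (ht : 1 ≤ t) (htT : (t : ℝ) ≤ T + 1)
    (hO : 4 * m * a ^ 3 * t ≤ O) (hν : 1 ≤ ν) (hV : 0 ≤ V) (hνV : (ν : ℝ) ≤ exp V) (hc : 1 ≤ c)
    (hca : 270 * c ≤ a) (hG : 0 ≤ G) (hS : (S : ℝ) ≤ O / (4050 * c * M * (4 * m * a ^ 2)))
    (hQ : Q ≤ exp (O * (2 * log O + 4 * V + 2))) :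
    O.factorial * (ν : ℝ) ^ (2 * O) * (Q * exp (2 * (4 * m * a ^ 2 * t) *
      (c * (81 * S ^ 2 / T + 9 * S) + G) + (4 * m * a ^ 2) * (c * (81 * S ^ 2 / (1 / M) + 9 * S) + G)
        + (4 * G + 1) * O) / 2 ^ (S * O)) ≤
      exp (-(O * (S / 4 - 3 * log O - 6 * V - 7 * G - 4))) := by
  have hmr : (2 : ℝ) ≤ m := by exact_mod_cast hm
  have har : (2 : ℝ) ≤ a := by exact_mod_cast ha
  have htr : (1 : ℝ) ≤ t := by exact_mod_cast ht
  have hOr : (4 * m * a ^ 3 * t : ℝ) ≤ O := by exact_mod_cast hO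
  have hS0 : (0 : ℝ) ≤ S := Nat.cast_nonneg _
  have hO1 : 1 ≤ O := by
    have h1 : 2 ^ 3 ≤ a ^ 3 := Nat.pow_le_pow_left ha 3
    have h2 : 4 * 2 * 2 ^ 3 * 1 ≤ 4 * m * a ^ 3 * t := by gcongr
    omega
  have hO0 : (0 : ℝ) < O := by exact_mod_cast hO1
  obtain ⟨L', hL'⟩ : ∃ L' : ℝ, L' = 4 * m * a ^ 2 := ⟨_, rfl⟩
  have hL'0 : 0 < L' := by rw [hL']; positivity
  have hLa : L' * t * a ≤ O := by
    rw [hL']
    calc (4 * m * a ^ 2 : ℝ) * t * a = 4 * m * a ^ 3 * t := by ring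
      _ ≤ O := hOr
  rw [← hL'] at hS ⊢
  have hLt0 : 0 ≤ L' * t := by positivity
  have hLO : L' * t ≤ O := by nlinarith
  have hL'L : L' ≤ L' * t := by nlinarith
  -- first part
  have e1 : 2 * (L' * t) * G + L' * G ≤ 3 * G * O := by nlinarith
  -- second part
  have e2 : 2 * (L' * t) * (c * (9 * S)) + L' * (c * (9 * S)) ≤ S * O / 10 := by
    have h1 : 270 * c * (L' * t) ≤ O := by
      calc 270 * c * (L' * t) ≤ a * (L' * t) := by gcongr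
        _ = L' * t * a := by ring
        _ ≤ O := hLa
    have h2 : L' * (c * (9 * S)) ≤ L' * t * (c * (9 * S)) :=
      mul_le_mul_of_nonneg_right hL'L (by positivity)
    have h3 : 270 * c * (L' * t) * S ≤ O * S := mul_le_mul_of_nonneg_right h1 hS0
    linarith
  -- third part
  have hSL : 405 * c * M * L' * S ≤ O / 10 := by
    have h1 : 0 < 4050 * c * M * L' := by positivity
    rw [le_div_iff₀ h1] at hS
    linarith
  have e3 : 2 * (L' * t) * (c * (81 * S ^ 2 / T)) + L' * (c * (81 * S ^ 2 / (1 / M))) ≤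
      S * O / 10 := by
    have h1 : (t : ℝ) / T ≤ 2 * M := by
      rw [div_le_iff₀ hT]
      nlinarith
    have h2 : 2 * (L' * t) * (c * (81 * S ^ 2 / T)) = 162 * c * L' * S ^ 2 * (t / T) := by ring
    have h3 : L' * (c * (81 * S ^ 2 / (1 / M))) = 81 * c * L' * S ^ 2 * M := by
      rw [div_div_eq_mul_div, div_one]
      ring
    have h4 : 162 * c * L' * S ^ 2 * (t / T) ≤ 162 * c * L' * S ^ 2 * (2 * M) :=
      mul_le_mul_of_nonneg_left h1 (by positivity)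
    have h5 : 405 * c * M * L' * S * S ≤ O / 10 * S := mul_le_mul_of_nonneg_right hSL hS0
    rw [h2, h3]
    nlinarith
  have hE : 2 * (L' * t) * (c * (81 * S ^ 2 / T + 9 * S) + G) +
      L' * (c * (81 * S ^ 2 / (1 / M) + 9 * S) + G) + (4 * G + 1) * O ≤
      O * (7 * G + 1 + S / 5) := by
    have h1 : 2 * (L' * t) * (c * (81 * S ^ 2 / T + 9 * S) + G) +
      L' * (c * (81 * S ^ 2 / (1 / M) + 9 * S) + G) = (2 * (L' * t) * G + L' * G) +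
      (2 * (L' * t) * (c * (9 * S)) + L' * (c * (9 * S))) +
      (2 * (L' * t) * (c * (81 * S ^ 2 / T)) + L' * (c * (81 * S ^ 2 / (1 / M)))) := by ring
    rw [h1]
    linarith
  generalize 2 * (L' * t) * (c * (81 * S ^ 2 / T + 9 * S) + G) +
      L' * (c * (81 * S ^ 2 / (1 / M) + 9 * S) + G) + (4 * G + 1) * O = E at hE ⊢
  have h5 := NumB_fact hO1
  have h6 := NumB_nu (N := O) hνV
  have h2S : (2 : ℝ) ^ (S * O) = exp (S * O * log 2) := by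
    have h8 : (S : ℝ) * O * log 2 = ((S * O : ℕ) : ℝ) * log 2 := by push_cast; ring
    rw [h8, exp_nat_mul, exp_log two_pos]
  rw [h2S, mul_div_assoc, ← exp_sub]
  have hl2 := log_two_gt_d9
  calc O.factorial * (ν : ℝ) ^ (2 * O) * (Q * exp (E - S * O * log 2))
      ≤ O.factorial * (ν : ℝ) ^ (2 * O) *
        (exp (O * (2 * log O + 4 * V + 2)) * exp (E - S * O * log 2)) := by gcongr
    _ ≤ exp (O * log O) * exp (O * (2 * V)) *
        (exp (O * (2 * log O + 4 * V + 2)) * exp (E - S * O * log 2)) := by gcongr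
    _ = exp (O * log O + O * (2 * V) + (O * (2 * log O + 4 * V + 2) +
        (E - S * O * log 2))) := by
        rw [← exp_add, ← exp_add, ← exp_add]
    _ ≤ exp (-(O * (S / 4 - 3 * log O - 6 * V - 7 * G - 4))) := by
        apply exp_le_exp.2
        have h7 : 0 ≤ (S : ℝ) * O * (log 2 - 1 / 5 - 1 / 4) := by
          apply mul_nonneg (by positivity)
          linarith
        nlinarith

end Pool.Agent.LGO.E3
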