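import Pool.Agent.LGO.E3.Ser
import Pool.Agent.Schn.TayFactor

/-!
# LGO, engine 3, module Zero: if all forms vanish then `Fn = 0`

Proof.  By `tay_Fn` the Taylor series at `0` of the entire function `t ↦ Fn(t, η t)` is `0` for every
`η`, so it is `0` near `0` (`Schn.tay_zero`) and everywhere (identity theorem); hence `Fn(z, v) = 0`
for `z ≠ 0` (`η = v / z`), and for `z = 0` by periodicity (`Fn(0, v) = Fn(1, v)`, `analytic_Fn`).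
-/

namespace Pool.Agent.LGO.E3

open Polynomial Pool.Agent.Schn

theorem zero_of_frm {w₁ w₂ w₃ l₁ l₂ : ℂ} {U₁ U₂ U₃ : PowerSeries ℂ} {s₁ e₁ s₂ e₂ s₃ e₃ : ℂ → ℂ}
    (h₁ : Loc w₁ U₁ s₁ e₁) (h₂ : Loc w₂ U₂ s₂ e₂) (h₃ : Loc w₃ U₃ s₃ e₃) (hw₁ : w₁ ≠ 0)
    (hw₃ : w₃ ≠ 0) (hl : l₁ * w₁ + l₂ * w₂ = w₃) (L L' : ℕ) (p : ℕ → ℕ → ℕ → ℤ)
    (h : ∀ k, frm U₁ U₂ U₃ l₁ l₂ L L' p k = 0) (x : ℂ × ℂ) :
    Fn s₁ e₁ s₂ e₂ s₃ e₃ (l₂ * w₂ / w₃) L L' p x = 0 := by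
  have hFn := (analytic_Fn h₁ h₂ h₃ (l₂ * w₂ / w₃) L L' p).1
  have hper := (analytic_Fn h₁ h₂ h₃ (l₂ * w₂ / w₃) L L' p).2
  -- on every line the function vanishes
  have hline : ∀ η z : ℂ, Fn s₁ e₁ s₂ e₂ s₃ e₃ (l₂ * w₂ / w₃) L L' p (z, η * z) = 0 := by
    intro η
    have hg : ∀ z : ℂ, AnalyticAt ℂ
        (fun t => Fn s₁ e₁ s₂ e₂ s₃ e₃ (l₂ * w₂ / w₃) L L' p (t, η * t)) z := by
      intro z
      have h5 : AnalyticAt ℂ (fun t : ℂ => (t, η * t)) z :=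
        (analyticAt_id (𝕜 := ℂ)).prod (analyticAt_const.mul analyticAt_id)
      exact (hFn (z, η * z)).comp_of_eq h5 rfl
    obtain ⟨V, -, hV⟩ := tay_Fn h₁ h₂ h₃ hw₁ hw₃ hl L L' p η
    have h0 : tay (fun t => Fn s₁ e₁ s₂ e₂ s₃ e₃ (l₂ * w₂ / w₃) L L' p (t, η * t)) = 0 := by
      rw [hV]
      have h6 : (PowerSeries.mk fun k =>
          (frm U₁ U₂ U₃ l₁ l₂ L L' p k).eval (w₂ * (1 + η) / w₁)) = 0 := by
        ext k
        rw [PowerSeries.coeff_mk, h k, Polynomial.eval_zero, map_zero]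
      rw [h6, map_zero, mul_zero]
    have h7 := tay_zero (hg 0) (fun n => by rw [h0, map_zero])
    have h8 : AnalyticOnNhd ℂ
        (fun t => Fn s₁ e₁ s₂ e₂ s₃ e₃ (l₂ * w₂ / w₃) L L' p (t, η * t)) Set.univ :=
      fun z _ => hg z
    have h9 := h8.eqOn_zero_of_preconnected_of_eventuallyEq_zero isPreconnected_univ
      (Set.mem_univ 0) h7
    intro z
    exact h9 (Set.mem_univ z)
  obtain ⟨z, v⟩ := x
  have hne : ∀ z v : ℂ, z ≠ 0 → Fn s₁ e₁ s₂ e₂ s₃ e₃ (l₂ * w₂ / w₃) L L' p (z, v) = 0 := by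
    intro z v hz
    have h1 := hline (v / z) z
    rwa [div_mul_cancel₀ v hz] at h1
  by_cases hz : z = 0
  · rw [hz, ← hper 0 v, zero_add]
    exact hne 1 v one_ne_zero
  · exact hne z v hz

end Pool.Agent.LGO.E3
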