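import Pool.Agent.LGO.E3.Small
import Pool.Agent.LGO.E3.Zero
import Pool.Agent.LGO.E3.Idx
import Pool.Agent.LGO.E3.Base
import Pool.Agent.LGO.E3.Num
import Pool.Agent.LGO.E3.NumB
import Pool.Agent.LGO.B.NmMeas

/-!
# LGO, engine 3: assembly
-/

namespace Pool.Agent.LGO.E3

open Polynomial Pool.Agent.EllSch

theorem intK {K : IntermediateField ℚ ℂ} {x : K} (h : IsIntegral ℤ (algebraMap K ℂ x)) :
    IsIntegral ℤ x := by
  have hinj : Function.Injective (algebraMap K ℂ) := (algebraMap K ℂ).injective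
  exact (isIntegral_algebraMap_iff hinj).1 h

theorem fin_r {c M T : ℝ} (hc : 1 ≤ c) (hM : 2 ≤ M) (hT : 0 < T) (hMT : 1 ≤ M * T) :
    1 ≤ c * (M * T) ∧ M * T ≤ c * (M * T) ∧ 2 * (M * T) ≤ M ^ 2 * T ∧ 1 ≤ M ^ 2 * T ∧
      M ^ 2 * T ≤ c * (M ^ 2 * T) ∧ 2 * (c * (M * T)) ≤ c * (M ^ 2 * T) := by
  have h1 : 2 * (M * T) ≤ M ^ 2 * T := by nlinarith
  have h2 : 1 ≤ M ^ 2 * T := by linarith
  refine ⟨one_le_mul_of_one_le_of_one_le hc hMT, by nlinarith, h1, h2, by nlinarith, ?_⟩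
  have := mul_le_mul_of_nonneg_left h1 (by linarith : (0 : ℝ) ≤ c)
  linarith

theorem fin_c {c κ lo m2 Z S V G Y : ℝ} (hc : 1 ≤ c) (hκ : κ = 4050 * c) (hlo : 0 ≤ lo)
    (hm : 1 ≤ m2) (hZ : 0 ≤ Z) (hV : 2 * V ≤ 5 * (c * m2)) (hG : G = c * m2)
    (hY : Y = S / 4 - 3 * lo - 6 * V - 7 * G - 4) (h1 : Y ≤ Z)
    (h2 : κ * (lo + m2 + Z) < S + 1) : False := by
  have h3 : 4050 * lo ≤ κ * lo := by rw [hκ]; nlinarith
  have h4 : 4050 * Z ≤ κ * Z := by rw [hκ]; nlinarith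
  have h5 : κ * m2 = 4050 * (c * m2) := by rw [hκ]; ring
  have h6 : 1 ≤ c * m2 := one_le_mul_of_one_le_of_one_le hc hm
  have h7 : κ * (lo + m2 + Z) = κ * lo + κ * m2 + κ * Z := by ring
  rw [h7] at h2
  linarith

theorem fin_L' {M : ℝ} {m k : ℕ} (hM : 2 ≤ M) (hm : (m : ℝ) ≤ 2 * M) :
    4 * (m : ℝ) ^ (2 * k + 1) ≤ M ^ (4 * k + 4) := by
  have h3 : (m : ℝ) ≤ M ^ 2 := by nlinarith
  calc 4 * (m : ℝ) ^ (2 * k + 1) ≤ M ^ 2 * (M ^ 2) ^ (2 * k + 1) := by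
        gcongr
        nlinarith
    _ = M ^ (4 * k + 4) := by
        rw [← pow_mul, ← pow_add]
        congr 1
        ring

theorem engine3' : ∃ C : ℕ, ∀ (K : IntermediateField ℚ ℂ) [FiniteDimensional ℚ K] (M T : ℝ)
    (w₁ τ₁ w₂ τ₂ w₃ τ₃ γ l₁ l₂ : ℂ), 2 ≤ M → (Module.finrank ℚ K : ℝ) ≤ M → 0 < T → 1 ≤ M * T →
    Cur K M (M * T) T w₁ τ₁ → Cur K M (M * T) T w₂ τ₂ → Cur K M (M * T) (1 / M) w₃ τ₃ →
    Gen γ (Lt w₁ τ₁) (Lt w₂ τ₂) → Bd K (M * T) γ → (∀ r : ℚ, w₂ ≠ r * γ * w₁) →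
    Bd K (M * T) l₁ → Bd K (M * T) l₂ → l₁ * w₁ + l₂ * w₂ = w₃ →
    ∃ n : ℕ, 0 < n ∧ (n : ℝ) ≤ M ^ C ∧ Mp (n * l₁) (Lt w₁ τ₁) (Lt w₃ τ₃) ∧
      Mp (n * l₂) (Lt w₂ τ₂) (Lt w₃ τ₃) := by
  obtain ⟨C₂, hclose⟩ := close_main
  obtain ⟨CB, hCB, hbase⟩ := base
  set c : ℝ := (CB : ℝ) with hc_def
  have hc : 1 ≤ c := by rw [hc_def]; exact_mod_cast hCB
  set κ : ℝ := 4050 * c with hκ_def
  have hκ : 1 ≤ κ := by rw [hκ_def]; linarith
  obtain ⟨k, hk1, hnum⟩ := num C₂ κ hκ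
  refine ⟨4 * k + 4, ?_⟩
  intro K _ M T w₁ τ₁ w₂ τ₂ w₃ τ₃ γ l₁ l₂ hM hfin hT hMT c₁ c₂ c₃ hγ hγB hrat hl₁ hl₂ hl
  have hM0 : 0 < M := by linarith
  obtain ⟨r1, r2, r3, r4, r5, r6⟩ := fin_r hc hM hT hMT
  obtain ⟨s₁, e₁, U₁, ν₁, hν₁, hν₁V, a₁, loc₁, gr₁, we₁, lo₁, up₁⟩ :=
    hbase K M T T w₁ τ₁ hM hfin hT hMT hT hMT c₁
  obtain ⟨s₂, e₂, U₂, ν₂, hν₂, hν₂V, a₂, loc₂, gr₂, we₂, lo₂, up₂⟩ :=
    hbase K M T T w₂ τ₂ hM hfin hT hMT hT hMT c₂
  have hM1 : 1 ≤ M * (1 / M) := by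
    rw [mul_one_div_cancel hM0.ne']
  obtain ⟨s₃, e₃, U₃, ν₃, hν₃, hν₃V, a₃, loc₃, gr₃, we₃, lo₃, up₃⟩ :=
    hbase K M T (1 / M) w₃ τ₃ hM hfin hT hMT (by positivity) hM1 c₃
  obtain ⟨n₁, hn₁, hn₁V, hn₁i⟩ := hl₁.den
  obtain ⟨n₂, hn₂, hn₂V, hn₂i⟩ := hl₂.den
  set l₁' : K := ⟨l₁, hl₁.mem⟩ with hl₁'
  set l₂' : K := ⟨l₂, hl₂.mem⟩ with hl₂'
  set A : ℝ := Real.exp (c * (M * T)) with hA_def
  have hA : 1 ≤ A := Real.one_le_exp (by linarith)
  set ν : ℕ := ν₁ * (ν₂ * ν₃ * (n₁ * n₂)) with hν_def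
  have hν : 1 ≤ ν := by
    rw [hν_def]
    have : 0 < ν₁ * (ν₂ * ν₃ * (n₁ * n₂)) := by positivity
    exact this
  set V : ℝ := 5 * (c * (M * T)) with hV_def
  have hV : 0 ≤ V := by rw [hV_def]; linarith
  have hνV : (ν : ℝ) ≤ Real.exp V := by
    have e : Real.exp V = Real.exp (c * (M * T)) * (Real.exp (c * (M * T)) *
        Real.exp (c * (M * T)) * (Real.exp (c * (M * T)) * Real.exp (c * (M * T)))) := by
      rw [← Real.exp_add, ← Real.exp_add, ← Real.exp_add, hV_def]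
      congr 1
      ring
    have h1 : (n₁ : ℝ) ≤ Real.exp (c * (M * T)) := hn₁V.trans (Real.exp_le_exp.2 r2)
    have h2 : (n₂ : ℝ) ≤ Real.exp (c * (M * T)) := hn₂V.trans (Real.exp_le_exp.2 r2)
    rw [e, hν_def]
    push_cast
    gcongr
  have hAV : A ≤ Real.exp V := by
    rw [hA_def, hV_def]
    exact Real.exp_le_exp.2 (by linarith)
  have b₁ : Ar ν A U₁ := a₁.mono (by linarith) _ le_rfl
  have b₂ : Ar ν A U₂ := by
    have := a₂.mono (by linarith) (ν₁ * (ν₃ * (n₁ * n₂))) (le_refl A)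
    have e : ν = ν₂ * (ν₁ * (ν₃ * (n₁ * n₂))) := by rw [hν_def]; ring
    rw [e]; exact this
  have b₃ : Ar ν A U₃ := by
    have := a₃.mono (by linarith) (ν₁ * (ν₂ * (n₁ * n₂))) (le_refl A)
    have e : ν = ν₃ * (ν₁ * (ν₂ * (n₁ * n₂))) := by rw [hν_def]; ring
    rw [e]; exact this
  have i₁ : IsIntegral ℤ ((ν : K) * l₁') := by
    apply intK
    have e : algebraMap K ℂ ((ν : K) * l₁') = ((ν₁ * (ν₂ * ν₃ * n₂) : ℕ) : ℂ) * ((n₁ : ℂ) * l₁) := by
      rw [map_mul, map_natCast, hν_def, hl₁']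
      change _ * l₁ = _
      push_cast
      ring
    rw [e]
    exact (isIntegral_algebraMap (R := ℤ) (A := ℂ)
      (x := ((ν₁ * (ν₂ * ν₃ * n₂) : ℕ) : ℤ))).mul hn₁i |> fun h => by simpa using h
  have i₂ : IsIntegral ℤ ((ν : K) * l₂') := by
    apply intK
    have e : algebraMap K ℂ ((ν : K) * l₂') = ((ν₁ * (ν₂ * ν₃ * n₁) : ℕ) : ℂ) * ((n₂ : ℂ) * l₂) := by
      rw [map_mul, map_natCast, hν_def, hl₂']
      change _ * l₂ = _
      push_cast
      ring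
    rw [e]
    exact (isIntegral_algebraMap (R := ℤ) (A := ℂ)
      (x := ((ν₁ * (ν₂ * ν₃ * n₁) : ℕ) : ℤ))).mul hn₂i |> fun h => by simpa using h
  have hle : Real.exp (M * T) ≤ A := Real.exp_le_exp.2 r2
  have bl₁ : ∀ σ : K →+* ℂ, ‖σ l₁'‖ ≤ A := fun σ => (hl₁.house σ).trans hle
  have bl₂ : ∀ σ : K →+* ℂ, ‖σ l₂'‖ ≤ A := fun σ => (hl₂.house σ).trans hle
  -- parameters
  set m : ℕ := ⌈M⌉₊ with hm_def
  have hmM : M ≤ m := Nat.le_ceil M
  have hm2M : (m : ℝ) ≤ 2 * M := by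
    have := Nat.ceil_lt_add_one hM0.le
    rw [← hm_def] at this
    linarith
  have hm2 : 2 ≤ m := by
    have : (2 : ℝ) ≤ m := hM.trans hmM
    exact_mod_cast this
  have hmfin : Module.finrank ℚ K ≤ m := by
    have : (Module.finrank ℚ K : ℝ) ≤ m := hfin.trans hmM
    exact_mod_cast this
  set t : ℕ := max 1 ⌈T⌉₊ with ht_def
  have ht : 1 ≤ t := le_max_left _ _
  have htT : T ≤ t := (Nat.le_ceil T).trans (by exact_mod_cast le_max_right _ _)
  have htT' : (t : ℝ) ≤ T + 1 := by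
    rw [ht_def, Nat.cast_max, Nat.cast_one]
    apply max_le (by linarith) (Nat.ceil_lt_add_one hT.le).le
  set a : ℕ := m ^ k with ha_def
  obtain ⟨p, hpne, hplow, hpP⟩ := exists_p (siegel K) hν hA b₁ b₂ b₃ i₁ i₂ bl₁ bl₂ m a t hmfin
    (Nat.one_le_pow _ _ (by omega)) ht
  set P : ℝ := 5 * (4 * m * a ^ 2 * t) ^ 2 * (4 * m * a ^ 2) *
        ((4 * m * a ^ 3 * t).factorial * (ν : ℝ) ^ (2 * (4 * m * a ^ 3 * t)) *
          (4 * A ^ 2) ^ (4 * m * a ^ 3 * t)) with hP_def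
  set L : ℕ := 4 * m * a ^ 2 * t with hL_def
  set L' : ℕ := 4 * m * a ^ 2 with hL'_def
  have hw₁ : w₁ ≠ 0 := c₁.w0
  have hw₃ : w₃ ≠ 0 := c₃.w0
  -- complex versions
  have hmap : ∀ j, (frm U₁ U₂ U₃ l₁' l₂' L L' p j).map (algebraMap K ℂ) =
      frm (PowerSeries.map (algebraMap K ℂ) U₁) (PowerSeries.map (algebraMap K ℂ) U₂)
        (PowerSeries.map (algebraMap K ℂ) U₃) l₁ l₂ L L' p j := fun j =>
    map_frm (algebraMap K ℂ) U₁ U₂ U₃ l₁' l₂' L L' p j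
  by_cases hall : ∀ j, frm U₁ U₂ U₃ l₁' l₂' L L' p j = 0
  · -- all forms vanish
    have hz := zero_of_frm loc₁ loc₂ loc₃ hw₁ hw₃ hl L L' p (fun j => by
      rw [← hmap, hall, Polynomial.map_zero])
    obtain ⟨n, hn0, hnL, hm1, hm2'⟩ := idx hw₁ c₂.w0 hw₃ c₁.im_pos c₂.im_pos c₃.im_pos
      loc₁.ds loc₁.de loc₁.e0 loc₂.ds loc₂.de loc₂.e0 loc₃.ds loc₃.de loc₃.e0 we₁ we₂ we₃
      hl L L' p hpne hz
    refine ⟨n, hn0, ?_, hm1, hm2'⟩
    have h1 : (n : ℝ) ≤ L' := by exact_mod_cast hnL.le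
    refine h1.trans ?_
    have h2 : (L' : ℝ) = 4 * (m : ℝ) ^ (2 * k + 1) := by
      rw [hL'_def, ha_def]
      push_cast
      ring
    rw [h2]
    exact fin_L' hM hm2M
  · exfalso
    push Not at hall
    classical
    set O : ℕ := Nat.find hall with hO_def
    have hO : frm U₁ U₂ U₃ l₁' l₂' L L' p O ≠ 0 := Nat.find_spec hall
    have hlow : ∀ j < O, frm U₁ U₂ U₃ l₁' l₂' L L' p j = 0 := fun j hj => by
      have := Nat.find_min hall hj
      push Not at this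
      exact this
    have hNO : 4 * m * a ^ 3 * t ≤ O := by
      by_contra hcon
      push Not at hcon
      exact hO (hplow O hcon)
    obtain ⟨hκa, hfinal⟩ := hnum M T m a t O hM hT hMT hmM hm2M ha_def ht htT htT' hNO
    have ha270 : 270 * c ≤ a := by rw [hκ_def] at hκa; linarith
    have ha2 : 2 ≤ a := by
      have : (2 : ℝ) ≤ a := by linarith
      exact_mod_cast this
    have hO64 : 64 ≤ O := by
      refine le_trans ?_ hNO
      have h1 : 2 ^ 3 ≤ a ^ 3 := Nat.pow_le_pow_left ha2 3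
      calc 64 = 4 * 2 * 2 ^ 3 * 1 := by norm_num
        _ ≤ 4 * m * a ^ 3 * t := by gcongr
    have hO0 : (0 : ℝ) < O := by
      have : (64 : ℝ) ≤ O := by exact_mod_cast hO64
      linarith
    set G : ℝ := c * (M ^ 2 * T) with hG_def
    have hG : 0 ≤ G := by rw [hG_def]; positivity
    set S : ℕ := ⌊(O : ℝ) / (4050 * c * M * (4 * m * a ^ 2))⌋₊ with hS_def
    have hden : (0 : ℝ) < 4050 * c * M * (4 * m * a ^ 2) := by
      have : (0 : ℝ) < m := by exact_mod_cast (by omega : 0 < m)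
      have : (0 : ℝ) < a := by exact_mod_cast (by omega : 0 < a)
      positivity
    have hS1 : (S : ℝ) ≤ O / (4050 * c * M * (4 * m * a ^ 2)) := Nat.floor_le (by positivity)
    have hS2 : O / (4050 * c * M * (4 * m * a ^ 2)) < S + 1 := Nat.lt_floor_add_one _
    set Q : ℝ := (4 * m * a ^ 2 * t : ℝ) ^ 2 * (4 * m * a ^ 2) * P with hQ_def
    have hQ : Q ≤ Real.exp (O * (2 * Real.log O + 4 * V + 2)) :=
      num_P hm2 ha2 ht hNO hν hV hνV hA hAV
    set X : ℝ := (8 * Real.log O + 44 * c * (M ^ 2 * T)) / T with hX_def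
    have hXT : X * T = 8 * Real.log O + 44 * c * (M ^ 2 * T) := by
      rw [hX_def]; field_simp
    have hlogO : 0 ≤ Real.log O := Real.log_nonneg (by
      have : (64 : ℝ) ≤ O := by exact_mod_cast hO64
      linarith)
    set Y : ℝ := S / 4 - 3 * Real.log O - 6 * V - 7 * G - 4 with hY_def
    -- the polynomial
    set f : K[X] := frm U₁ U₂ U₃ l₁' l₂' L L' p O with hf_def
    set D : K := (O.factorial : K) * (ν : K) ^ (2 * O) with hD_def
    set q : ℂ[X] := (Polynomial.C D * f).map (algebraMap K ℂ) with hq_def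
    have hDne : D ≠ 0 := by
      rw [hD_def]
      have h1 : (O.factorial : K) ≠ 0 := by exact_mod_cast O.factorial_ne_zero
      have h2 : (ν : K) ≠ 0 := by exact_mod_cast (by omega : ν ≠ 0)
      exact mul_ne_zero h1 (pow_ne_zero _ h2)
    have hqc : ∀ i, q.coeff i = ((D * f.coeff i : K) : ℂ) := by
      intro i
      rw [hq_def, Polynomial.coeff_map, Polynomial.coeff_C_mul]
      rfl
    have hq0 : q ≠ 0 := by
      rw [hq_def, Ne, Polynomial.map_eq_zero_iff (algebraMap K ℂ).injective]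
      exact mul_ne_zero (Polynomial.C_ne_zero.2 hDne) hO
    have hqdeg : q.natDegree ≤ O := by
      refine (Polynomial.natDegree_map_le).trans ?_
      refine (Polynomial.natDegree_C_mul_le _ _).trans ?_
      exact natDegree_frm _ _ _ _ _ _ _ _ _
    have hmem : ∀ i, q.coeff i ∈ K := fun i => by rw [hqc]; exact (D * f.coeff i : K).2
    have hint : ∀ i, IsIntegral ℤ (q.coeff i) := fun i => by
      rw [hqc]
      have h1 := frm_int b₁ b₂ b₃ i₁ i₂ L L' p O i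
      exact h1.algebraMap (B := ℂ)
    have hhouse : ∀ (i : ℕ) (σ : K →+* ℂ), ‖σ ⟨q.coeff i, hmem i⟩‖ ≤ Real.exp (O * (X * T)) := by
      intro i σ
      have e : (⟨q.coeff i, hmem i⟩ : K) = D * f.coeff i := Subtype.ext (hqc i)
      rw [e, map_mul, norm_mul, hD_def, map_mul, map_pow, map_natCast, map_natCast, norm_mul,
        norm_pow, Complex.norm_natCast, Complex.norm_natCast]
      have h1 := frm_bd hA b₁ b₂ b₃ σ (bl₁ σ) (bl₂ σ) L L' p P hpP O i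
      have h2 := num_house (O := O) (by omega) hν hV hνV hA hAV hQ
      have h3 : (L : ℝ) ^ 2 * L' * P = Q := by
        rw [hQ_def, hL_def, hL'_def]
        push_cast
        ring
      rw [h3] at h1
      calc (O.factorial : ℝ) * (ν : ℝ) ^ (2 * O) * ‖σ (f.coeff i)‖
          ≤ O.factorial * (ν : ℝ) ^ (2 * O) * (Q * (4 * A ^ 2) ^ O) := by
            apply mul_le_mul_of_nonneg_left h1 (by positivity)
        _ ≤ _ := h2
        _ ≤ _ := by
            apply Real.exp_le_exp.2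
            apply mul_le_mul_of_nonneg_left _ hO0.le
            rw [hXT, hV_def]
            linarith
    have hl₂G : ‖l₂‖ ≤ Real.exp G := by
      have h1 := hl₂.house (algebraMap K ℂ)
      change ‖l₂‖ ≤ _ at h1
      refine h1.trans (Real.exp_le_exp.2 ?_)
      rw [hG_def]
      linarith
    have hSbig : κ * (Real.log O + M ^ 2 * T +
        T * (κ * ((Real.log O + M ^ 2 * T) / T)) ^ C₂) < S + 1 := hfinal.trans hS2
    have hZ : 0 ≤ T * (κ * ((Real.log O + M ^ 2 * T) / T)) ^ C₂ := by positivity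
    have hSpos : 1 ≤ S := by
      have h1 : (1 : ℝ) * (0 + 1 + 0) ≤ κ * (Real.log O + M ^ 2 * T +
        T * (κ * ((Real.log O + M ^ 2 * T) / T)) ^ C₂) := by gcongr
      have h2 : (0 : ℝ) < S := by linarith
      exact_mod_cast h2
    have hsmall : ∀ j : ℕ, 4 * j ≤ O →
        ‖(taylor (w₂ / w₁) q).coeff j‖ ≤ Real.exp (-(O * Y)) := by
      intro j hj
      have h1 := small loc₁ loc₂ loc₃ (by linarith : (0 : ℝ) ≤ c) hG hT (by positivity) gr₁ gr₂ gr₃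
        ⟨lo₁, up₁⟩ ⟨lo₂, up₂⟩ ⟨lo₃, up₃⟩ hl₂G hl L L' p hpP O
        (fun j hj => by rw [← hmap, hlow j hj, Polynomial.map_zero]) (natDegree_frm _ _ _ _ _ _ _ _ _)
        S hSpos j (by omega)
      have h2 := num_small (S := S) (G := G) hM hT hMT hm2 ha2 ht htT' hNO hν hV hνV hc ha270 hG
        hS1 hQ
      have h3 : (L : ℝ) ^ 2 * L' * P = Q := by
        rw [hQ_def, hL_def, hL'_def]
        push_cast
        ring
      have e1 : taylor (w₂ / w₁) q = Polynomial.C (algebraMap K ℂ D) *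
          taylor (w₂ / w₁) (frm (PowerSeries.map (algebraMap K ℂ) U₁)
            (PowerSeries.map (algebraMap K ℂ) U₂) (PowerSeries.map (algebraMap K ℂ) U₃)
            l₁ l₂ L L' p O) := by
        rw [hq_def, Polynomial.map_mul, Polynomial.map_C, taylor_mul, taylor_C, ← hmap]
      have e2 : ‖algebraMap K ℂ D‖ = O.factorial * (ν : ℝ) ^ (2 * O) := by
        rw [hD_def, map_mul, map_pow, map_natCast, map_natCast, norm_mul, norm_pow,
          Complex.norm_natCast, Complex.norm_natCast]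
      rw [e1, Polynomial.coeff_C_mul, norm_mul, e2]
      refine le_trans (mul_le_mul_of_nonneg_left h1 (by positivity)) ?_
      refine le_trans (le_of_eq ?_) h2
      rw [h3, hL_def, hL'_def]
      push_cast
      ring
    have hfin2 := hclose K M T X Y w₁ τ₁ w₂ τ₂ γ q O hM hfin hT hMT c₁ c₂ hγ hγB hrat
      (by
        have h1 : M * T ≤ X * T := by rw [hXT]; linarith
        exact le_of_mul_le_mul_right h1 hT)
      (by
        rw [norm_div, hXT]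
        have hpos : 0 < ‖w₁‖ := norm_pos_iff.2 hw₁
        rw [div_le_iff₀ hpos]
        calc ‖w₂‖ ≤ Real.exp G := up₂
          _ = Real.exp (2 * G) * Real.exp (-G) := by rw [← Real.exp_add]; congr 1; ring
          _ ≤ Real.exp (8 * Real.log O + 44 * c * (M ^ 2 * T)) * ‖w₁‖ := by
              apply mul_le_mul _ lo₁ (Real.exp_pos _).le (Real.exp_pos _).le
              apply Real.exp_le_exp.2
              rw [hG_def]
              linarith)
      (by omega) (by rw [hXT]; linarith) hq0 hqdeg hmem hint hhouse hsmall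
    have hX0 : 0 ≤ X := by rw [hX_def]; positivity
    have hXle : X ≤ κ * ((Real.log O + M ^ 2 * T) / T) := by
      rw [hX_def, ← mul_div_assoc]
      apply div_le_div_of_nonneg_right _ hT.le
      have h1 : 4050 * (Real.log O) ≤ κ * Real.log O := by
        rw [hκ_def]
        exact mul_le_mul_of_nonneg_right (by linarith) hlogO
      have h2 : κ * (M ^ 2 * T) = 4050 * (c * (M ^ 2 * T)) := by rw [hκ_def]; ring
      rw [mul_add, h2]
      linarith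
    have hZ2 : T * X ^ C₂ ≤ T * (κ * ((Real.log O + M ^ 2 * T) / T)) ^ C₂ :=
      mul_le_mul_of_nonneg_left (pow_le_pow_left₀ hX0 hXle C₂) hT.le
    exact fin_c hc hκ_def hlogO r4 hZ (by rw [hV_def]; linarith) hG_def hY_def
      (hfin2.trans hZ2) hSbig

end Pool.Agent.LGO.E3
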