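import Pool.Agent.LGO.E3.Defs

/-!
# LGO, engine 3, module Hur: integrality of the coefficients

Proof.  Let `S` be the set of the polynomials over `K` all of whose coefficients are integral over
`ℤ`; it is a subring of `K[X]`.  Call a power series `f` over `K[X]` *Hurwitz* if
`n! * coeff n f ∈ S` for all `n`.  Products of Hurwitz series are Hurwitz
(`n! ∑ f_i g_j = ∑ C(n,i) (i! f_i) (j! g_j)`, see `Schn/HurwitzInt.lean`), so powers are, and
`rescale s f` is Hurwitz for `s ∈ S` (`coeff_rescale`).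
Now `rescale (ν^2) (dirS U₁ U₂ U₃ l₁ l₂ a b c)` is the product of the powers of
`rescale ν (F₁)`, `rescale (ν X) F₂`, `rescale (C (ν l₁) + C (ν l₂) X) F₃` where
`F_i = map C (rescale ν U_i)` is Hurwitz by hypothesis (`n! ν^n coeff n U_i` integral); e.g.
`rescale (ν^2) (rescale (l₁ + l₂ X) (map C U₃)) = rescale (ν l₁ + ν l₂ X) (rescale ν (map C U₃))`.
So it is Hurwitz and its `k`-th coefficient is `ν^(2k) coeff k (dirS ..)`.  The second statement
follows because `frm` is a combination with integer coefficients.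
-/

namespace Pool.Agent.LGO.E3

open Polynomial

section Hur_aux

variable {K : IntermediateField ℚ ℂ}

/-- all coefficients are integral -/
private def Hur_P (f : K[X]) : Prop := ∀ i, IsIntegral ℤ (f.coeff i)

private theorem Hur_P_mul {f g : K[X]} (hf : Hur_P f) (hg : Hur_P g) : Hur_P (f * g) := by
  intro i
  rw [Polynomial.coeff_mul]
  exact IsIntegral.sum _ fun x _ => (hf _).mul (hg _)

private theorem Hur_P_add {f g : K[X]} (hf : Hur_P f) (hg : Hur_P g) : Hur_P (f + g) := by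
  intro i
  rw [Polynomial.coeff_add]
  exact (hf _).add (hg _)

private theorem Hur_P_C {x : K} (hx : IsIntegral ℤ x) : Hur_P (C x) := by
  intro i
  rw [Polynomial.coeff_C]
  split_ifs
  · exact hx
  · exact isIntegral_zero

private theorem Hur_P_X : Hur_P (X : K[X]) := by
  intro i
  rw [Polynomial.coeff_X]
  split_ifs
  · exact isIntegral_one
  · exact isIntegral_zero

private theorem Hur_nat (n : ℕ) : IsIntegral ℤ (n : K) := by
  have h := isIntegral_algebraMap (R := ℤ) (A := K) (x := (n : ℤ))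
  simpa using h

private theorem Hur_P_nat (n : ℕ) : Hur_P (n : K[X]) := by
  rw [← Polynomial.C_eq_natCast]
  exact Hur_P_C (Hur_nat n)

private theorem Hur_P_pow {f : K[X]} (hf : Hur_P f) (n : ℕ) : Hur_P (f ^ n) := by
  induction n with
  | zero =>
    rw [pow_zero]
    have := Hur_P_nat (K := K) 1
    rwa [Nat.cast_one] at this
  | succ n ih =>
    rw [pow_succ]
    exact Hur_P_mul ih hf

private theorem Hur_P_sum {ι : Type*} (s : Finset ι) {f : ι → K[X]} (hf : ∀ i ∈ s, Hur_P (f i)) :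
    Hur_P (∑ i ∈ s, f i) := by
  intro j
  rw [Polynomial.finsetSum_coeff]
  exact IsIntegral.sum _ fun x hx => hf x hx j

/-- Hurwitz integral power series over `K[X]` -/
private def Hur_H (f : PowerSeries K[X]) : Prop :=
  ∀ n : ℕ, Hur_P ((n.factorial : K[X]) * PowerSeries.coeff n f)

private theorem Hur_H_mul {f g : PowerSeries K[X]} (hf : Hur_H f) (hg : Hur_H g) :
    Hur_H (f * g) := by
  intro n
  rw [PowerSeries.coeff_mul, Finset.mul_sum]
  refine Hur_P_sum _ fun p hp => ?_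
  rw [Finset.HasAntidiagonal.mem_antidiagonal] at hp
  have h : ((n.choose p.1 : ℕ) : K[X]) * (p.1.factorial : K[X]) * (p.2.factorial : K[X])
      = (n.factorial : K[X]) := by
    rw [← hp]
    have h2 := Nat.choose_mul_factorial_mul_factorial (Nat.le_add_right p.1 p.2)
    rw [Nat.add_sub_cancel_left] at h2
    exact_mod_cast congrArg (Nat.cast (R := K[X])) h2
  have e : (n.factorial : K[X]) * (PowerSeries.coeff p.1 f * PowerSeries.coeff p.2 g) =
      ((n.choose p.1 : ℕ) : K[X]) * (((p.1.factorial : K[X]) * PowerSeries.coeff p.1 f) *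
        ((p.2.factorial : K[X]) * PowerSeries.coeff p.2 g)) := by
    rw [← h]
    ring
  rw [e]
  exact Hur_P_mul (Hur_P_nat _) (Hur_P_mul (hf _) (hg _))

private theorem Hur_H_pow {f : PowerSeries K[X]} (hf : Hur_H f) (a : ℕ) : Hur_H (f ^ a) := by
  induction a with
  | zero =>
    intro n
    rw [pow_zero, PowerSeries.coeff_one]
    split_ifs with h
    · rw [mul_one]
      exact Hur_P_nat _
    · rw [mul_zero]
      have := Hur_P_nat (K := K) 0
      rwa [Nat.cast_zero] at this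
  | succ a ih =>
    rw [pow_succ]
    exact Hur_H_mul ih hf

private theorem Hur_H_resc {ν : ℕ} {A : ℝ} {U : PowerSeries K} (h : Ar ν A U) {r : K[X]}
    (hr : Hur_P r) :
    Hur_H (PowerSeries.rescale (r * (ν : K[X])) (PowerSeries.map (C : K →+* K[X]) U)) := by
  intro n
  rw [PowerSeries.coeff_rescale, PowerSeries.coeff_map, mul_pow]
  have e : (n.factorial : K[X]) * (r ^ n * (ν : K[X]) ^ n * C (PowerSeries.coeff n U)) =
      r ^ n * C ((n.factorial : K) * (ν : K) ^ n * PowerSeries.coeff n U) := by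
    rw [C_mul, C_mul, C_pow, ← Polynomial.C_eq_natCast, ← Polynomial.C_eq_natCast]
    ring
  rw [e]
  exact Hur_P_mul (Hur_P_pow hr n) (Hur_P_C (h.int n))

private theorem Hur_dir {ν : ℕ} {A : ℝ} {U₁ U₂ U₃ : PowerSeries K}
    (h₁ : Ar ν A U₁) (h₂ : Ar ν A U₂) (h₃ : Ar ν A U₃) {l₁ l₂ : K}
    (hl₁ : IsIntegral ℤ ((ν : K) * l₁)) (hl₂ : IsIntegral ℤ ((ν : K) * l₂)) (a b c : ℕ) :
    Hur_H (PowerSeries.rescale ((ν : K[X]) * (ν : K[X])) (dirS U₁ U₂ U₃ l₁ l₂ a b c)) := by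
  unfold dirS
  rw [map_mul, map_mul, map_pow, map_pow, map_pow, PowerSeries.rescale_rescale,
    PowerSeries.rescale_rescale]
  have r1 : Hur_P ((ν : K[X])) := Hur_P_nat ν
  have r2 : Hur_P (X * (ν : K[X])) := Hur_P_mul Hur_P_X (Hur_P_nat ν)
  have r3 : Hur_P (C ((ν : K) * l₁) + C ((ν : K) * l₂) * X) :=
    Hur_P_add (Hur_P_C hl₁) (Hur_P_mul (Hur_P_C hl₂) Hur_P_X)
  have e2 : (X : K[X]) * ((ν : K[X]) * (ν : K[X])) = X * (ν : K[X]) * (ν : K[X]) := by ring
  have e3 : (C l₁ + C l₂ * X) * ((ν : K[X]) * (ν : K[X])) =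
      (C ((ν : K) * l₁) + C ((ν : K) * l₂) * X) * (ν : K[X]) := by
    rw [C_mul, C_mul, Polynomial.C_eq_natCast]
    ring
  rw [e2, e3]
  exact Hur_H_mul (Hur_H_mul (Hur_H_pow (Hur_H_resc h₁ r1) a) (Hur_H_pow (Hur_H_resc h₂ r2) b))
    (Hur_H_pow (Hur_H_resc h₃ r3) c)

end Hur_aux

theorem dirS_int {K : IntermediateField ℚ ℂ} {ν : ℕ} {A : ℝ} {U₁ U₂ U₃ : PowerSeries K}
    (h₁ : Ar ν A U₁) (h₂ : Ar ν A U₂) (h₃ : Ar ν A U₃) {l₁ l₂ : K}
    (hl₁ : IsIntegral ℤ ((ν : K) * l₁)) (hl₂ : IsIntegral ℤ ((ν : K) * l₂)) (a b c k i : ℕ) :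
    IsIntegral ℤ ((k.factorial : K) * (ν : K) ^ (2 * k) *
      (PowerSeries.coeff k (dirS U₁ U₂ U₃ l₁ l₂ a b c)).coeff i) := by
  have h := Hur_dir h₁ h₂ h₃ hl₁ hl₂ a b c k i
  rw [PowerSeries.coeff_rescale] at h
  have e : (k.factorial : K[X]) * (((ν : K[X]) * (ν : K[X])) ^ k *
      PowerSeries.coeff k (dirS U₁ U₂ U₃ l₁ l₂ a b c)) =
      C ((k.factorial : K) * (ν : K) ^ (2 * k)) *
        PowerSeries.coeff k (dirS U₁ U₂ U₃ l₁ l₂ a b c) := by
    rw [C_mul, C_pow, Polynomial.C_eq_natCast, Polynomial.C_eq_natCast, ← sq, ← pow_mul, mul_assoc]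
  rw [e, Polynomial.coeff_C_mul] at h
  exact h

theorem frm_int {K : IntermediateField ℚ ℂ} {ν : ℕ} {A : ℝ} {U₁ U₂ U₃ : PowerSeries K}
    (h₁ : Ar ν A U₁) (h₂ : Ar ν A U₂) (h₃ : Ar ν A U₃) {l₁ l₂ : K}
    (hl₁ : IsIntegral ℤ ((ν : K) * l₁)) (hl₂ : IsIntegral ℤ ((ν : K) * l₂)) (L L' : ℕ)
    (p : ℕ → ℕ → ℕ → ℤ) (k i : ℕ) :
    IsIntegral ℤ ((k.factorial : K) * (ν : K) ^ (2 * k) *
      (frm U₁ U₂ U₃ l₁ l₂ L L' p k).coeff i) := by
  unfold frm
  simp only [Polynomial.finsetSum_coeff, Finset.mul_sum]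
  refine IsIntegral.sum _ fun a _ => IsIntegral.sum _ fun b _ => IsIntegral.sum _ fun c _ => ?_
  have hp : IsIntegral ℤ ((p a b c : ℤ) : K) := by
    have h := isIntegral_algebraMap (R := ℤ) (A := K) (x := p a b c)
    simpa using h
  have e : (k.factorial : K) * (ν : K) ^ (2 * k) *
      (((p a b c : ℤ) : K[X]) * PowerSeries.coeff k (dirS U₁ U₂ U₃ l₁ l₂ a b c)).coeff i =
      ((p a b c : ℤ) : K) * ((k.factorial : K) * (ν : K) ^ (2 * k) *
        (PowerSeries.coeff k (dirS U₁ U₂ U₃ l₁ l₂ a b c)).coeff i) := by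
    rw [← Polynomial.C_eq_intCast, Polynomial.coeff_C_mul]
    ring
  rw [e]
  exact hp.mul (dirS_int h₁ h₂ h₃ hl₁ hl₂ a b c k i)

/-- the denominator may be replaced by a multiple, the bound by a larger one -/
theorem Ar.mono {K : IntermediateField ℚ ℂ} {ν : ℕ} {A : ℝ} {U : PowerSeries K} (h : Ar ν A U)
    (hA : 0 ≤ A) (m : ℕ) {A' : ℝ} (hA' : A ≤ A') : Ar (ν * m) A' U := by
  refine ⟨h.z0, fun n => ?_, fun σ n => (h.bd σ n).trans (pow_le_pow_left₀ hA hA' n)⟩
  have e : (n.factorial : K) * ((ν * m : ℕ) : K) ^ n * PowerSeries.coeff n U =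
      (m : K) ^ n * ((n.factorial : K) * (ν : K) ^ n * PowerSeries.coeff n U) := by
    rw [Nat.cast_mul, mul_pow]
    ring
  rw [e]
  exact ((Hur_nat m).pow n).mul (h.int n)

end Pool.Agent.LGO.E3
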