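import Pool.Agent.LGO.E3.FrmMap

/-!
# LGO, engine 3, module Maj: size of the conjugates of the coefficients

Proof.  Fix `σ : K →+* ℂ`.  For a power series `f` over `ℂ[X]` and `r = 1 / (4 A²)` say `MajP f M` if
`∑_{n < m} ‖coeff n f‖₁ r^n ≤ M` for all `m`, where `‖q‖₁ = ∑_i ‖q.coeff i‖` (sum over the support or
`range (natDegree + 1)`), which is submultiplicative.  `MajP f M`, `MajP g M'` imply
`MajP (f g) (M M')` (as `maj_mul` in `Schn/MonoBound.lean`), so powers of series with `MajP f 1`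
satisfy it.  Apply this to the images `V_i` of `U_i` under `σ` (`‖coeff n V_i‖ ≤ A^n`, coefficient `0`
vanishes), `m_i = σ l_i`:
* `map C V₁`: `∑_{n ≥ 1} A^n r^n ≤ ∑_{n ≥ 1} 4^(-n) ≤ 1` (as `A r = 1 / (4 A) ≤ 1/4`);
* `rescale X (map C V₂)`: the same;
* `rescale (C m₁ + C m₂ X) (map C V₃)`: `‖(m₁ + m₂ X)^n‖₁ ≤ (2 A)^n`,
  `∑_{n ≥ 1} (2 A²)^n r^n = ∑_{n ≥ 1} 2^(-n) ≤ 1`.
So `MajP (dirS V₁ V₂ V₃ m₁ m₂ a b c) 1`, and the `k`-th coefficient has `‖·‖₁ ≤ r^(-k) = (4 A²)^k`.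
(`σ` of the coefficient of `dirS` over `K` is the coefficient of `dirS` of the images:
`map_dirS` in `FrmMap.lean`.)
-/

namespace Pool.Agent.LGO.E3

open Polynomial

/-- the sum of the norms of the coefficients -/
private noncomputable def Maj_N (q : ℂ[X]) : ℝ := ∑ i ∈ q.support, ‖q.coeff i‖

private lemma Maj_N_eq (q : ℂ[X]) (s : Finset ℕ) (h : q.support ⊆ s) :
    Maj_N q = ∑ i ∈ s, ‖q.coeff i‖ := by
  rw [Maj_N]
  refine Finset.sum_subset h fun i _ hi => ?_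
  rw [notMem_support_iff.1 hi, norm_zero]

private lemma Maj_N_nonneg (q : ℂ[X]) : 0 ≤ Maj_N q :=
  Finset.sum_nonneg fun _ _ => norm_nonneg _

private lemma Maj_coeff_le (q : ℂ[X]) (i : ℕ) : ‖q.coeff i‖ ≤ Maj_N q := by
  by_cases hi : i ∈ q.support
  · exact Finset.single_le_sum (f := fun i => ‖q.coeff i‖) (fun _ _ => norm_nonneg _) hi
  · rw [notMem_support_iff.1 hi, norm_zero]
    exact Maj_N_nonneg q

private lemma Maj_N_zero : Maj_N 0 = 0 := by
  rw [Maj_N, support_zero, Finset.sum_empty]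

private lemma Maj_N_add (p q : ℂ[X]) : Maj_N (p + q) ≤ Maj_N p + Maj_N q := by
  classical
  rw [Maj_N_eq (p + q) (p.support ∪ q.support) support_add,
    Maj_N_eq p (p.support ∪ q.support) Finset.subset_union_left,
    Maj_N_eq q (p.support ∪ q.support) Finset.subset_union_right, ← Finset.sum_add_distrib]
  refine Finset.sum_le_sum fun i _ => ?_
  rw [coeff_add]
  exact norm_add_le _ _

private lemma Maj_N_sum {ι : Type*} (s : Finset ι) (f : ι → ℂ[X]) :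
    Maj_N (∑ i ∈ s, f i) ≤ ∑ i ∈ s, Maj_N (f i) := by
  classical
  induction s using Finset.induction_on with
  | empty => rw [Finset.sum_empty, Finset.sum_empty, Maj_N_zero]
  | insert a s ha ih =>
    rw [Finset.sum_insert ha, Finset.sum_insert ha]
    exact (Maj_N_add _ _).trans (add_le_add le_rfl ih)

private lemma Maj_N_monomial (n : ℕ) (a : ℂ) : Maj_N (monomial n a) ≤ ‖a‖ := by
  classical
  rw [Maj_N_eq _ {n} (support_monomial_subset n a), Finset.sum_singleton, coeff_monomial,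
    if_pos rfl]

private lemma Maj_N_C (a : ℂ) : Maj_N (C a) ≤ ‖a‖ := by
  rw [← monomial_zero_left]
  exact Maj_N_monomial 0 a

private lemma Maj_N_one : Maj_N 1 ≤ 1 := by
  have h := Maj_N_C 1
  rwa [C_1, norm_one] at h

private lemma Maj_N_X : Maj_N X ≤ 1 := by
  have h := Maj_N_monomial 1 1
  rwa [monomial_one_one_eq_X, norm_one] at h

private lemma Maj_N_mul (p q : ℂ[X]) : Maj_N (p * q) ≤ Maj_N p * Maj_N q := by
  rw [mul_eq_sum_sum]
  refine (Maj_N_sum _ _).trans ?_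
  rw [Maj_N, Finset.sum_mul]
  refine Finset.sum_le_sum fun i _ => ?_
  rw [Polynomial.sum]
  refine (Maj_N_sum _ _).trans ?_
  rw [Maj_N, Finset.mul_sum]
  refine Finset.sum_le_sum fun j _ => ?_
  refine (Maj_N_monomial _ _).trans ?_
  rw [norm_mul]

private lemma Maj_N_pow {q : ℂ[X]} {B : ℝ} (h : Maj_N q ≤ B) (n : ℕ) : Maj_N (q ^ n) ≤ B ^ n := by
  have hB : 0 ≤ B := (Maj_N_nonneg q).trans h
  induction n with
  | zero =>
    rw [pow_zero, pow_zero]
    exact Maj_N_one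
  | succ n ih =>
    rw [pow_succ, pow_succ]
    exact (Maj_N_mul _ _).trans (mul_le_mul ih h (Maj_N_nonneg q) (pow_nonneg hB n))

private def MajP (r : ℝ) (f : PowerSeries ℂ[X]) (M : ℝ) : Prop :=
  ∀ n : ℕ, ∑ i ∈ Finset.range n, Maj_N (PowerSeries.coeff i f) * r ^ i ≤ M

private lemma Maj_mul {r : ℝ} (hr : 0 ≤ r) {f g : PowerSeries ℂ[X]} {M M' : ℝ} (hf : MajP r f M)
    (hg : MajP r g M') : MajP r (f * g) (M * M') := by
  classical
  intro m
  set F : ℕ → ℝ := fun i => Maj_N (PowerSeries.coeff i f) * r ^ i with hF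
  set G : ℕ → ℝ := fun i => Maj_N (PowerSeries.coeff i g) * r ^ i with hG
  have hF0 : ∀ i, 0 ≤ F i := fun i => mul_nonneg (Maj_N_nonneg _) (pow_nonneg hr _)
  have hG0 : ∀ i, 0 ≤ G i := fun i => mul_nonneg (Maj_N_nonneg _) (pow_nonneg hr _)
  have h1 : ∀ n, Maj_N (PowerSeries.coeff n (f * g)) * r ^ n ≤
      ∑ p ∈ Finset.HasAntidiagonal.antidiagonal n, F p.1 * G p.2 := by
    intro n
    rw [PowerSeries.coeff_mul]
    calc Maj_N (∑ p ∈ Finset.HasAntidiagonal.antidiagonal n,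
          PowerSeries.coeff p.1 f * PowerSeries.coeff p.2 g) * r ^ n
        ≤ (∑ p ∈ Finset.HasAntidiagonal.antidiagonal n,
            Maj_N (PowerSeries.coeff p.1 f) * Maj_N (PowerSeries.coeff p.2 g)) * r ^ n := by
          refine mul_le_mul_of_nonneg_right ?_ (pow_nonneg hr _)
          exact (Maj_N_sum _ _).trans (Finset.sum_le_sum fun p _ => Maj_N_mul _ _)
      _ = ∑ p ∈ Finset.HasAntidiagonal.antidiagonal n, F p.1 * G p.2 := by
          rw [Finset.sum_mul]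
          refine Finset.sum_congr rfl fun p hp => ?_
          have hp' : p.1 + p.2 = n := Finset.HasAntidiagonal.mem_antidiagonal.1 hp
          rw [← hp', pow_add]
          simp only [hF, hG]
          ring
  have h2 : ∑ n ∈ Finset.range m, ∑ p ∈ Finset.HasAntidiagonal.antidiagonal n, F p.1 * G p.2 ≤
      ∑ p ∈ Finset.range m ×ˢ Finset.range m, F p.1 * G p.2 := by
    rw [← Finset.sum_sigma (Finset.range m) (fun n => Finset.HasAntidiagonal.antidiagonal n)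
      (fun x => F x.2.1 * G x.2.2)]
    have hinj : Set.InjOn (fun x : (Σ _ : ℕ, ℕ × ℕ) => x.2)
        ((Finset.range m).sigma fun n => Finset.HasAntidiagonal.antidiagonal n :
          Finset (Σ _ : ℕ, ℕ × ℕ)) := by
      rintro ⟨n, p⟩ hx ⟨n', p'⟩ hx' h
      simp only [Finset.coe_sigma, Set.mem_sigma_iff, Finset.mem_coe,
        Finset.HasAntidiagonal.mem_antidiagonal] at hx hx' h
      subst h
      have : n = n' := by rw [← hx.2, ← hx'.2]
      subst this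
      rfl
    rw [← Finset.sum_image (f := fun p : ℕ × ℕ => F p.1 * G p.2) hinj]
    refine Finset.sum_le_sum_of_subset_of_nonneg ?_ ?_
    · intro p hp
      obtain ⟨⟨n, q⟩, hx, rfl⟩ := Finset.mem_image.1 hp
      simp only [Finset.mem_sigma, Finset.mem_range, Finset.HasAntidiagonal.mem_antidiagonal] at hx
      simp only [Finset.mem_product, Finset.mem_range]
      omega
    · intro p _ _
      exact mul_nonneg (hF0 _) (hG0 _)
  have h3 : ∑ p ∈ Finset.range m ×ˢ Finset.range m, F p.1 * G p.2 =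
      (∑ i ∈ Finset.range m, F i) * ∑ j ∈ Finset.range m, G j := by
    rw [Finset.sum_product, Finset.sum_mul_sum]
  calc ∑ n ∈ Finset.range m, Maj_N (PowerSeries.coeff n (f * g)) * r ^ n
      ≤ ∑ n ∈ Finset.range m, ∑ p ∈ Finset.HasAntidiagonal.antidiagonal n, F p.1 * G p.2 :=
        Finset.sum_le_sum fun n _ => h1 n
    _ ≤ (∑ i ∈ Finset.range m, F i) * ∑ j ∈ Finset.range m, G j := h2.trans h3.le
    _ ≤ M * M' := by
        have hM : 0 ≤ M := le_trans (Finset.sum_nonneg fun i _ => hF0 i) (hf m)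
        exact mul_le_mul (hf m) (hg m) (Finset.sum_nonneg fun i _ => hG0 i) hM

private lemma Maj_one {r : ℝ} : MajP r 1 1 := by
  intro m
  have h : ∀ i, Maj_N (PowerSeries.coeff i (1 : PowerSeries ℂ[X])) * r ^ i =
      if i = 0 then Maj_N 1 else 0 := by
    intro i
    rw [PowerSeries.coeff_one]
    split_ifs with hi
    · rw [hi, pow_zero, mul_one]
    · rw [Maj_N_zero, zero_mul]
  rw [Finset.sum_congr rfl fun i _ => h i, Finset.sum_ite_eq']
  split_ifs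
  · exact Maj_N_one
  · exact zero_le_one

private lemma Maj_pow {r : ℝ} (hr : 0 ≤ r) {f : PowerSeries ℂ[X]} (hf : MajP r f 1) (k : ℕ) :
    MajP r (f ^ k) 1 := by
  induction k with
  | zero =>
    rw [pow_zero]
    exact Maj_one
  | succ k ih =>
    have h := Maj_mul hr ih hf
    rwa [mul_one, ← pow_succ] at h

private lemma Maj_geom (x : ℝ) (hx0 : 0 ≤ x) (hx : x ≤ 1 / 2) (m : ℕ) :
    ∑ i ∈ Finset.range m, (if i = 0 then 0 else x ^ i) ≤ 1 := by
  have h : ∀ m : ℕ, ∑ i ∈ Finset.range (m + 1), (if i = 0 then 0 else x ^ i) ≤ 1 - (1 / 2) ^ m := by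
    intro m
    induction m with
    | zero => simp
    | succ m ih =>
      rw [Finset.sum_range_succ, if_neg (Nat.succ_ne_zero m)]
      have h1 : x ^ (m + 1) ≤ (1 / 2) ^ (m + 1) := pow_le_pow_left₀ hx0 hx _
      have h2 : (1 / 2 : ℝ) ^ m = 2 * (1 / 2) ^ (m + 1) := by
        rw [pow_succ]
        ring
      linarith
  rcases m with _ | m
  · simp
  · refine (h m).trans ?_
    have : (0 : ℝ) ≤ (1 / 2) ^ m := by positivity
    linarith

private lemma Maj_resc {r A B : ℝ} (hr : 0 ≤ r) (hA : 0 ≤ A) (hB : 0 ≤ B)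
    (hx : B * A * r ≤ 1 / 2) {w : ℂ[X]} (hw : Maj_N w ≤ B) {V : PowerSeries ℂ}
    (h0 : PowerSeries.coeff 0 V = 0) (hV : ∀ n, ‖PowerSeries.coeff n V‖ ≤ A ^ n) :
    MajP r (PowerSeries.rescale w (PowerSeries.map (C : ℂ →+* ℂ[X]) V)) 1 := by
  intro m
  refine (Finset.sum_le_sum fun i _ => ?_).trans (Maj_geom (B * A * r) (by positivity) hx m)
  rw [PowerSeries.coeff_rescale, PowerSeries.coeff_map]
  split_ifs with hi
  · rw [hi, h0, map_zero, mul_zero, Maj_N_zero, zero_mul]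
  · rw [mul_pow]
    refine mul_le_mul_of_nonneg_right ?_ (pow_nonneg hr _)
    rw [mul_pow]
    exact (Maj_N_mul _ _).trans (mul_le_mul (Maj_N_pow hw i) ((Maj_N_C _).trans (hV i))
      (Maj_N_nonneg _) (pow_nonneg hB _))

private lemma Maj_dirS {A : ℝ} (hA : 1 ≤ A) {V₁ V₂ V₃ : PowerSeries ℂ}
    (h₁ : PowerSeries.coeff 0 V₁ = 0) (h₂ : PowerSeries.coeff 0 V₂ = 0)
    (h₃ : PowerSeries.coeff 0 V₃ = 0) (b₁ : ∀ n, ‖PowerSeries.coeff n V₁‖ ≤ A ^ n)
    (b₂ : ∀ n, ‖PowerSeries.coeff n V₂‖ ≤ A ^ n) (b₃ : ∀ n, ‖PowerSeries.coeff n V₃‖ ≤ A ^ n)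
    {m₁ m₂ : ℂ} (hm₁ : ‖m₁‖ ≤ A) (hm₂ : ‖m₂‖ ≤ A) (a b c k i : ℕ) :
    ‖(PowerSeries.coeff k (dirS V₁ V₂ V₃ m₁ m₂ a b c)).coeff i‖ ≤ (4 * A ^ 2) ^ k := by
  have hA0 : 0 < A := by linarith
  set r : ℝ := 1 / (4 * A ^ 2) with hr
  have hr0 : 0 < r := by positivity
  have e1 : A * r = 1 / (4 * A) := by
    rw [hr]
    field_simp
  have e2 : 1 / (4 * A) ≤ 1 / 2 := by
    apply one_div_le_one_div_of_le <;> linarith
  have hx1 : 1 * A * r ≤ 1 / 2 := by
    rw [one_mul, e1]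
    exact e2
  have hx2 : (2 * A) * A * r ≤ 1 / 2 := by
    have : (2 * A) * A * r = 1 / 2 := by
      rw [hr]
      field_simp
      norm_num
    exact this.le
  have c1 : MajP r (PowerSeries.map (C : ℂ →+* ℂ[X]) V₁) 1 := by
    have h := Maj_resc hr0.le hA0.le zero_le_one hx1 Maj_N_one h₁ b₁
    rwa [PowerSeries.rescale_one, RingHom.id_apply] at h
  have c2 := Maj_resc hr0.le hA0.le zero_le_one hx1 Maj_N_X h₂ b₂
  have hw : Maj_N (C m₁ + C m₂ * X) ≤ 2 * A := by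
    have h1 := Maj_N_add (C m₁) (C m₂ * X)
    have h2 : Maj_N (C m₂ * X) ≤ A * 1 :=
      (Maj_N_mul _ _).trans (mul_le_mul ((Maj_N_C _).trans hm₂) Maj_N_X (Maj_N_nonneg _) hA0.le)
    have h3 : Maj_N (C m₁) ≤ A := (Maj_N_C _).trans hm₁
    linarith
  have c3 := Maj_resc hr0.le hA0.le (by positivity) hx2 hw h₃ b₃
  have hmain : MajP r (dirS V₁ V₂ V₃ m₁ m₂ a b c) 1 := by
    have h := Maj_mul hr0.le (Maj_mul hr0.le (Maj_pow hr0.le c1 a) (Maj_pow hr0.le c2 b))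
      (Maj_pow hr0.le c3 c)
    rw [mul_one, mul_one] at h
    exact h
  have h4 : Maj_N (PowerSeries.coeff k (dirS V₁ V₂ V₃ m₁ m₂ a b c)) * r ^ k ≤ 1 := by
    refine le_trans ?_ (hmain (k + 1))
    exact Finset.single_le_sum
      (f := fun i => Maj_N (PowerSeries.coeff i (dirS V₁ V₂ V₃ m₁ m₂ a b c)) * r ^ i)
      (fun j _ => mul_nonneg (Maj_N_nonneg _) (pow_nonneg hr0.le _))
      (Finset.mem_range.2 (Nat.lt_succ_self k))
  have h5 : (4 * A ^ 2) ^ k * r ^ k = 1 := by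
    rw [← mul_pow, hr, mul_one_div_cancel (by positivity), one_pow]
  have h6 : Maj_N (PowerSeries.coeff k (dirS V₁ V₂ V₃ m₁ m₂ a b c)) ≤ (4 * A ^ 2) ^ k := by
    rw [← h5] at h4
    exact le_of_mul_le_mul_right h4 (pow_pos hr0 k)
  exact (Maj_coeff_le _ i).trans h6

theorem dirS_bd {K : IntermediateField ℚ ℂ} {ν : ℕ} {A : ℝ} (hA : 1 ≤ A)
    {U₁ U₂ U₃ : PowerSeries K} (h₁ : Ar ν A U₁) (h₂ : Ar ν A U₂) (h₃ : Ar ν A U₃) {l₁ l₂ : K}
    (σ : K →+* ℂ) (hl₁ : ‖σ l₁‖ ≤ A) (hl₂ : ‖σ l₂‖ ≤ A) (a b c k i : ℕ) :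
    ‖σ ((PowerSeries.coeff k (dirS U₁ U₂ U₃ l₁ l₂ a b c)).coeff i)‖ ≤ (4 * A ^ 2) ^ k := by
  rw [← coeff_map, map_dirS]
  refine Maj_dirS hA ?_ ?_ ?_ ?_ ?_ ?_ hl₁ hl₂ a b c k i
  · rw [PowerSeries.coeff_map, h₁.z0, map_zero]
  · rw [PowerSeries.coeff_map, h₂.z0, map_zero]
  · rw [PowerSeries.coeff_map, h₃.z0, map_zero]
  · intro n
    rw [PowerSeries.coeff_map]
    exact h₁.bd σ n
  · intro n
    rw [PowerSeries.coeff_map]
    exact h₂.bd σ n
  · intro n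
    rw [PowerSeries.coeff_map]
    exact h₃.bd σ n

theorem frm_bd {K : IntermediateField ℚ ℂ} {ν : ℕ} {A : ℝ} (hA : 1 ≤ A)
    {U₁ U₂ U₃ : PowerSeries K} (h₁ : Ar ν A U₁) (h₂ : Ar ν A U₂) (h₃ : Ar ν A U₃) {l₁ l₂ : K}
    (σ : K →+* ℂ) (hl₁ : ‖σ l₁‖ ≤ A) (hl₂ : ‖σ l₂‖ ≤ A) (L L' : ℕ) (p : ℕ → ℕ → ℕ → ℤ) (P : ℝ)
    (hp : ∀ a b c, |(p a b c : ℝ)| ≤ P) (k i : ℕ) :
    ‖σ ((frm U₁ U₂ U₃ l₁ l₂ L L' p k).coeff i)‖ ≤ L ^ 2 * L' * P * (4 * A ^ 2) ^ k := by
  have hP : 0 ≤ P := (abs_nonneg _).trans (hp 0 0 0)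
  have hterm : ∀ a b c, ‖σ (((p a b c : K[X]) *
      PowerSeries.coeff k (dirS U₁ U₂ U₃ l₁ l₂ a b c)).coeff i)‖ ≤ P * (4 * A ^ 2) ^ k := by
    intro a b c
    have e : ((p a b c : K[X])) = C ((p a b c : ℤ) : K) := by
      rw [Polynomial.C_eq_intCast]
    rw [e, coeff_C_mul, map_mul, map_intCast, norm_mul]
    refine mul_le_mul ?_ (dirS_bd hA h₁ h₂ h₃ σ hl₁ hl₂ a b c k i) (norm_nonneg _) hP
    rw [Complex.norm_intCast]
    exact hp a b c
  have h1 : σ ((frm U₁ U₂ U₃ l₁ l₂ L L' p k).coeff i) =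
      ∑ a ∈ Finset.range L, ∑ b ∈ Finset.range L, ∑ c ∈ Finset.range L',
        σ (((p a b c : K[X]) * PowerSeries.coeff k (dirS U₁ U₂ U₃ l₁ l₂ a b c)).coeff i) := by
    rw [frm, finsetSum_coeff, map_sum]
    refine Finset.sum_congr rfl fun a _ => ?_
    rw [finsetSum_coeff, map_sum]
    refine Finset.sum_congr rfl fun b _ => ?_
    rw [finsetSum_coeff, map_sum]
  rw [h1]
  calc _ ≤ ∑ a ∈ Finset.range L, ∑ b ∈ Finset.range L, ∑ c ∈ Finset.range L',
        P * (4 * A ^ 2) ^ k := by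
        refine (norm_sum_le _ _).trans (Finset.sum_le_sum fun a _ => ?_)
        refine (norm_sum_le _ _).trans (Finset.sum_le_sum fun b _ => ?_)
        exact (norm_sum_le _ _).trans (Finset.sum_le_sum fun c _ => hterm a b c)
    _ = L ^ 2 * L' * P * (4 * A ^ 2) ^ k := by
        simp only [Finset.sum_const, Finset.card_range, nsmul_eq_mul]
        ring

end Pool.Agent.LGO.E3
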