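import Pool.Agent.LGO.E3.FrmMap
import Pool.Agent.LGO.E3.Hur
import Pool.Agent.LGO.E3.Maj

/-!
# LGO, engine 3, module AuxP: choice of the auxiliary polynomial

`siegel` is the hypothesis (uniform Siegel lemma, to be taken from the common base): for a matrix `A`
of `m` rows and `n` columns over the integers of `K`, `4 [K : ℚ] m ≤ n`, `0 < n`, all conjugates of the
entries of absolute value `≤ B`, `1 ≤ B`, there is a nonzero integer vector `x` with `A x = 0` and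
`|x_j| ≤ 4 n B + 1`.

Proof.  Parameters: `L = 4 m a² t`, `L' = 4 m a²`, `N = 4 m a³ t` (`N` = number of orders).  Unknowns
`p a b c`, `a, b < L`, `c < L'`: `n = L² L' = 64 m³ a⁶ t²` of them.  Equations: for `k < N`, `i < N`
the `i`-th coefficient of `frm .. k` (the coefficients with `i > k` vanish by `natDegree_frm`) times
`k! ν^(2k)` is `0`: `N² = 16 m² a⁶ t²` equations, `4 [K : ℚ] N² ≤ 4 m N² = n`.  The coefficients of the
equations, `k! ν^(2k) (coeff k (dirS .. a b c)).coeff i`, are integral (`dirS_int`), their conjugates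
are `≤ N! ν^(2N) (4 A²)^N` (`dirS_bd`, `k < N`, `k! ≤ N!`, `ν ≥ 1`, `4 A² ≥ 1`).  Put `p = 0` outside
the range.  Then `|p| ≤ 4 L² L' B + 1 ≤ 5 L² L' B`.
-/

namespace Pool.Agent.LGO.E3

open Polynomial

/-- statement of the uniform Siegel lemma -/
def SiegelSt (K : IntermediateField ℚ ℂ) : Prop :=
  ∀ (m n : ℕ), 0 < n → 4 * Module.finrank ℚ K * m ≤ n → ∀ (B : ℝ), 1 ≤ B →
    ∀ (A : Matrix (Fin m) (Fin n) K), (∀ i j, IsIntegral ℤ (A i j)) →
    (∀ i j (σ : K →+* ℂ), ‖σ (A i j)‖ ≤ B) →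
    ∃ x : Fin n → ℤ, x ≠ 0 ∧ (∀ i, ∑ j, A i j * (x j : K) = 0) ∧ ∀ j, |(x j : ℝ)| ≤ 4 * n * B + 1

/-- Siegel's lemma for arbitrary finite index types -/
theorem SiegelSt.fintype {K : IntermediateField ℚ ℂ} (siegel : SiegelSt K) {ι κ : Type}
    [Fintype ι] [Fintype κ] (h0 : 0 < Fintype.card κ)
    (hc : 4 * Module.finrank ℚ K * Fintype.card ι ≤ Fintype.card κ) {B : ℝ} (hB : 1 ≤ B)
    (M : ι → κ → K) (hi : ∀ i j, IsIntegral ℤ (M i j))
    (hb : ∀ i j (σ : K →+* ℂ), ‖σ (M i j)‖ ≤ B) :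
    ∃ x : κ → ℤ, (∃ j, x j ≠ 0) ∧ (∀ i, ∑ j, M i j * (x j : K) = 0) ∧
      ∀ j, |(x j : ℝ)| ≤ 4 * Fintype.card κ * B + 1 := by
  let e := Fintype.equivFin κ
  let e' := Fintype.equivFin ι
  obtain ⟨x, hx0, hx, hxb⟩ := siegel (Fintype.card ι) (Fintype.card κ) h0 hc B hB
    (fun i j => M (e'.symm i) (e.symm j)) (fun i j => hi _ _) (fun i j σ => hb _ _ σ)
  refine ⟨fun j => x (e j), ?_, fun i => ?_, fun j => hxb _⟩
  · by_contra hne
    push Not at hne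
    apply hx0
    funext j
    have := hne (e.symm j)
    simpa using this
  · have := hx (e' i)
    rw [← e.sum_comp] at this
    simpa using this

theorem exists_p {K : IntermediateField ℚ ℂ} [FiniteDimensional ℚ K] (siegel : SiegelSt K)
    {ν : ℕ} (hν : 1 ≤ ν) {A : ℝ} (hA : 1 ≤ A) {U₁ U₂ U₃ : PowerSeries K} (h₁ : Ar ν A U₁)
    (h₂ : Ar ν A U₂) (h₃ : Ar ν A U₃) {l₁ l₂ : K} (hl₁ : IsIntegral ℤ ((ν : K) * l₁))
    (hl₂ : IsIntegral ℤ ((ν : K) * l₂)) (bl₁ : ∀ σ : K →+* ℂ, ‖σ l₁‖ ≤ A)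
    (bl₂ : ∀ σ : K →+* ℂ, ‖σ l₂‖ ≤ A) (m a t : ℕ) (hm : Module.finrank ℚ K ≤ m) (ha : 1 ≤ a)
    (ht : 1 ≤ t) :
    ∃ p : ℕ → ℕ → ℕ → ℤ,
      (∃ i < 4 * m * a ^ 2 * t, ∃ j < 4 * m * a ^ 2 * t, ∃ k < 4 * m * a ^ 2, p i j k ≠ 0) ∧
      (∀ k < 4 * m * a ^ 3 * t,
        frm U₁ U₂ U₃ l₁ l₂ (4 * m * a ^ 2 * t) (4 * m * a ^ 2) p k = 0) ∧
      ∀ i j k, |(p i j k : ℝ)| ≤ 5 * (4 * m * a ^ 2 * t) ^ 2 * (4 * m * a ^ 2) *
        ((4 * m * a ^ 3 * t).factorial * (ν : ℝ) ^ (2 * (4 * m * a ^ 3 * t)) *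
          (4 * A ^ 2) ^ (4 * m * a ^ 3 * t)) := by
  classical
  have hKpos : 0 < Module.finrank ℚ K := Module.finrank_pos
  have hm1 : 1 ≤ m := le_trans hKpos hm
  set L := 4 * m * a ^ 2 * t with hL
  set L' := 4 * m * a ^ 2 with hL'
  set N := 4 * m * a ^ 3 * t with hN
  have hLpos : 0 < L := by positivity
  have hLpos' : 0 < L' := by positivity
  set B : ℝ := (N.factorial * (ν : ℝ) ^ (2 * N) * (4 * A ^ 2) ^ N) with hB
  have hν' : (1 : ℝ) ≤ ν := by exact_mod_cast hν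
  have hA2 : (1 : ℝ) ≤ 4 * A ^ 2 := by nlinarith
  have hf1 : (1 : ℝ) ≤ N.factorial := by exact_mod_cast N.factorial_pos
  have hB1 : 1 ≤ B := by
    have h1 : (1 : ℝ) ≤ (ν : ℝ) ^ (2 * N) := one_le_pow₀ hν'
    have h2 : (1 : ℝ) ≤ (4 * A ^ 2) ^ N := one_le_pow₀ hA2
    have h3 : (1 : ℝ) ≤ N.factorial * (ν : ℝ) ^ (2 * N) := one_le_mul_of_one_le_of_one_le hf1 h1
    exact one_le_mul_of_one_le_of_one_le h3 h2
  have hcard : Fintype.card ((Fin L × Fin L) × Fin L') = L * L * L' := by simp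
  have hcard' : Fintype.card (Fin N × Fin N) = N * N := by simp
  obtain ⟨x, ⟨j0, hj0⟩, hx, hxb⟩ := siegel.fintype (ι := Fin N × Fin N)
    (κ := (Fin L × Fin L) × Fin L') (B := B)
    (by rw [hcard]; positivity)
    (by
      rw [hcard, hcard']
      calc 4 * Module.finrank ℚ K * (N * N) ≤ 4 * m * (N * N) := by gcongr
        _ = L * L * L' := by rw [hL, hL', hN]; ring)
    hB1
    (fun i j => ((i.1 : ℕ).factorial : K) * (ν : K) ^ (2 * (i.1 : ℕ)) *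
      (PowerSeries.coeff (i.1 : ℕ) (dirS U₁ U₂ U₃ l₁ l₂ (j.1.1 : ℕ) (j.1.2 : ℕ) (j.2 : ℕ))).coeff
        (i.2 : ℕ))
    (fun i j => dirS_int h₁ h₂ h₃ hl₁ hl₂ _ _ _ _ _)
    (fun i j σ => by
      have hk : (i.1 : ℕ) ≤ N := i.1.2.le
      have hbd := dirS_bd hA h₁ h₂ h₃ σ (bl₁ σ) (bl₂ σ) (j.1.1 : ℕ) (j.1.2 : ℕ) (j.2 : ℕ)
        (i.1 : ℕ) (i.2 : ℕ)
      rw [map_mul, map_mul, map_pow, map_natCast, map_natCast, norm_mul, norm_mul, norm_pow,
        Complex.norm_natCast, Complex.norm_natCast]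
      have e1 : (((i.1 : ℕ).factorial : ℕ) : ℝ) ≤ N.factorial := by
        exact_mod_cast Nat.factorial_le hk
      have e2 : (ν : ℝ) ^ (2 * (i.1 : ℕ)) ≤ (ν : ℝ) ^ (2 * N) :=
        pow_le_pow_right₀ hν' (by omega)
      have e3 : (4 * A ^ 2) ^ (i.1 : ℕ) ≤ (4 * A ^ 2) ^ N := pow_le_pow_right₀ hA2 hk
      rw [hB]
      gcongr
      exact hbd.trans e3)
  have hfrm : ∀ k i, k < N → i < N → ∀ p : ℕ → ℕ → ℕ → ℤ,
      (∀ j : (Fin L × Fin L) × Fin L', p (j.1.1 : ℕ) (j.1.2 : ℕ) (j.2 : ℕ) = x j) →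
      (frm U₁ U₂ U₃ l₁ l₂ L L' p k).coeff i = 0 := by
    intro k i hk hi p hp
    have hc : (frm U₁ U₂ U₃ l₁ l₂ L L' p k).coeff i =
        ∑ j : (Fin L × Fin L) × Fin L', (x j : K) *
          (PowerSeries.coeff k (dirS U₁ U₂ U₃ l₁ l₂ (j.1.1 : ℕ) (j.1.2 : ℕ) (j.2 : ℕ))).coeff i := by
      rw [frm, Polynomial.finsetSum_coeff, Fintype.sum_prod_type, Fintype.sum_prod_type,
        Finset.sum_range]
      refine Finset.sum_congr rfl fun a' _ => ?_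
      rw [Polynomial.finsetSum_coeff, Finset.sum_range]
      refine Finset.sum_congr rfl fun b' _ => ?_
      rw [Polynomial.finsetSum_coeff, Finset.sum_range]
      refine Finset.sum_congr rfl fun c' _ => ?_
      have := hp ((a', b'), c')
      simp only at this
      rw [this, ← Polynomial.C_eq_intCast, Polynomial.coeff_C_mul]
    have h := hx (⟨k, hk⟩, ⟨i, hi⟩)
    simp only at h
    have h' : ((k.factorial : K) * (ν : K) ^ (2 * k)) *
        (frm U₁ U₂ U₃ l₁ l₂ L L' p k).coeff i = 0 := by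
      rw [hc, Finset.mul_sum, ← h]
      refine Finset.sum_congr rfl fun j _ => ?_
      ring
    rcases mul_eq_zero.1 h' with h'' | h''
    · exfalso
      rcases mul_eq_zero.1 h'' with h3 | h3
      · exact (Nat.factorial_ne_zero k) (by exact_mod_cast h3)
      · have h5 : (ν : K) = 0 := by
          by_contra hne
          exact (pow_ne_zero _ hne) h3
        have : ν = 0 := by exact_mod_cast h5
        omega
    · exact h''
  let p : ℕ → ℕ → ℕ → ℤ := fun a' b' c' =>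
    if h : a' < L ∧ b' < L ∧ c' < L' then x ((⟨a', h.1⟩, ⟨b', h.2.1⟩), ⟨c', h.2.2⟩) else 0
  have hp : ∀ j : (Fin L × Fin L) × Fin L', p (j.1.1 : ℕ) (j.1.2 : ℕ) (j.2 : ℕ) = x j := by
    intro j
    have h : (j.1.1 : ℕ) < L ∧ (j.1.2 : ℕ) < L ∧ (j.2 : ℕ) < L' := ⟨j.1.1.2, j.1.2.2, j.2.2⟩
    simp only [p, dif_pos h]
  refine ⟨p, ⟨j0.1.1, j0.1.1.2, j0.1.2, j0.1.2.2, j0.2, j0.2.2, ?_⟩, ?_, ?_⟩
  · rw [hp j0]; exact hj0
  · intro k hk
    ext i
    rw [Polynomial.coeff_zero]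
    by_cases hi : i < N
    · rw [hfrm k i hk hi p hp]
    · have := natDegree_frm U₁ U₂ U₃ l₁ l₂ L L' p k
      rw [Polynomial.coeff_eq_zero_of_natDegree_lt (lt_of_le_of_lt this (by omega))]
  · intro i j k
    have hLr : (1 : ℝ) ≤ L := by exact_mod_cast hLpos
    have hLr' : (1 : ℝ) ≤ L' := by exact_mod_cast hLpos'
    have hprod : (1 : ℝ) ≤ (L : ℝ) ^ 2 * L' * B :=
      one_le_mul_of_one_le_of_one_le
        (one_le_mul_of_one_le_of_one_le (one_le_pow₀ hLr) hLr') hB1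
    have hgoal : (5 : ℝ) * (4 * m * a ^ 2 * t) ^ 2 * (4 * m * a ^ 2) * B =
        5 * ((L : ℝ) ^ 2 * L' * B) := by
      rw [hL, hL']; push_cast; ring
    by_cases h : i < L ∧ j < L ∧ k < L'
    · have h1 := hxb ((⟨i, h.1⟩, ⟨j, h.2.1⟩), ⟨k, h.2.2⟩)
      rw [hcard] at h1
      have h2 : p i j k = x ((⟨i, h.1⟩, ⟨j, h.2.1⟩), ⟨k, h.2.2⟩) := by simp only [p, dif_pos h]
      rw [h2]
      push_cast at h1
      refine h1.trans ?_
      have h3 : (4 : ℝ) * ((L : ℝ) * L * L') * B + 1 ≤ 5 * ((L : ℝ) ^ 2 * L' * B) := by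
        have : (4 : ℝ) * ((L : ℝ) * L * L') * B = 4 * ((L : ℝ) ^ 2 * L' * B) := by ring
        rw [this]; linarith
      exact h3.trans (le_of_eq hgoal.symm)
    · have h2 : p i j k = 0 := by simp only [p, dif_neg h]
      rw [h2]
      simp only [Int.cast_zero, abs_zero]
      rw [hgoal]
      linarith

end Pool.Agent.LGO.E3
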