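import Pool.Agent.LGO.E3.Defs

/-!
# LGO, engine 3, module Bnd: upper bound for `Fn`

Proof.  `‖z‖ ≤ 8 S ≤ 9 S`, `‖z + v‖ ≤ 8 S + 1 ≤ 9 S`, `‖z + κ v‖ ≤ 8 S + ‖κ‖ / (1 + ‖κ‖) ≤ 9 S`.
`Gro` with `R = 9 S ≥ 1` gives `‖s_i‖, ‖e_i‖ ≤ exp X` with `X = c (81 S²/t + 9 S) + G ≥ 0` (resp.
`X' = c (81 S²/t' + 9 S) + G` for `i = 3`), so `‖s₁^a e₁^(L-1-a)‖ ≤ exp(X)^(L-1) ≤ exp(L X)` etc.
Sum over the `L L L'` triples (`norm_sum_le`); `P ≥ 0` if there is at least one triple (otherwise both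
sides are `≥ 0`: the left side is `0`, note `P ≥ |p 0 0 0| ≥ 0` anyway).
-/

namespace Pool.Agent.LGO.E3

private lemma bnd_pw {x y : ℂ} {X : ℝ} (hX : 0 ≤ X) (hx : ‖x‖ ≤ Real.exp X)
    (hy : ‖y‖ ≤ Real.exp X) {a L : ℕ} (ha : a < L) :
    ‖x ^ a * y ^ (L - 1 - a)‖ ≤ Real.exp (L * X) := by
  rw [norm_mul, norm_pow, norm_pow]
  calc ‖x‖ ^ a * ‖y‖ ^ (L - 1 - a) ≤ Real.exp X ^ a * Real.exp X ^ (L - 1 - a) := by gcongr
    _ = Real.exp X ^ (L - 1) := by rw [← pow_add]; congr 1; omega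
    _ = Real.exp (((L - 1 : ℕ) : ℝ) * X) := by rw [Real.exp_nat_mul]
    _ ≤ Real.exp (L * X) := by
      apply Real.exp_le_exp.2
      apply mul_le_mul_of_nonneg_right _ hX
      exact_mod_cast Nat.sub_le L 1

private lemma bnd_gro {s e : ℂ → ℂ} {c G t : ℝ} (h : Gro c G t s e) {S : ℕ} (hS : 1 ≤ S) {z : ℂ}
    (hz : ‖z‖ ≤ 9 * S) : ‖s z‖ ≤ Real.exp (c * (81 * S ^ 2 / t + 9 * S) + G) ∧
      ‖e z‖ ≤ Real.exp (c * (81 * S ^ 2 / t + 9 * S) + G) := by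
  have hS' : (1 : ℝ) ≤ S := by exact_mod_cast hS
  have h1 := h (9 * S) z (by linarith) hz
  have h2 : (9 * (S : ℝ)) ^ 2 = 81 * S ^ 2 := by ring
  rwa [h2] at h1

theorem bnd {s₁ e₁ s₂ e₂ s₃ e₃ : ℂ → ℂ} {c G t t' P : ℝ} (hc : 0 ≤ c) (hG : 0 ≤ G) (ht : 0 < t)
    (ht' : 0 < t') (h₁ : Gro c G t s₁ e₁) (h₂ : Gro c G t s₂ e₂) (h₃ : Gro c G t' s₃ e₃)
    (κ : ℂ) (L L' : ℕ) (p : ℕ → ℕ → ℕ → ℤ) (hp : ∀ i j k, |(p i j k : ℝ)| ≤ P) (S : ℕ)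
    (hS : 1 ≤ S) (z v : ℂ) (hz : ‖z‖ ≤ 8 * S) (hv : ‖v‖ ≤ 1 / (1 + ‖κ‖)) :
    ‖Fn s₁ e₁ s₂ e₂ s₃ e₃ κ L L' p (z, v)‖ ≤
      L ^ 2 * L' * P * Real.exp (2 * L * (c * (81 * S ^ 2 / t + 9 * S) + G)
        + L' * (c * (81 * S ^ 2 / t' + 9 * S) + G)) := by
  have hS' : (1 : ℝ) ≤ S := by exact_mod_cast hS
  have hP : 0 ≤ P := (abs_nonneg _).trans (hp 0 0 0)
  have hκ : 0 ≤ ‖κ‖ := norm_nonneg κ
  have hv1 : ‖v‖ ≤ 1 := hv.trans (by rw [div_le_one (by linarith)]; linarith)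
  have hκv : ‖κ * v‖ ≤ 1 := by
    rw [norm_mul]
    calc ‖κ‖ * ‖v‖ ≤ ‖κ‖ * (1 / (1 + ‖κ‖)) := mul_le_mul_of_nonneg_left hv hκ
      _ ≤ 1 := by rw [mul_one_div, div_le_one (by linarith)]; linarith
  have hz1 : ‖z‖ ≤ 9 * S := by linarith
  have hz2 : ‖z + v‖ ≤ 9 * S := (norm_add_le _ _).trans (by linarith)
  have hz3 : ‖z + κ * v‖ ≤ 9 * S := (norm_add_le _ _).trans (by linarith)
  have hX : 0 ≤ c * (81 * (S : ℝ) ^ 2 / t + 9 * S) + G := by positivity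
  have hX' : 0 ≤ c * (81 * (S : ℝ) ^ 2 / t' + 9 * S) + G := by positivity
  have g1 := bnd_gro h₁ hS hz1
  have g2 := bnd_gro h₂ hS hz2
  have g3 := bnd_gro h₃ hS hz3
  set X : ℝ := c * (81 * (S : ℝ) ^ 2 / t + 9 * S) + G with hXdef
  set X' : ℝ := c * (81 * (S : ℝ) ^ 2 / t' + 9 * S) + G with hXdef'
  have hterm : ∀ i ∈ Finset.range L, ∀ j ∈ Finset.range L, ∀ k ∈ Finset.range L',
      ‖(p i j k : ℂ) * (s₁ z ^ i * e₁ z ^ (L - 1 - i)) *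
        (s₂ (z + v) ^ j * e₂ (z + v) ^ (L - 1 - j)) *
        (s₃ (z + κ * v) ^ k * e₃ (z + κ * v) ^ (L' - 1 - k))‖ ≤
      P * Real.exp (2 * L * X + L' * X') := by
    intro i hi j hj k hk
    rw [Finset.mem_range] at hi hj hk
    rw [norm_mul, norm_mul, norm_mul]
    have e0 : ‖(p i j k : ℂ)‖ ≤ P := by
      rw [Complex.norm_intCast]
      exact hp i j k
    have e1 := bnd_pw hX g1.1 g1.2 hi
    have e2 := bnd_pw hX g2.1 g2.2 hj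
    have e3 := bnd_pw hX' g3.1 g3.2 hk
    calc ‖(p i j k : ℂ)‖ * ‖s₁ z ^ i * e₁ z ^ (L - 1 - i)‖ *
          ‖s₂ (z + v) ^ j * e₂ (z + v) ^ (L - 1 - j)‖ *
          ‖s₃ (z + κ * v) ^ k * e₃ (z + κ * v) ^ (L' - 1 - k)‖
        ≤ P * Real.exp (L * X) * Real.exp (L * X) * Real.exp (L' * X') := by
          gcongr
      _ = P * Real.exp (2 * L * X + L' * X') := by
          rw [mul_assoc, mul_assoc, ← Real.exp_add, ← Real.exp_add]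
          congr 2
          ring
  have hsum : ‖Fn s₁ e₁ s₂ e₂ s₃ e₃ κ L L' p (z, v)‖ ≤ ∑ _i ∈ Finset.range L,
      ∑ _j ∈ Finset.range L, ∑ _k ∈ Finset.range L', P * Real.exp (2 * L * X + L' * X') := by
    rw [Fn]
    refine (norm_sum_le _ _).trans (Finset.sum_le_sum fun i hi => ?_)
    refine (norm_sum_le _ _).trans (Finset.sum_le_sum fun j hj => ?_)
    refine (norm_sum_le _ _).trans (Finset.sum_le_sum fun k hk => ?_)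
    exact hterm i hi j hj k hk
  refine hsum.trans (le_of_eq ?_)
  rw [Finset.sum_const, Finset.sum_const, Finset.sum_const, Finset.card_range, Finset.card_range]
  simp only [nsmul_eq_mul]
  ring

end Pool.Agent.LGO.E3
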