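import Mathlib
import Pool.Agent.LGO.EngDefs
import Pool.Agent.Schn.TayBasic

/-!
# LGO, engine 3: definitions

Plan of engine 3 (note 2946, E3; note 2913, step 4).  `u_i = 1 / ℘_i`, `U_i` = its Taylor series at
`0` (over `K`), `s_i`, `e_i` entire and `1`-periodic with `u_i(w_i z) = s_i(z) / e_i(z)`, `e_i(0) = 1`.
For integers `p a b c` (`a, b < L`, `c < L'`) consider

* the FORMS `frm k ∈ K[X]`: the coefficient of `t^k` in
  `∑ p a b c U₁(t)^a U₂(X t)^b U₃((l₁ + l₂ X) t)^c` (a polynomial in `X` of degree `≤ k`);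
* the entire function of two variables (`κ = l₂ w₂ / w₃`)
  `Fn(z, v) = ∑ p a b c s₁(z)^a e₁(z)^(L-1-a) s₂(z+v)^b e₂(z+v)^(L-1-b) s₃(z+κv)^c e₃(z+κv)^(L'-1-c)`,
  which satisfies `Fn(z + 1, v) = Fn(z, v)`.

Along the line `v = η z` the Taylor series of `Fn` is, up to a factor `1 + ...`, equal to
`∑ (w₁ t)^k frm_k(θ (1 + η))`, `θ = w₂ / w₁` (this uses `l₁ w₁ + l₂ w₂ = w₃`).

Modules: `Two` (two-variable Schwarz lemma), `Unif` (uniform Taylor expansion), `Ser` (the Taylor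
series along a line), `Bnd` (upper bound for `Fn`), `Small` (the Taylor coefficients at `θ` of the
leading form are small), `Zero` (all forms `0` implies `Fn = 0`), `Idx` (`Fn = 0` implies the index
bound), `Hur`, `Maj`, `FrmMap` (arithmetic of the forms), `Aux` (Siegel), `MeasX` (the measure
hypothesis of the determinant lemma from engine 2), `Num` (final inequality), `Fin` (assembly).
-/

namespace Pool.Agent.LGO.E3

open Polynomial Pool.Agent.Schn

noncomputable section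

/-- `U₁(t)^a U₂(X t)^b U₃((l₁ + l₂ X) t)^c`, a power series in `t` over `R[X]` -/
def dirS {R : Type*} [CommRing R] (U₁ U₂ U₃ : PowerSeries R) (l₁ l₂ : R) (a b c : ℕ) :
    PowerSeries R[X] :=
  (PowerSeries.map (C : R →+* R[X]) U₁) ^ a *
    (PowerSeries.rescale (X : R[X]) (PowerSeries.map (C : R →+* R[X]) U₂)) ^ b *
    (PowerSeries.rescale (C l₁ + C l₂ * X) (PowerSeries.map (C : R →+* R[X]) U₃)) ^ c

/-- the form of degree `k` -/
def frm {R : Type*} [CommRing R] (U₁ U₂ U₃ : PowerSeries R) (l₁ l₂ : R) (L L' : ℕ)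
    (p : ℕ → ℕ → ℕ → ℤ) (k : ℕ) : R[X] :=
  ∑ a ∈ Finset.range L, ∑ b ∈ Finset.range L, ∑ c ∈ Finset.range L',
    (p a b c : R[X]) * PowerSeries.coeff k (dirS U₁ U₂ U₃ l₁ l₂ a b c)

/-- the auxiliary function of two variables -/
def Fn (s₁ e₁ s₂ e₂ s₃ e₃ : ℂ → ℂ) (κ : ℂ) (L L' : ℕ) (p : ℕ → ℕ → ℕ → ℤ) (x : ℂ × ℂ) : ℂ :=
  ∑ a ∈ Finset.range L, ∑ b ∈ Finset.range L, ∑ c ∈ Finset.range L',
    (p a b c : ℂ) * (s₁ x.1 ^ a * e₁ x.1 ^ (L - 1 - a)) *
      (s₂ (x.1 + x.2) ^ b * e₂ (x.1 + x.2) ^ (L - 1 - b)) *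
      (s₃ (x.1 + κ * x.2) ^ c * e₃ (x.1 + κ * x.2) ^ (L' - 1 - c))

/-- local data at a curve with the period `w`: `s / e` is `1`-periodic and has the Taylor series
`U(w z)` -/
structure Loc (w : ℂ) (U : PowerSeries ℂ) (s e : ℂ → ℂ) : Prop where
  ds : Differentiable ℂ s
  de : Differentiable ℂ e
  ps : ∀ z, s (z + 1) = s z
  pe : ∀ z, e (z + 1) = e z
  e0 : e 0 = 1
  ser : tay s = tay e * PowerSeries.rescale w U

/-- growth: skewness `t`, constant `c`, additional term `G` -/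
def Gro (c G t : ℝ) (s e : ℂ → ℂ) : Prop :=
  ∀ (R : ℝ) (z : ℂ), 1 ≤ R → ‖z‖ ≤ R →
    ‖s z‖ ≤ Real.exp (c * (R ^ 2 / t + R) + G) ∧ ‖e z‖ ≤ Real.exp (c * (R ^ 2 / t + R) + G)

/-- the relation between `s / e` and the Weierstrass function -/
def Wei (w τ : ℂ) (s e : ℂ → ℂ) : Prop :=
  ∀ z : ℂ, Pool.Agent.EllSch.Off w (w * τ) (w * z) →
    e z = s z * Pool.Agent.EllSch.wp w (w * τ) (w * z)

/-- arithmetic of the series `U`: `ν` clears denominators, `A` bounds all conjugates -/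
structure Ar {K : IntermediateField ℚ ℂ} (ν : ℕ) (A : ℝ) (U : PowerSeries K) : Prop where
  z0 : PowerSeries.coeff 0 U = 0
  int : ∀ n, IsIntegral ℤ ((n.factorial : K) * (ν : K) ^ n * PowerSeries.coeff n U)
  bd : ∀ (σ : K →+* ℂ) (n : ℕ), ‖σ (PowerSeries.coeff n U)‖ ≤ A ^ n

end

end Pool.Agent.LGO.E3
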