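import Pool.Agent.LGO.E3.Defs

/-!
# LGO, engine 3, module FrmMap: degree of the forms, compatibility with ring homomorphisms

Proofs.  (a) Call a power series `f` over `R[X]` *graded* if `natDegree (coeff k f) ≤ k` for all `k`.
Products and powers of graded series are graded (`natDegree_sum_le`, `natDegree_mul_le`), as are
`map C U`, `rescale X (map C U)` (coefficient `C u * X^k`) and `rescale (C l₁ + C l₂ * X) (map C U)`
(coefficient `(C l₁ + C l₂ X)^k C u`).  So `dirS` is graded and `frm .. k` has degree `≤ k`.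
(b) `Polynomial.map f (coeff k (dirS U₁ ..)) = coeff k (dirS (map f U₁) ..)`: apply the ring
homomorphism `PowerSeries.map (Polynomial.mapRingHom f)` to `dirS`; it commutes with powers, products,
with `PowerSeries.map C` and with `rescale` (`coeff_rescale`, `coeff_map`).
-/

namespace Pool.Agent.LGO.E3

open Polynomial

/-- graded power series over a polynomial ring -/
def FrmMap_Gr {R : Type*} [CommRing R] (f : PowerSeries R[X]) : Prop :=
  ∀ k, (PowerSeries.coeff k f).natDegree ≤ k

lemma FrmMap_Gr.mul {R : Type*} [CommRing R] {f g : PowerSeries R[X]} (hf : FrmMap_Gr f)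
    (hg : FrmMap_Gr g) : FrmMap_Gr (f * g) := by
  intro k
  rw [PowerSeries.coeff_mul]
  refine natDegree_sum_le_of_forall_le _ _ fun x hx => ?_
  have h := Finset.HasAntidiagonal.mem_antidiagonal.mp hx
  refine natDegree_mul_le.trans ?_
  have h1 := hf x.1
  have h2 := hg x.2
  omega

lemma FrmMap_Gr.one {R : Type*} [CommRing R] : FrmMap_Gr (1 : PowerSeries R[X]) := by
  intro k
  rw [PowerSeries.coeff_one]
  split_ifs <;> simp

lemma FrmMap_Gr.pow {R : Type*} [CommRing R] {f : PowerSeries R[X]} (hf : FrmMap_Gr f) (n : ℕ) :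
    FrmMap_Gr (f ^ n) := by
  induction n with
  | zero => rw [pow_zero]; exact FrmMap_Gr.one
  | succ n ih => rw [pow_succ]; exact ih.mul hf

lemma FrmMap_Gr.resc {R : Type*} [CommRing R] (a : R[X]) (ha : a.natDegree ≤ 1)
    (U : PowerSeries R) : FrmMap_Gr (PowerSeries.rescale a (PowerSeries.map (C : R →+* R[X]) U)) := by
  intro k
  rw [PowerSeries.coeff_rescale, PowerSeries.coeff_map]
  refine natDegree_mul_le.trans ?_
  rw [natDegree_C, add_zero]
  refine natDegree_pow_le.trans ?_
  calc k * a.natDegree ≤ k * 1 := Nat.mul_le_mul_left _ ha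
    _ = k := mul_one _

lemma FrmMap_Gr.base {R : Type*} [CommRing R] (U : PowerSeries R) :
    FrmMap_Gr (PowerSeries.map (C : R →+* R[X]) U) := by
  intro k
  rw [PowerSeries.coeff_map, natDegree_C]
  exact Nat.zero_le _

theorem natDegree_dirS {R : Type*} [CommRing R] (U₁ U₂ U₃ : PowerSeries R) (l₁ l₂ : R)
    (a b c k : ℕ) : (PowerSeries.coeff k (dirS U₁ U₂ U₃ l₁ l₂ a b c)).natDegree ≤ k := by
  have h : FrmMap_Gr (dirS U₁ U₂ U₃ l₁ l₂ a b c) := by
    unfold dirS
    refine (((FrmMap_Gr.base U₁).pow a).mul ((FrmMap_Gr.resc _ natDegree_X_le U₂).pow b)).mul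
      ((FrmMap_Gr.resc _ ?_ U₃).pow c)
    refine natDegree_add_le_of_degree_le ?_ ?_
    · rw [natDegree_C]; exact Nat.zero_le _
    · exact (natDegree_C_mul_le _ _).trans natDegree_X_le
  exact h k

theorem natDegree_frm {R : Type*} [CommRing R] (U₁ U₂ U₃ : PowerSeries R) (l₁ l₂ : R) (L L' : ℕ)
    (p : ℕ → ℕ → ℕ → ℤ) (k : ℕ) : (frm U₁ U₂ U₃ l₁ l₂ L L' p k).natDegree ≤ k := by
  unfold frm
  refine natDegree_sum_le_of_forall_le _ _ fun a _ => ?_
  refine natDegree_sum_le_of_forall_le _ _ fun b _ => ?_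
  refine natDegree_sum_le_of_forall_le _ _ fun c _ => ?_
  refine natDegree_mul_le.trans ?_
  rw [natDegree_intCast, zero_add]
  exact natDegree_dirS U₁ U₂ U₃ l₁ l₂ a b c k

lemma FrmMap_map_rescale {R S : Type*} [CommRing R] [CommRing S] (g : R →+* S) (a : R)
    (U : PowerSeries R) : PowerSeries.map g (PowerSeries.rescale a U) =
      PowerSeries.rescale (g a) (PowerSeries.map g U) := by
  ext k
  rw [PowerSeries.coeff_map, PowerSeries.coeff_rescale, PowerSeries.coeff_rescale,
    PowerSeries.coeff_map, map_mul, map_pow]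

lemma FrmMap_map_C {R S : Type*} [CommRing R] [CommRing S] (f : R →+* S)
    (U : PowerSeries R) : PowerSeries.map (Polynomial.mapRingHom f)
      (PowerSeries.map (C : R →+* R[X]) U) =
      PowerSeries.map (C : S →+* S[X]) (PowerSeries.map f U) := by
  ext1 k
  rw [PowerSeries.coeff_map, PowerSeries.coeff_map, PowerSeries.coeff_map, PowerSeries.coeff_map,
    coe_mapRingHom, Polynomial.map_C]

theorem map_dirS {R S : Type*} [CommRing R] [CommRing S] (f : R →+* S) (U₁ U₂ U₃ : PowerSeries R)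
    (l₁ l₂ : R) (a b c k : ℕ) :
    (PowerSeries.coeff k (dirS U₁ U₂ U₃ l₁ l₂ a b c)).map f =
      PowerSeries.coeff k (dirS (PowerSeries.map f U₁) (PowerSeries.map f U₂)
        (PowerSeries.map f U₃) (f l₁) (f l₂) a b c) := by
  have h : PowerSeries.map (Polynomial.mapRingHom f) (dirS U₁ U₂ U₃ l₁ l₂ a b c) =
      dirS (PowerSeries.map f U₁) (PowerSeries.map f U₂) (PowerSeries.map f U₃) (f l₁) (f l₂)
        a b c := by
    unfold dirS
    rw [map_mul, map_mul, map_pow, map_pow, map_pow, FrmMap_map_rescale, FrmMap_map_rescale,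
      FrmMap_map_C, FrmMap_map_C, FrmMap_map_C]
    simp
  rw [← h, PowerSeries.coeff_map, coe_mapRingHom]

theorem map_frm {R S : Type*} [CommRing R] [CommRing S] (f : R →+* S) (U₁ U₂ U₃ : PowerSeries R)
    (l₁ l₂ : R) (L L' : ℕ) (p : ℕ → ℕ → ℕ → ℤ) (k : ℕ) :
    (frm U₁ U₂ U₃ l₁ l₂ L L' p k).map f =
      frm (PowerSeries.map f U₁) (PowerSeries.map f U₂) (PowerSeries.map f U₃) (f l₁) (f l₂)
        L L' p k := by
  unfold frm
  simp only [Polynomial.map_sum, Polynomial.map_mul, Polynomial.map_intCast, map_dirS]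

end Pool.Agent.LGO.E3
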