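import Pool.Agent.LGO.E3.Defs

/-!
# LGO, engine 3, module Ser: the Taylor series of `Fn` along a line

Proof.  For an entire `f` and `α : ℂ`: `tay (fun t => f (α t)) = rescale α (tay f)`
(`iteratedDeriv_comp_const_mul`-type lemma).  With `v = η t`: `t + v = (1 + η) t`,
`t + κ v = (1 + κ η) t`.  By `Loc.ser` and the rules of `Schn/TayBasic` (sum, product, power):

`tay (t ↦ s₁(t)^a e₁(t)^(L-1-a)) = (tay e₁)^(L-1) (rescale w₁ U₁)^a` (`a ≤ L - 1`),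
`tay (t ↦ s₂((1+η)t)^b e₂(..)^(L-1-b)) = (rescale (1+η) (tay e₂))^(L-1) (rescale ((1+η) w₂) U₂)^b`,
`tay (t ↦ s₃((1+κη)t)^c ..) = (rescale (1+κη) (tay e₃))^(L'-1) (rescale ((1+κη) w₃) U₃)^c`.

So with `V = (tay e₁)^(L-1) (rescale (1+η) (tay e₂))^(L-1) (rescale (1+κη) (tay e₃))^(L'-1)`,
`constantCoeff V = 1` (as `coeff 0 (tay e) = e 0 = 1`), and `x = w₂ (1 + η) / w₁`:
`(1+η) w₂ = w₁ x`, `(1+κη) w₃ = w₃ + l₂ w₂ η = l₁ w₁ + l₂ w₂ (1+η) = w₁ (l₁ + l₂ x)`.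
`rescale (α β) = rescale α ∘ rescale β` is a ring homomorphism, so the sum is `V * rescale w₁ W`
with `W = ∑ p a b c U₁^a (rescale x U₂)^b (rescale (l₁ + l₂ x) U₃)^c`, and
`W = ∑ p a b c (PowerSeries.map (evalRingHom x)) (dirS U₁ U₂ U₃ l₁ l₂ a b c)`
(`PowerSeries.map` commutes with `rescale`: `map φ (rescale α f) = rescale (φ α) (map φ f)`, and
`evalRingHom x ∘ C = id`), whose `k`-th coefficient is `(frm .. k).eval x`.
-/

namespace Pool.Agent.LGO.E3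

open Polynomial Pool.Agent.Schn

private theorem ser_scale {f : ℂ → ℂ} (hf : Differentiable ℂ f) (α : ℂ) :
    tay (fun t => f (α * t)) = PowerSeries.rescale α (tay f) := by
  ext n
  rw [PowerSeries.coeff_rescale, tay, tay, PowerSeries.coeff_mk, PowerSeries.coeff_mk,
    iteratedDeriv_comp_const_mul hf.contDiff α]
  simp only [mul_zero]
  ring

private theorem ser_an {f : ℂ → ℂ} (hf : Differentiable ℂ f) (α : ℂ) (z : ℂ) :
    AnalyticAt ℂ (fun t => f (α * t)) z :=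
  (hf.comp (differentiable_id.const_mul α)).analyticAt z

private theorem ser_fac {w : ℂ} {U : PowerSeries ℂ} {s e : ℂ → ℂ} (h : Loc w U s e) (α : ℂ)
    {n L : ℕ} (hn : n < L) :
    tay (fun t => s (α * t) ^ n * e (α * t) ^ (L - 1 - n)) =
      PowerSeries.rescale α (tay e) ^ (L - 1) * PowerSeries.rescale (α * w) U ^ n := by
  have hp1 : AnalyticAt ℂ (fun t => s (α * t) ^ n) 0 := (ser_an h.ds α 0).pow n
  have hp2 : AnalyticAt ℂ (fun t => e (α * t) ^ (L - 1 - n)) 0 := (ser_an h.de α 0).pow (L - 1 - n)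
  rw [tay_mul hp1 hp2,
    tay_pow (ser_an h.ds α 0), tay_pow (ser_an h.de α 0), ser_scale h.ds, ser_scale h.de, h.ser,
    map_mul, PowerSeries.rescale_rescale, mul_comm w α]
  have h1 : L - 1 = n + (L - 1 - n) := by omega
  conv_rhs => rw [h1, pow_add]
  rw [mul_pow]
  ring

private theorem ser_dir (U₁ U₂ U₃ : PowerSeries ℂ) (l₁ l₂ x : ℂ) (a b c : ℕ) :
    PowerSeries.map (evalRingHom x) (dirS U₁ U₂ U₃ l₁ l₂ a b c) =
      U₁ ^ a * PowerSeries.rescale x U₂ ^ b * PowerSeries.rescale (l₁ + l₂ * x) U₃ ^ c := by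
  have hC : ∀ U : PowerSeries ℂ,
      PowerSeries.map (evalRingHom x) (PowerSeries.map (C : ℂ →+* ℂ[X]) U) = U := by
    intro U
    ext n
    simp
  have hR : ∀ (r : ℂ[X]) (U : PowerSeries ℂ),
      PowerSeries.map (evalRingHom x) (PowerSeries.rescale r (PowerSeries.map (C : ℂ →+* ℂ[X]) U)) =
        PowerSeries.rescale (r.eval x) U := by
    intro r U
    ext n
    simp [PowerSeries.coeff_rescale]
  rw [dirS, map_mul, map_mul, map_pow, map_pow, map_pow, hC, hR, hR]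
  simp

private theorem ser_frm (U₁ U₂ U₃ : PowerSeries ℂ) (l₁ l₂ x : ℂ) (L L' : ℕ)
    (p : ℕ → ℕ → ℕ → ℤ) :
    (PowerSeries.mk fun k => (frm U₁ U₂ U₃ l₁ l₂ L L' p k).eval x) =
      ∑ a ∈ Finset.range L, ∑ b ∈ Finset.range L, ∑ c ∈ Finset.range L',
        PowerSeries.C (p a b c : ℂ) *
          (U₁ ^ a * PowerSeries.rescale x U₂ ^ b * PowerSeries.rescale (l₁ + l₂ * x) U₃ ^ c) := by
  ext k
  rw [PowerSeries.coeff_mk, frm, map_sum, eval_finsetSum]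
  refine Finset.sum_congr rfl fun a _ => ?_
  rw [map_sum, eval_finsetSum]
  refine Finset.sum_congr rfl fun b _ => ?_
  rw [map_sum, eval_finsetSum]
  refine Finset.sum_congr rfl fun c _ => ?_
  rw [PowerSeries.coeff_C_mul, ← ser_dir, PowerSeries.coeff_map, eval_mul, coe_evalRingHom,
    eval_intCast]

theorem tay_Fn {w₁ w₂ w₃ l₁ l₂ : ℂ} {U₁ U₂ U₃ : PowerSeries ℂ} {s₁ e₁ s₂ e₂ s₃ e₃ : ℂ → ℂ}
    (h₁ : Loc w₁ U₁ s₁ e₁) (h₂ : Loc w₂ U₂ s₂ e₂) (h₃ : Loc w₃ U₃ s₃ e₃) (hw₁ : w₁ ≠ 0)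
    (hw₃ : w₃ ≠ 0) (hl : l₁ * w₁ + l₂ * w₂ = w₃) (L L' : ℕ) (p : ℕ → ℕ → ℕ → ℤ) (η : ℂ) :
    ∃ V : PowerSeries ℂ, PowerSeries.constantCoeff V = 1 ∧
      tay (fun t => Fn s₁ e₁ s₂ e₂ s₃ e₃ (l₂ * w₂ / w₃) L L' p (t, η * t)) =
        V * PowerSeries.rescale w₁
          (PowerSeries.mk fun k => (frm U₁ U₂ U₃ l₁ l₂ L L' p k).eval (w₂ * (1 + η) / w₁)) := by
  set κ : ℂ := l₂ * w₂ / w₃ with hκ
  set x : ℂ := w₂ * (1 + η) / w₁ with hx
  have hx1 : x * w₁ = (1 + η) * w₂ := by rw [hx]; field_simp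
  have hx2 : (l₁ + l₂ * x) * w₁ = (1 + κ * η) * w₃ := by
    have e1 : κ * w₃ = l₂ * w₂ := by rw [hκ]; field_simp
    calc (l₁ + l₂ * x) * w₁ = l₁ * w₁ + l₂ * (x * w₁) := by ring
      _ = (l₁ * w₁ + l₂ * w₂) + η * (l₂ * w₂) := by rw [hx1]; ring
      _ = (1 + κ * η) * w₃ := by rw [hl, ← e1]; ring
  have hc0 : ∀ {e : ℂ → ℂ} (α : ℂ), e 0 = 1 →
      PowerSeries.constantCoeff (PowerSeries.rescale α (tay e)) = 1 := by
    intro e α he
    rw [← PowerSeries.coeff_zero_eq_constantCoeff_apply, PowerSeries.coeff_rescale, tay,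
      PowerSeries.coeff_mk]
    simp [he]
  refine ⟨PowerSeries.rescale 1 (tay e₁) ^ (L - 1) * PowerSeries.rescale (1 + η) (tay e₂) ^ (L - 1) *
    PowerSeries.rescale (1 + κ * η) (tay e₃) ^ (L' - 1), ?_, ?_⟩
  · rw [map_mul, map_mul, map_pow, map_pow, map_pow, hc0 _ h₁.e0, hc0 _ h₂.e0, hc0 _ h₃.e0]
    simp
  · have hA : ∀ {w : ℂ} {U : PowerSeries ℂ} {s e : ℂ → ℂ}, Loc w U s e → ∀ (α : ℂ) (m n : ℕ),
        AnalyticAt ℂ (fun t => s (α * t) ^ m * e (α * t) ^ n) 0 := fun h α m n =>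
      ((ser_an h.ds α 0).pow m).mul ((ser_an h.de α 0).pow n)
    have hT : ∀ a b c : ℕ, AnalyticAt ℂ (fun t => (p a b c : ℂ) *
        (s₁ (1 * t) ^ a * e₁ (1 * t) ^ (L - 1 - a)) *
        (s₂ ((1 + η) * t) ^ b * e₂ ((1 + η) * t) ^ (L - 1 - b)) *
        (s₃ ((1 + κ * η) * t) ^ c * e₃ ((1 + κ * η) * t) ^ (L' - 1 - c))) 0 := fun a b c =>
      ((analyticAt_const.mul (hA h₁ 1 _ _)).mul (hA h₂ _ _ _)).mul (hA h₃ _ _ _)
    have hF : (fun t => Fn s₁ e₁ s₂ e₂ s₃ e₃ κ L L' p (t, η * t)) = fun t =>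
        ∑ a ∈ Finset.range L, ∑ b ∈ Finset.range L, ∑ c ∈ Finset.range L',
          ((p a b c : ℂ) * (s₁ (1 * t) ^ a * e₁ (1 * t) ^ (L - 1 - a)) *
          (s₂ ((1 + η) * t) ^ b * e₂ ((1 + η) * t) ^ (L - 1 - b)) *
          (s₃ ((1 + κ * η) * t) ^ c * e₃ ((1 + κ * η) * t) ^ (L' - 1 - c))) := by
      funext t
      have e2 : t + η * t = (1 + η) * t := by ring
      have e3 : t + κ * (η * t) = (1 + κ * η) * t := by ring
      simp only [Fn, e2, e3, one_mul]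
    rw [hF, ser_frm, map_sum, Finset.mul_sum,
      tay_sum _ _ fun a _ => Finset.analyticAt_fun_sum _ fun b _ =>
        Finset.analyticAt_fun_sum _ fun c _ => hT a b c]
    refine Finset.sum_congr rfl fun a ha => ?_
    rw [map_sum, Finset.mul_sum, tay_sum _ _ fun b _ =>
        Finset.analyticAt_fun_sum _ fun c _ => hT a b c]
    refine Finset.sum_congr rfl fun b hb => ?_
    rw [map_sum, Finset.mul_sum, tay_sum _ _ fun c _ => hT a b c]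
    refine Finset.sum_congr rfl fun c hc => ?_
    have q1 := hA h₁ 1 a (L - 1 - a)
    have q2 := hA h₂ (1 + η) b (L - 1 - b)
    have q3 := hA h₃ (1 + κ * η) c (L' - 1 - c)
    have q0 : AnalyticAt ℂ (fun _ : ℂ => (p a b c : ℂ)) 0 := analyticAt_const
    have q01 : AnalyticAt ℂ (fun t => (p a b c : ℂ) *
        (s₁ (1 * t) ^ a * e₁ (1 * t) ^ (L - 1 - a))) 0 := q0.mul q1
    have q012 : AnalyticAt ℂ (fun t => (p a b c : ℂ) *
        (s₁ (1 * t) ^ a * e₁ (1 * t) ^ (L - 1 - a)) *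
        (s₂ ((1 + η) * t) ^ b * e₂ ((1 + η) * t) ^ (L - 1 - b))) 0 := q01.mul q2
    rw [tay_mul q012 q3, tay_mul q01 q2, tay_mul q0 q1, tay_const,
      ser_fac h₁ 1 (Finset.mem_range.mp ha), ser_fac h₂ _ (Finset.mem_range.mp hb),
      ser_fac h₃ _ (Finset.mem_range.mp hc), map_mul, map_mul, map_mul, map_pow, map_pow, map_pow,
      PowerSeries.rescale_rescale, PowerSeries.rescale_rescale, hx1, hx2, one_mul]
    have hCr : PowerSeries.rescale w₁ (PowerSeries.C (p a b c : ℂ)) = PowerSeries.C (p a b c : ℂ) := by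
      ext n
      rw [PowerSeries.coeff_rescale, PowerSeries.coeff_C]
      by_cases hn : n = 0
      · simp [hn]
      · simp [hn]
    rw [hCr]
    ring

/-- `Fn` is analytic and periodic -/
theorem analytic_Fn {w₁ w₂ w₃ : ℂ} {U₁ U₂ U₃ : PowerSeries ℂ} {s₁ e₁ s₂ e₂ s₃ e₃ : ℂ → ℂ}
    (h₁ : Loc w₁ U₁ s₁ e₁) (h₂ : Loc w₂ U₂ s₂ e₂) (h₃ : Loc w₃ U₃ s₃ e₃) (κ : ℂ)
    (L L' : ℕ) (p : ℕ → ℕ → ℕ → ℤ) :
    (∀ x, AnalyticAt ℂ (Fn s₁ e₁ s₂ e₂ s₃ e₃ κ L L' p) x) ∧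
      ∀ z v, Fn s₁ e₁ s₂ e₂ s₃ e₃ κ L L' p (z + 1, v) = Fn s₁ e₁ s₂ e₂ s₃ e₃ κ L L' p (z, v) := by
  constructor
  · intro x
    have hg : ∀ {f : ℂ → ℂ} {g : ℂ × ℂ → ℂ}, Differentiable ℂ f → AnalyticAt ℂ g x →
        AnalyticAt ℂ (fun y => f (g y)) x := fun {f g} hf hg =>
      (hf.analyticAt (g x)).comp hg
    have e1 : AnalyticAt ℂ (fun y : ℂ × ℂ => y.1) x := analyticAt_fst
    have e2 : AnalyticAt ℂ (fun y : ℂ × ℂ => y.1 + y.2) x := analyticAt_fst.add analyticAt_snd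
    have e3 : AnalyticAt ℂ (fun y : ℂ × ℂ => y.1 + κ * y.2) x :=
      analyticAt_fst.add (analyticAt_const.mul analyticAt_snd)
    have hF : Fn s₁ e₁ s₂ e₂ s₃ e₃ κ L L' p = fun y : ℂ × ℂ =>
        ∑ a ∈ Finset.range L, ∑ b ∈ Finset.range L, ∑ c ∈ Finset.range L',
          (p a b c : ℂ) * (s₁ y.1 ^ a * e₁ y.1 ^ (L - 1 - a)) *
            (s₂ (y.1 + y.2) ^ b * e₂ (y.1 + y.2) ^ (L - 1 - b)) *
            (s₃ (y.1 + κ * y.2) ^ c * e₃ (y.1 + κ * y.2) ^ (L' - 1 - c)) := rfl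
    rw [hF]
    refine Finset.analyticAt_fun_sum _ fun a _ => Finset.analyticAt_fun_sum _ fun b _ =>
      Finset.analyticAt_fun_sum _ fun c _ => ?_
    exact ((analyticAt_const.mul (((hg h₁.ds e1).pow a).mul ((hg h₁.de e1).pow (L - 1 - a)))).mul
      (((hg h₂.ds e2).pow b).mul ((hg h₂.de e2).pow (L - 1 - b)))).mul
      (((hg h₃.ds e3).pow c).mul ((hg h₃.de e3).pow (L' - 1 - c)))
  · intro z v
    have a1 : z + 1 + v = (z + v) + 1 := by ring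
    have a2 : z + 1 + κ * v = (z + κ * v) + 1 := by ring
    simp only [Fn, a1, a2, h₁.ps, h₁.pe, h₂.ps, h₂.pe, h₃.ps, h₃.pe]

end Pool.Agent.LGO.E3
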