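import Pool.Agent.LGO.E3.Defs

/-!
# LGO, engine 3, module Unif: uniform Taylor expansion along lines

Proof.  `F` is continuous, so `‖F‖ ≤ B0` on the compact set `‖z‖ ≤ 1, ‖v‖ ≤ 1` (`B0 ≥ 0`).  For
`‖η‖ ≤ 1` the function `g(t) = F(t, η t)` is entire and `‖g‖ ≤ B0` on `‖t‖ ≤ 1`; with
`c_k = coeff k (tay g)`, `‖c_k‖ ≤ B0` (Cauchy) and `g(t) = ∑ c_k t^k`, so for `‖t‖ ≤ 1/2`
`‖g(t) - ∑_{k ≤ O} c_k t^k‖ ≤ B0 ∑_{k > O} ‖t‖^k ≤ 2 B0 ‖t‖^(O+1)`.
Here `∑_{k ≤ O} c_k t^k = t^O ∑_i q i η^i`.  Take `r = 1/2`, `C₀ = 2 B0`, and for `z ≠ 0`,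
`‖v‖ ≤ ‖z‖` put `η = v / z`: `z^O (v/z)^i = z^(O-i) v^i` for `i ≤ O`.  For `z = 0` (then `v = 0`):
the left side is `F(0,0) - ∑ q i 0^(O-i) 0^i`, which is `F(0,0) - q 0` if `O = 0` and `F(0,0)` if
`O > 0`; both are `0` by `hO` resp. `hlow` (`coeff 0 (tay g) = g(0)`), and the right side is `≥ 0`.
-/

namespace Pool.Agent.LGO.E3

open Pool.Agent.Schn

private theorem one_var {g : ℂ → ℂ} (hg : Differentiable ℂ g) {B : ℝ}
    (hB : ∀ t : ℂ, ‖t‖ ≤ 1 → ‖g t‖ ≤ B) (n : ℕ) {t : ℂ} (ht : ‖t‖ ≤ 1 / 2) :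
    ‖g t - ∑ k ∈ Finset.range n, PowerSeries.coeff k (tay g) * t ^ k‖ ≤ 2 * B * ‖t‖ ^ n := by
  have hB0 : 0 ≤ B := (norm_nonneg (g 0)).trans (hB 0 (by simp))
  have hc : ∀ k, ‖PowerSeries.coeff k (tay g)‖ ≤ B := by
    intro k
    rw [tay, PowerSeries.coeff_mk, norm_div, Complex.norm_natCast]
    have h1 : ‖iteratedDeriv k g 0‖ ≤ k.factorial * B / 1 ^ k :=
      Complex.norm_iteratedDeriv_le_of_forall_mem_sphere_norm_le k one_pos
        hg.diffContOnCl fun z hz => hB z (le_of_eq (by simpa using hz))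
    have h2 : (0 : ℝ) < k.factorial := by exact_mod_cast k.factorial_pos
    rw [div_le_iff₀ h2]
    calc ‖iteratedDeriv k g 0‖ ≤ k.factorial * B / 1 ^ k := h1
      _ = B * k.factorial := by rw [one_pow, div_one, mul_comm]
  have hs : HasSum (fun k => PowerSeries.coeff k (tay g) * t ^ k) (g t) := by
    have h := Complex.hasSum_taylorSeries_of_entire hg 0 t
    have he : (fun k => PowerSeries.coeff k (tay g) * t ^ k) = fun k : ℕ =>
        ((k.factorial : ℂ))⁻¹ • (t - 0) ^ k • iteratedDeriv k g 0 := by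
      funext k
      rw [tay, PowerSeries.coeff_mk, sub_zero, smul_eq_mul, smul_eq_mul, div_eq_mul_inv]
      ring
    rw [he]
    exact h
  have hs2 := (hasSum_nat_add_iff' n).2 hs
  have hgeo : HasSum (fun k : ℕ => B * ‖t‖ ^ n * (1 / 2 : ℝ) ^ k) (B * ‖t‖ ^ n * 2) :=
    hasSum_geometric_two.mul_left _
  have hle := tsum_of_norm_bounded hgeo (f := fun k => PowerSeries.coeff (k + n) (tay g) *
    t ^ (k + n)) (fun k => by
      rw [norm_mul, norm_pow, pow_add]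
      have h1 : ‖t‖ ^ k ≤ (1 / 2 : ℝ) ^ k := pow_le_pow_left₀ (norm_nonneg _) ht k
      have h2 : 0 ≤ ‖t‖ ^ n := by positivity
      calc ‖PowerSeries.coeff (k + n) (tay g)‖ * (‖t‖ ^ k * ‖t‖ ^ n)
          ≤ B * ((1 / 2 : ℝ) ^ k * ‖t‖ ^ n) :=
            mul_le_mul (hc _) (mul_le_mul_of_nonneg_right h1 h2) (by positivity) hB0
        _ = B * ‖t‖ ^ n * (1 / 2 : ℝ) ^ k := by ring)
  rw [hs2.tsum_eq] at hle
  calc _ ≤ B * ‖t‖ ^ n * 2 := hle
    _ = 2 * B * ‖t‖ ^ n := by ring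

theorem unif_taylor (F : ℂ × ℂ → ℂ) (hF : ∀ x, AnalyticAt ℂ F x) (O : ℕ) (q : ℕ → ℂ)
    (hlow : ∀ η : ℂ, ‖η‖ ≤ 1 → ∀ k < O, PowerSeries.coeff k (tay fun t => F (t, η * t)) = 0)
    (hO : ∀ η : ℂ, ‖η‖ ≤ 1 → PowerSeries.coeff O (tay fun t => F (t, η * t)) =
      ∑ i ∈ Finset.range (O + 1), q i * η ^ i) :
    ∃ C₀ r : ℝ, 0 < r ∧ ∀ z v : ℂ, ‖z‖ ≤ r → ‖v‖ ≤ ‖z‖ →
      ‖F (z, v) - ∑ i ∈ Finset.range (O + 1), q i * z ^ (O - i) * v ^ i‖
        ≤ C₀ * ‖z‖ ^ (O + 1) := by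
  have hdF : Differentiable ℂ F := fun x => (hF x).differentiableAt
  obtain ⟨B, hB⟩ := (isCompact_closedBall (0 : ℂ × ℂ) 1).exists_bound_of_continuousOn
    hdF.continuous.continuousOn
  have hg : ∀ η : ℂ, Differentiable ℂ fun t => F (t, η * t) := fun η =>
    hdF.comp (differentiable_id.prodMk ((differentiable_const η).mul differentiable_id))
  have hgB : ∀ η : ℂ, ‖η‖ ≤ 1 → ∀ t : ℂ, ‖t‖ ≤ 1 → ‖F (t, η * t)‖ ≤ B := by
    intro η hη t ht
    refine hB _ ?_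
    rw [mem_closedBall_zero_iff, Prod.norm_def]
    refine max_le ht ?_
    rw [norm_mul]
    exact mul_le_one₀ hη (norm_nonneg _) ht
  refine ⟨2 * B, 1 / 2, by norm_num, fun z v hz hv => ?_⟩
  by_cases hz0 : z = 0
  · subst hz0
    have hv0 : v = 0 := by simpa using hv
    subst hv0
    have h := one_var (hg 0) (hgB 0 (by simp)) (O + 1) (t := 0) (by simp)
    have h0 : ∑ k ∈ Finset.range (O + 1), PowerSeries.coeff k (tay fun t => F (t, 0 * t)) *
        (0 : ℂ) ^ k = ∑ i ∈ Finset.range (O + 1), q i * (0 : ℂ) ^ (O - i) * 0 ^ i := by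
      rw [Finset.sum_range_succ]
      rcases Nat.eq_zero_or_pos O with h1 | h1
      · subst h1
        rw [hO 0 (by simp)]
        simp
      · rw [Finset.sum_eq_zero fun k hk => by
          rw [hlow 0 (by simp) k (Finset.mem_range.1 hk), zero_mul], zero_pow h1.ne', mul_zero,
          zero_add]
        symm
        refine Finset.sum_eq_zero fun i hi => ?_
        rcases Nat.eq_zero_or_pos i with h2 | h2
        · subst h2
          rw [Nat.sub_zero, zero_pow h1.ne', mul_zero, zero_mul]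
        · rw [zero_pow h2.ne', mul_zero]
    rw [h0] at h
    simpa using h
  · have hη : ‖v / z‖ ≤ 1 := by
      rw [norm_div]
      exact div_le_one_of_le₀ hv (norm_nonneg _)
    have h := one_var (hg (v / z)) (hgB _ hη) (O + 1) (t := z) hz
    have h0 : ∑ k ∈ Finset.range (O + 1), PowerSeries.coeff k (tay fun t => F (t, v / z * t)) *
        z ^ k = ∑ i ∈ Finset.range (O + 1), q i * z ^ (O - i) * v ^ i := by
      rw [Finset.sum_range_succ, Finset.sum_eq_zero fun k hk => by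
          rw [hlow _ hη k (Finset.mem_range.1 hk), zero_mul], zero_add, hO _ hη, Finset.sum_mul]
      refine Finset.sum_congr rfl fun i hi => ?_
      have hi' : i ≤ O := Nat.lt_succ_iff.1 (Finset.mem_range.1 hi)
      have h1 : z ^ O = z ^ (O - i) * z ^ i := by rw [← pow_add, Nat.sub_add_cancel hi']
      rw [h1, div_pow]
      field_simp
    rw [h0, div_mul_cancel₀ v hz0] at h
    exact h

end Pool.Agent.LGO.E3
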